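import Mathlib
import Pool.Agent.Helper28.AN.Defs

/-!
Project AN (MP_8410f8_pr), piece L1.
-/

open MeasureTheory Set Filter Topology
open scoped ENNReal

namespace Pool.Agent.Helper28.AN

open Pool.Agent.Helper97.BG

/-- Contrapositive: a colouring `c` of `W'` gives the colouring `c ∘ φ` of `W`. -/
theorem NC_hom {d : ℕ} {a h a' h' : ℝ} {k : ℕ} {W W' : Set (Sph d × Bool)}
    (φ : Sph d × Bool → Sph d × Bool) (hφ : ∀ p ∈ W, φ p ∈ W')
    (hadj : ∀ p ∈ W, ∀ q ∈ W, adjM a h p q → adjM a' h' (φ p) (φ q)) (hW : NC a h k W) :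
    NC a' h' k W' := by
  rintro ⟨c, hc⟩
  exact hW ⟨fun p => c (φ p), fun p hp q hq hpq =>
    hc (φ p) (hφ p hp) (φ q) (hφ q hq) (hadj p hp q hq hpq)⟩

/-- `NC_hom` with the map that sends `(z i, false)` (where `ω i = 1`) to `(z i, true)` if no vertex
`(z i, false)` occurs in `cfg z U ω'`, and everything else to itself. Precisely: put `φ p = p` if
`p ∈ cfg z U ω'` and `φ p = (p.1, true)` otherwise. If `p ∈ cfg z U ω` is not in `cfg z U ω'` then
`p = (z i, false)` with `ω i = 1` and `ω' i ≠ 1`, so `ω' i = 2` (`ω i ≤ ω' i`) and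
`(z i, true) ∈ cfg z U ω'`. The first coordinate does not change and the mark does not decrease, so
adjacency is preserved (`0 ≤ h`). -/
theorem FF_mono {d : ℕ} {a h : ℝ} {k N : ℕ} (hh : 0 ≤ h) (z : Fin N → Sph d) (U : Set (Sph d))
    {ω ω' : Om N} (hω : ω ≤ ω') (hF : FF a h k z U ω) : FF a h k z U ω' := by
  classical
  have hmk : ∀ p : Sph d × Bool,
      (if p.2 then h else 0) ≤ (if (if p ∈ cfg z U ω' then p else (p.1, true)).2 then h else 0) := by
    intro p
    by_cases hp : p ∈ cfg z U ω'
    · simp only [if_pos hp, le_refl]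
    · simp only [if_neg hp, if_true]
      split_ifs
      · exact le_refl h
      · exact hh
  have hfst : ∀ p : Sph d × Bool, (if p ∈ cfg z U ω' then p else (p.1, true)).1 = p.1 := by
    intro p
    by_cases hp : p ∈ cfg z U ω'
    · simp only [if_pos hp]
    · simp only [if_neg hp]
  refine NC_hom (W := cfg z U ω) (fun p => if p ∈ cfg z U ω' then p else (p.1, true)) ?_ ?_ hF
  · intro p hp
    by_cases hp' : p ∈ cfg z U ω'
    · simp only [if_pos hp']
      exact hp'
    · simp only [if_neg hp']
      rcases hp with ⟨i, hi, h1 | h2⟩ | hU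
      · rcases h1 with ⟨h1, h1b⟩
        have hle : ω i ≤ ω' i := hω i
        have hne : ω' i ≠ 1 := fun he => hp' (Or.inl ⟨i, hi, Or.inl ⟨he, h1b⟩⟩)
        have h2 : ω' i = 2 := by
          rw [h1] at hle
          revert hle hne
          generalize ω' i = y
          revert y
          decide
        exact Or.inl ⟨i, hi, Or.inr ⟨h2, rfl⟩⟩
      · rcases h2 with ⟨h2, h2b⟩
        have hle : ω i ≤ ω' i := hω i
        have h3 : ω' i = 2 := by
          rw [h2] at hle
          revert hle
          generalize ω' i = y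
          revert y
          decide
        exact absurd (Or.inl ⟨i, hi, Or.inr ⟨h3, h2b⟩⟩) hp'
      · exact absurd (Or.inr hU) hp'
  · intro p _ q _ hpq
    have h1 := hmk p
    have h2 := hmk q
    unfold adjM at hpq ⊢
    simp only [hfst]
    refine lt_of_lt_of_le hpq ?_
    exact add_le_add (add_le_add (le_refl a) h1) h2

end Pool.Agent.Helper28.AN
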