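import Mathlib
import Pool.Agent.Helper28.AN.Defs
import Pool.Agent.Helper28.AN.St.L1
import Pool.Agent.Helper97.BG.St.G3

/-!
Project AN (MP_8410f8_pr), piece L2.
-/

open MeasureTheory Set Filter Topology
open scoped ENNReal

namespace Pool.Agent.Helper28.AN

open Pool.Agent.Helper97.BG

/-- The state which is `1` on `S`, `0` on `B \ S` and `ω` outside `B`. -/
private def anl2_c {N : ℕ} (B S : Finset (Fin N)) (ω : Om N) : Om N :=
  fun l => if l ∈ S then 1 else if l ∈ B then 0 else ω l

private theorem anl2_le_two (x : Fin 3) : x ≤ 2 := by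
  fin_cases x <;> decide

private theorem anl2_zero_le (x : Fin 3) : (0 : Fin 3) ≤ x := Fin.zero_le x

/-- Step (1): lowering all cells of `B` from `2` to `1`. -/
private theorem anl2_lower {N : ℕ} (F : Om N → Prop) (B : Finset (Fin N)) (ω : Om N)
    (hmono : ∀ ω₁ ω₂ : Om N, ω₁ ≤ ω₂ → F ω₁ → F ω₂)
    (hNP : ∀ j ∈ B, ∀ ω' : Om N, (∀ l, l ∉ B → ω' l = ω l) →
      F (Function.update ω' j 2) → F (Function.update ω' j 1))
    {i : Fin N} (hi : i ∈ B) (h1 : F (Function.update ω i 1)) : F (anl2_c B B ω) := by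
  have key : ∀ T : Finset (Fin N), T ⊆ B →
      F (fun l => if l ∈ T then 1 else if l ∈ B then 2 else ω l) := by
    intro T
    induction T using Finset.induction_on with
    | empty =>
      intro _
      refine hmono _ _ ?_ h1
      intro l
      by_cases hl : l = i
      · subst hl
        simp [hi]
      · rw [Function.update_of_ne hl]
        by_cases hB : l ∈ B
        · simpa [hB] using anl2_le_two (ω l)
        · simp [hB]
    | insert j T hj ih =>
      intro hT
      have hjB : j ∈ B := hT (Finset.mem_insert_self j T)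
      have hT' : T ⊆ B := fun x hx => hT (Finset.mem_insert_of_mem hx)
      have h2 := ih hT'
      have e2 : Function.update (fun l => if l ∈ T then (1 : Fin 3) else if l ∈ B then 2 else ω l) j 2
          = (fun l => if l ∈ T then 1 else if l ∈ B then 2 else ω l) := by
        funext l
        by_cases hl : l = j
        · subst hl
          simp [hj, hjB]
        · rw [Function.update_of_ne hl]
      have e1 : Function.update (fun l => if l ∈ T then (1 : Fin 3) else if l ∈ B then 2 else ω l) j 1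
          = (fun l => if l ∈ insert j T then 1 else if l ∈ B then 2 else ω l) := by
        funext l
        by_cases hl : l = j
        · subst hl
          simp
        · rw [Function.update_of_ne hl]
          simp [Finset.mem_insert, hl]
      rw [← e1]
      refine hNP j hjB _ ?_ ?_
      · intro l hl
        have : l ∉ T := fun hx => hl (hT' hx)
        simp [this, hl]
      · rw [e2]; exact h2
  have h3 := key B (Finset.Subset.refl B)
  have e : (fun l => if l ∈ B then (1 : Fin 3) else if l ∈ B then 2 else ω l) = anl2_c B B ω := by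
    funext l
    by_cases hl : l ∈ B <;> simp [anl2_c, hl]
  rw [← e]
  exact h3

variable {d N k : ℕ} {a h : ℝ}

private theorem anl2_norm (u : Sph d) : ‖(u : V d)‖ = 1 := by simp

/-- Two close points are not adjacent. -/
private theorem anl2_far {u v : Sph d} {s : ℝ} (huv : ‖(u : V d) - v‖ ≤ s) :
    2 - s ≤ ‖(u : V d) + v‖ := by
  have e : (2 : ℝ) • (u : V d) = ((u : V d) + v) + ((u : V d) - v) := by
    rw [two_smul]; abel
  have h1 : ‖(2 : ℝ) • (u : V d)‖ ≤ ‖(u : V d) + v‖ + ‖(u : V d) - v‖ := by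
    rw [e]; exact norm_add_le _ _
  rw [norm_smul, anl2_norm] at h1
  norm_num at h1
  linarith

private theorem anl2_shift {u v w : Sph d} {s t : ℝ} (huv : ‖(u : V d) - v‖ ≤ s)
    (hvw : ‖(v : V d) + w‖ < t) : ‖(u : V d) + w‖ < s + t := by
  have e : (u : V d) + w = ((u : V d) - v) + ((v : V d) + w) := by abel
  rw [e]
  exact lt_of_le_of_lt (norm_add_le _ _) (by linarith)

/-- Step (2), first part: delete `j'` using a neighbour `j`. -/
private theorem anl2_del (ha1 : a ≤ 1 / 100) (hha : 2 * h ≤ a) (hh : 0 ≤ h)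
    (z : Fin N → Sph d) (U : Set (Sph d)) (B : Finset (Fin N)) (ω : Om N)
    (hNP : ∀ j ∈ B, ∀ ω' : Om N, (∀ l, l ∉ B → ω' l = ω l) →
      FF a h k z U (Function.update ω' j 2) → FF a h k z U (Function.update ω' j 1))
    {S : Finset (Fin N)} (hS : S ⊆ B) {j j' : Fin N} (hj : j ∈ S) (hj' : j' ∈ S) (hne : j ≠ j')
    (hd : ‖(z j : V d) - z j'‖ ≤ h) (hF : FF a h k z U (anl2_c B S ω)) :
    FF a h k z U (anl2_c B (S.erase j') ω) := by
  classical
  have hjB : j ∈ B := hS hj
  have hj'B : j' ∈ B := hS hj'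
  have step : FF a h k z U (Function.update (anl2_c B (S.erase j') ω) j 2) := by
    refine NC_hom (W := cfg z U (anl2_c B S ω))
      (fun p => if p = (z j', false) ∨ p = (z j, false) then (z j, true) else p) ?_ ?_ hF
    · intro p hp
      by_cases hc : p = (z j', false) ∨ p = (z j, false)
      · simp only [hc, if_true]
        left
        exact ⟨j, rfl, Or.inr ⟨by simp, rfl⟩⟩
      · simp only [hc, if_false]
        rcases hp with ⟨l, hl, hl2⟩ | hp
        · left
          refine ⟨l, hl, ?_⟩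
          rcases hl2 with ⟨h1, h2⟩ | ⟨h1, h2⟩
          · left
            refine ⟨?_, h2⟩
            have hlj : l ≠ j := by
              rintro rfl
              exact hc (Or.inr (Prod.ext hl h2))
            have hlj' : l ≠ j' := by
              rintro rfl
              exact hc (Or.inl (Prod.ext hl h2))
            rw [Function.update_of_ne hlj]
            have h1' := h1
            unfold anl2_c at h1' ⊢
            by_cases hlS : l ∈ S
            · simp [hlS, hlj']
            · have : l ∉ S.erase j' := fun hx => hlS (Finset.mem_of_mem_erase hx)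
              simpa [hlS, this] using h1'
          · right
            refine ⟨?_, h2⟩
            have hlB : l ∉ B := by
              intro hlB
              unfold anl2_c at h1
              by_cases hlS : l ∈ S
              · simp [hlS] at h1
              · simp [hlS, hlB] at h1
            have hlS : l ∉ S := fun hx => hlB (hS hx)
            have hlj : l ≠ j := fun hx => hlB (hx ▸ hjB)
            rw [Function.update_of_ne hlj]
            have : l ∉ S.erase j' := fun hx => hlS (Finset.mem_of_mem_erase hx)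
            have h1' := h1
            unfold anl2_c at h1' ⊢
            simpa [hlS, hlB, this] using h1'
        · right
          exact hp
    · intro p _ q _ hpq
      have hcl : ∀ p : Sph d × Bool, (p = (z j', false) ∨ p = (z j, false)) →
          ‖(z j : V d) - p.1‖ ≤ h ∧ p.2 = false := by
        intro p hp
        rcases hp with rfl | rfl
        · exact ⟨hd, rfl⟩
        · refine ⟨?_, rfl⟩
          simpa using hh
      unfold adjM at hpq ⊢
      by_cases hcp : p = (z j', false) ∨ p = (z j, false)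
      · obtain ⟨hp1, hp2⟩ := hcl p hcp
        by_cases hcq : q = (z j', false) ∨ q = (z j, false)
        · exfalso
          obtain ⟨hq1, hq2⟩ := hcl q hcq
          have h3 : ‖(p.1 : V d) - q.1‖ ≤ 2 * h := by
            have e : (p.1 : V d) - q.1 = -((z j : V d) - p.1) + ((z j : V d) - q.1) := by abel
            rw [e]
            refine (norm_add_le _ _).trans ?_
            rw [norm_neg]; linarith
          have h4 := anl2_far h3
          rw [hp2, hq2] at hpq
          simp only [Bool.false_eq_true, if_false] at hpq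
          linarith
        · simp only [hcp, hcq, if_true, if_false]
          rw [hp2] at hpq
          simp only [Bool.false_eq_true, if_false] at hpq
          have := anl2_shift hp1 hpq
          linarith
      · by_cases hcq : q = (z j', false) ∨ q = (z j, false)
        · obtain ⟨hq1, hq2⟩ := hcl q hcq
          simp only [hcp, hcq, if_true, if_false]
          rw [hq2, add_comm (p.1 : V d)] at hpq
          simp only [Bool.false_eq_true, if_false] at hpq
          have := anl2_shift hq1 hpq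
          rw [add_comm (p.1 : V d)]
          linarith
        · simp only [hcp, hcq, if_false]
          exact hpq
  have h5 := hNP j hjB _ ?_ step
  · have e : Function.update (anl2_c B (S.erase j') ω) j 1 = anl2_c B (S.erase j') ω := by
      funext l
      by_cases hl : l = j
      · subst hl
        simp [anl2_c, hne, hj]
      · rw [Function.update_of_ne hl]
    rw [e] at h5
    exact h5
  · intro l hl
    have hlS : l ∉ S.erase j' := fun hx => hl (hS (Finset.mem_of_mem_erase hx))
    simp only [anl2_c, hlS, hl, if_false]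

/-- Step (2), second part: delete `j'` using a point of `U`. -/
private theorem anl2_delU (ha1 : a ≤ 1 / 100)
    (z : Fin N → Sph d) (U : Set (Sph d)) (B : Finset (Fin N)) (ω : Om N)
    {S : Finset (Fin N)} {j' : Fin N} {u : Sph d} (hu : u ∈ U)
    (hd : ‖(u : V d) - z j'‖ ≤ h) (hF : FF a h k z U (anl2_c B S ω)) :
    FF a h k z U (anl2_c B (S.erase j') ω) := by
  classical
  refine NC_hom (W := cfg z U (anl2_c B S ω))
    (fun p => if p = (z j', false) then (u, true) else p) ?_ ?_ hF
  · intro p hp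
    by_cases hc : p = (z j', false)
    · simp only [hc, if_true]
      right
      exact ⟨hu, rfl⟩
    · simp only [hc, if_false]
      rcases hp with ⟨l, hl, hl2⟩ | hp
      · left
        refine ⟨l, hl, ?_⟩
        rcases hl2 with ⟨h1, h2⟩ | ⟨h1, h2⟩
        · left
          refine ⟨?_, h2⟩
          have hlj' : l ≠ j' := by
            rintro rfl
            exact hc (Prod.ext hl h2)
          have h1' := h1
          unfold anl2_c at h1' ⊢
          by_cases hlS : l ∈ S
          · simp [hlS, hlj']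
          · have : l ∉ S.erase j' := fun hx => hlS (Finset.mem_of_mem_erase hx)
            simpa [hlS, this] using h1'
        · right
          refine ⟨?_, h2⟩
          have hlS : l ∉ S := by
            intro hlS
            simp [anl2_c, hlS] at h1
          have : l ∉ S.erase j' := fun hx => hlS (Finset.mem_of_mem_erase hx)
          have h1' := h1
          unfold anl2_c at h1' ⊢
          simpa [hlS, this] using h1'
      · right
        exact hp
  · intro p _ q _ hpq
    unfold adjM at hpq ⊢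
    by_cases hcp : p = (z j', false)
    · by_cases hcq : q = (z j', false)
      · exfalso
        rw [hcp, hcq] at hpq
        simp only [Bool.false_eq_true, if_false] at hpq
        have h4 : 2 - 0 ≤ ‖(z j' : V d) + z j'‖ := anl2_far (by simp)
        linarith
      · simp only [hcp, hcq, if_true, if_false]
        rw [hcp] at hpq
        simp only [Bool.false_eq_true, if_false] at hpq
        have := anl2_shift hd hpq
        linarith
    · by_cases hcq : q = (z j', false)
      · simp only [hcp, hcq, if_true, if_false]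
        rw [hcq, add_comm (p.1 : V d)] at hpq
        simp only [Bool.false_eq_true, if_false] at hpq
        have := anl2_shift hd hpq
        rw [add_comm (p.1 : V d)]
        linarith
      · simp only [hcp, hcq, if_false]
        exact hpq

/-- The geometric step of (4). -/
private theorem anl2_geo {ρ : ℝ} (ha : 0 < a) (ha1 : a ≤ 1 / 100) (hρ : 0 < ρ)
    (hcurv : 128 * a ^ 2 ≤ ρ) {v q : Sph d} (hD : ρ ≤ ‖(v : V d) - q‖)
    (hD8 : ‖(v : V d) - q‖ < 8 * a) :
    ∃ y : Sph d, ‖(y : V d) - v‖ ≤ 2 * ρ ∧ ‖(y : V d) - q‖ ≤ ‖(v : V d) - q‖ - ρ := by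
  obtain ⟨D, hDD⟩ : ∃ D : ℝ, D = ‖(v : V d) - q‖ := ⟨_, rfl⟩
  rw [← hDD] at hD hD8 ⊢
  by_cases hc : D < 3 / 2 * ρ
  · refine ⟨q, ?_, ?_⟩
    · rw [norm_sub_rev, ← hDD]; linarith
    · rw [sub_self, norm_zero]; linarith
  · have hc' : 3 / 2 * ρ ≤ D := not_lt.1 hc
    have hD0 : 0 < D := lt_of_lt_of_le hρ hD
    have hD1 : ‖(v : V d) - q‖ ≤ 1 := by rw [← hDD]; linarith
    have ht0 : 0 ≤ 3 * ρ / (2 * D) := by positivity
    have ht1 : 3 * ρ / (2 * D) ≤ 1 := by
      rw [div_le_one (by positivity)]; linarith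
    obtain ⟨y, hy1, hy2⟩ := exists_between v q hD1 ht0 ht1
    rw [← hDD] at hy1 hy2
    have e1 : 3 * ρ / (2 * D) * D = 3 / 2 * ρ := by field_simp
    have hsq : D ^ 2 / 4 ≤ ρ / 8 := by nlinarith
    refine ⟨y, ?_, ?_⟩
    · rw [e1] at hy1; linarith
    · have e2 : (1 - 3 * ρ / (2 * D)) * D = D - 3 / 2 * ρ := by rw [sub_mul, e1, one_mul]
      rw [e2] at hy2; linarith

private theorem anl2_nrm_le {x u v : Sph d} : nrm x v ≤ nrm u v + ‖(x : V d) - u‖ := by
  unfold nrm
  have h1 : ‖(v : V d) - x‖ ≤ ‖(v : V d) - u‖ + ‖(x : V d) - u‖ := by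
    have e : (v : V d) - x = ((v : V d) - u) - ((x : V d) - u) := by abel
    rw [e]; exact norm_sub_le _ _
  have h2 : ‖(v : V d) + x‖ ≤ ‖(v : V d) + u‖ + ‖(x : V d) - u‖ := by
    have e : (v : V d) + x = ((v : V d) + u) + ((x : V d) - u) := by abel
    rw [e]; exact norm_add_le _ _
  rcases le_total ‖(v : V d) - u‖ ‖(v : V d) + u‖ with hl | hl
  · rw [min_eq_left hl]
    exact (min_le_left _ _).trans h1
  · rw [min_eq_right hl]
    exact (min_le_right _ _).trans h2

/-- Steps (3), (4): a set `S` such that all its elements are close to `q` or `-q`. -/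
private theorem anl2_min {ρ : ℝ} (ha : 0 < a) (ha1 : a ≤ 1 / 100) (hha : 2 * h ≤ a)
    (hρ : 0 < ρ) (hρh : 4 * ρ ≤ h) (hcurv : 128 * a ^ 2 ≤ ρ)
    (z : Fin N → Sph d) (U : Set (Sph d))
    (hcov : ∀ x : Sph d, (∃ u ∈ U, ‖(x : V d) - u‖ < ρ) ∨ ∃ i, ‖(x : V d) - z i‖ < ρ)
    (q : Sph d) {r : ℝ} (hr : r ≤ 8 * a)
    (B : Finset (Fin N)) (hB : ∀ l, l ∈ B ↔ nrm q (z l) < r) (ω : Om N)
    (hNP : ∀ j ∈ B, ∀ ω' : Om N, (∀ l, l ∉ B → ω' l = ω l) →
      FF a h k z U (Function.update ω' j 2) → FF a h k z U (Function.update ω' j 1))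
    (hF : FF a h k z U (anl2_c B B ω)) :
    ∃ S ⊆ B, FF a h k z U (anl2_c B S ω) ∧ (∀ l ∈ S, nrm q (z l) < ρ) ∧
      (∀ l ∈ S, ∀ u ∈ U, ¬ ‖(u : V d) - z l‖ ≤ h) := by
  classical
  have hh : 0 ≤ h := by linarith
  let G : Finset (Finset (Fin N)) := B.powerset.filter fun S => FF a h k z U (anl2_c B S ω)
  have hG : ∀ S, S ∈ G ↔ S ⊆ B ∧ FF a h k z U (anl2_c B S ω) := by
    intro S; simp [G, Finset.mem_filter, Finset.mem_powerset]
  have hGne : G.Nonempty := ⟨B, (hG B).2 ⟨Finset.Subset.refl B, hF⟩⟩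
  obtain ⟨S₀, hS₀, hmin₀⟩ := Finset.exists_min_image G (fun S => S.card) hGne
  let G' := G.filter fun S => S.card = S₀.card
  have hG'ne : G'.Nonempty := ⟨S₀, Finset.mem_filter.2 ⟨hS₀, rfl⟩⟩
  obtain ⟨S, hS', hmin⟩ := Finset.exists_min_image G' (fun S => ∑ l ∈ S, nrm q (z l)) hG'ne
  obtain ⟨hSG, hcard⟩ := Finset.mem_filter.1 hS'
  obtain ⟨hSB, hSF⟩ := (hG S).1 hSG
  -- nothing can be deleted
  have hnodel : ∀ l ∈ S, ¬ FF a h k z U (anl2_c B (S.erase l) ω) := by
    intro l hl hcon
    have h1 := hmin₀ (S.erase l) ((hG _).2 ⟨fun x hx => hSB (Finset.mem_of_mem_erase hx), hcon⟩)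
    have h2 := Finset.card_erase_lt_of_mem hl
    rw [hcard] at h2
    exact absurd h1 (by simpa using h2)
  have hU' : ∀ l ∈ S, ∀ u ∈ U, ¬ ‖(u : V d) - z l‖ ≤ h := by
    intro l hl u hu hcon
    exact hnodel l hl (anl2_delU ha1 z U B ω hu hcon hSF)
  refine ⟨S, hSB, hSF, ?_, hU'⟩
  intro l hl
  by_contra hcon
  have hρD : ρ ≤ nrm q (z l) := not_lt.1 hcon
  have hDr : nrm q (z l) < r := (hB l).1 (hSB hl)
  -- the point `q'`
  obtain ⟨q', hq'1, hq'2⟩ : ∃ q' : Sph d, nrm q (z l) = ‖(z l : V d) - q'‖ ∧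
      ∀ v : Sph d, nrm q v ≤ ‖(v : V d) - q'‖ := by
    rcases le_total ‖(z l : V d) - q‖ ‖(z l : V d) + q‖ with hc | hc
    · refine ⟨q, ?_, fun v => min_le_left _ _⟩
      unfold nrm; rw [min_eq_left hc]
    · refine ⟨-q, ?_, fun v => ?_⟩
      · unfold nrm; rw [min_eq_right hc]; simp [sub_neg_eq_add]
      · refine (min_le_right _ _).trans (le_of_eq ?_)
        simp [sub_neg_eq_add]
  rw [hq'1] at hρD hDr
  obtain ⟨y, hy1, hy2⟩ := anl2_geo ha ha1 hρ hcurv hρD (lt_of_lt_of_le hDr hr)
  rcases hcov y with ⟨u, hu, hyu⟩ | ⟨m, hm⟩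
  · refine hU' l hl u hu ?_
    have e : (u : V d) - z l = -((y : V d) - u) + ((y : V d) - z l) := by abel
    rw [e]
    refine (norm_add_le _ _).trans ?_
    rw [norm_neg]; linarith
  · have hml : ‖(z m : V d) - z l‖ ≤ h := by
      have e : (z m : V d) - z l = -((y : V d) - z m) + ((y : V d) - z l) := by abel
      rw [e]
      refine (norm_add_le _ _).trans ?_
      rw [norm_neg]; linarith
    have hmq : nrm q (z m) < nrm q (z l) := by
      refine lt_of_le_of_lt (hq'2 (z m)) ?_
      rw [hq'1]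
      have e : (z m : V d) - q' = -((y : V d) - z m) + ((y : V d) - q') := by abel
      rw [e]
      refine lt_of_le_of_lt (norm_add_le _ _) ?_
      rw [norm_neg]; linarith
    have hmB : m ∈ B := (hB m).2 (hmq.trans ((hB l).1 (hSB hl)))
    have hmne : m ≠ l := by
      rintro rfl
      exact lt_irrefl _ hmq
    by_cases hmS : m ∈ S
    · exact hnodel l hl (anl2_del ha1 hha hh z U B ω hNP hSB hmS hl hmne hml hSF)
    · -- move
      have hF1 : FF a h k z U (anl2_c B (insert m S) ω) := by
        refine FF_mono hh z U ?_ hSF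
        intro t
        unfold anl2_c
        by_cases ht : t ∈ S
        · simp [ht]
        · by_cases htm : t = m
          · subst htm
            simp [ht, hmB]
          · simp [ht, htm]
      have hsub : insert m S ⊆ B := Finset.insert_subset hmB hSB
      have hF2 := anl2_del ha1 hha hh z U B ω hNP hsub (Finset.mem_insert_self m S)
        (Finset.mem_insert_of_mem hl) hmne hml hF1
      have hsub2 : (insert m S).erase l ⊆ B := fun x hx => hsub (Finset.mem_of_mem_erase hx)
      have hcard2 : ((insert m S).erase l).card = S.card := by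
        rw [Finset.card_erase_of_mem (Finset.mem_insert_of_mem hl),
          Finset.card_insert_of_notMem hmS]
        simp
      have h5 := hmin ((insert m S).erase l)
        (Finset.mem_filter.2 ⟨(hG _).2 ⟨hsub2, hF2⟩, by rw [hcard2, hcard]⟩)
      have h6 : ∑ t ∈ (insert m S).erase l, nrm q (z t) + nrm q (z l)
          = ∑ t ∈ insert m S, nrm q (z t) :=
        Finset.sum_erase_add _ _ (Finset.mem_insert_of_mem hl)
      rw [Finset.sum_insert hmS] at h6
      linarith

/-- Steps (5), (6). -/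
private theorem anl2_caseA {ρ : ℝ} (hk : 2 ≤ k) (ha : 0 < a) (ha1 : a ≤ 1 / 100)
    (hha : 2 * h ≤ a) (hρ : 0 < ρ) (hρh : 4 * ρ ≤ h)
    (z : Fin N → Sph d) (U : Set (Sph d)) (hU : ∀ u ∈ U, -u ∈ U) (x : Sph d)
    (hx : ∀ u ∈ U, ¬ ‖(x : V d) - u‖ < 4 * a)
    (B : Finset (Fin N)) (hB : ∀ l, l ∈ B ↔ nrm x (z l) < 4 * a) (ω : Om N)
    {S : Finset (Fin N)} (hSB : S ⊆ B) (hS : ∀ l ∈ S, nrm x (z l) < ρ)
    (hF : FF a h k z U (anl2_c B S ω)) : FF a h k z U (anl2_c B ∅ ω) := by
  classical
  rintro ⟨c, hc⟩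
  apply hF
  have hk0 : 0 < k := by omega
  have hk1 : 1 < k := by omega
  refine ⟨fun p => if p.2 = false ∧ ‖(p.1 : V d) - x‖ < ρ ∧ (∃ l ∈ S, p.1 = z l) then ⟨0, hk0⟩
    else if p.2 = false ∧ ‖(p.1 : V d) + x‖ < ρ ∧ (∃ l ∈ S, p.1 = z l) then ⟨1, hk1⟩
    else c p, ?_⟩
  -- a vertex adjacent to a vertex close to `x` or `-x` is of this kind
  have hnbr : ∀ x' : Sph d, (x' = x ∨ x' = -x) → ∀ p q : Sph d × Bool,
      p.2 = false → ‖(p.1 : V d) - x'‖ < ρ → q ∈ cfg z U (anl2_c B S ω) → adjM a h p q →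
      q.2 = false ∧ ‖(q.1 : V d) + x'‖ < ρ ∧ ∃ l ∈ S, q.1 = z l := by
    intro x' hx' p q hp2 hp hq hadj
    unfold adjM at hadj
    rw [hp2] at hadj
    simp only [Bool.false_eq_true, if_false] at hadj
    have hqh : (if q.2 = true then h else 0) ≤ h := by
      split_ifs
      · exact le_rfl
      · linarith
    have h1 : ‖(x' : V d) + q.1‖ < 4 * a := by
      have h2 : ‖(x' : V d) - p.1‖ ≤ ρ := by rw [norm_sub_rev]; exact hp.le
      have := anl2_shift h2 hadj
      linarith
    have h1' : nrm x q.1 < 4 * a := by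
      unfold nrm
      rcases hx' with rfl | rfl
      · refine lt_of_le_of_lt (min_le_right _ _) ?_
        rw [add_comm (q.1 : V d)]; exact h1
      · refine lt_of_le_of_lt (min_le_left _ _) ?_
        have e : (q.1 : V d) - x = ((-x : Sph d) : V d) + q.1 := by
          simp; abel
        rw [e]; exact h1
    rcases hq with ⟨l, hl, hl2⟩ | ⟨hq1, hq2⟩
    · have hlB : l ∈ B := by rw [hB, ← hl]; exact h1'
      have hlS : l ∈ S := by
        by_contra hlS
        rcases hl2 with ⟨h3, _⟩ | ⟨h3, _⟩ <;> simp [anl2_c, hlS, hlB] at h3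
      have hq2 : q.2 = false := by
        rcases hl2 with ⟨_, h3⟩ | ⟨h3, _⟩
        · exact h3
        · simp [anl2_c, hlS] at h3
      refine ⟨hq2, ?_, l, hlS, hl⟩
      have h4 := hS l hlS
      rw [← hl] at h4
      by_contra h5
      -- then `q.1` is close to `x'`
      have h6 : ‖(q.1 : V d) - x'‖ < ρ := by
        unfold nrm at h4
        rcases min_lt_iff.1 h4 with h7 | h7
        · rcases hx' with rfl | rfl
          · exact h7
          · exfalso
            apply h5
            have e : (q.1 : V d) + ((-x : Sph d) : V d) = (q.1 : V d) - x := by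
              simp [sub_eq_add_neg]
            rw [e]; exact h7
        · rcases hx' with rfl | rfl
          · exact absurd h7 h5
          · have e : (q.1 : V d) - ((-x : Sph d) : V d) = (q.1 : V d) + x := by
              simp [sub_neg_eq_add]
            rw [e]; exact h7
      have h8 : 2 - ρ ≤ ‖(q.1 : V d) + x'‖ := anl2_far h6.le
      rw [add_comm (q.1 : V d)] at h8
      linarith
    · exfalso
      rcases hx' with rfl | rfl
      · refine hx (-q.1) (hU _ hq1) ?_
        have e : (x' : V d) - ((-q.1 : Sph d) : V d) = (x' : V d) + q.1 := by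
          simp [sub_neg_eq_add]
        rw [e]; exact h1
      · refine hx q.1 hq1 ?_
        have e : (x : V d) - (q.1 : V d) = -(((-x : Sph d) : V d) + q.1) := by
          simp; abel
        rw [e, norm_neg]; exact h1
  have hneg : ∀ p : Sph d, ‖(p : V d) - ((-x : Sph d) : V d)‖ = ‖(p : V d) + x‖ := by
    intro p; simp [sub_neg_eq_add]
  have hneg' : ∀ p : Sph d, ‖(p : V d) + ((-x : Sph d) : V d)‖ = ‖(p : V d) - x‖ := by
    intro p; simp [sub_eq_add_neg]
  have hexcl : ∀ p : Sph d, ‖(p : V d) - x‖ < ρ → ‖(p : V d) + x‖ < ρ → False := by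
    intro p h1 h2
    have := anl2_far h1.le
    linarith
  -- a vertex of the old configuration
  have hold : ∀ p ∈ cfg z U (anl2_c B S ω),
      ¬ (p.2 = false ∧ ‖(p.1 : V d) - x‖ < ρ ∧ ∃ l ∈ S, p.1 = z l) →
      ¬ (p.2 = false ∧ ‖(p.1 : V d) + x‖ < ρ ∧ ∃ l ∈ S, p.1 = z l) →
      p ∈ cfg z U (anl2_c B ∅ ω) := by
    intro p hp hn1 hn2
    rcases hp with ⟨l, hl, hl2⟩ | hp
    · have hlS : l ∉ S := by
        intro hlS
        have h4 := hS l hlS
        rw [← hl] at h4
        have hp2 : p.2 = false := by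
          rcases hl2 with ⟨_, h3⟩ | ⟨h3, _⟩
          · exact h3
          · simp [anl2_c, hlS] at h3
        unfold nrm at h4
        rcases min_lt_iff.1 h4 with h7 | h7
        · exact hn1 ⟨hp2, h7, l, hlS, hl⟩
        · exact hn2 ⟨hp2, h7, l, hlS, hl⟩
      left
      refine ⟨l, hl, ?_⟩
      simpa [anl2_c, hlS] using hl2
    · right; exact hp
  intro p hp q hq hadj
  have hadj' : adjM a h q p := by
    unfold adjM at hadj ⊢
    rw [add_comm (q.1 : V d)]
    linarith
  by_cases hp1 : p.2 = false ∧ ‖(p.1 : V d) - x‖ < ρ ∧ ∃ l ∈ S, p.1 = z l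
  · have hq1 := hnbr x (Or.inl rfl) p q hp1.1 hp1.2.1 hq hadj
    have hq0 : ¬ (q.2 = false ∧ ‖(q.1 : V d) - x‖ < ρ ∧ ∃ l ∈ S, q.1 = z l) :=
      fun hcon => hexcl _ hcon.2.1 hq1.2.1
    simp only [if_pos hp1, if_neg hq0, if_pos hq1]
    simp
  · by_cases hp2 : p.2 = false ∧ ‖(p.1 : V d) + x‖ < ρ ∧ ∃ l ∈ S, p.1 = z l
    · have hq1 := hnbr (-x) (Or.inr rfl) p q hp2.1 (by rw [hneg]; exact hp2.2.1) hq hadj
      rw [hneg'] at hq1
      simp only [if_neg hp1, if_pos hp2, if_pos hq1]
      simp
    · by_cases hq1 : q.2 = false ∧ ‖(q.1 : V d) - x‖ < ρ ∧ ∃ l ∈ S, q.1 = z l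
      · exfalso
        exact hp2 (hnbr x (Or.inl rfl) q p hq1.1 hq1.2.1 hp hadj')
      · by_cases hq2 : q.2 = false ∧ ‖(q.1 : V d) + x‖ < ρ ∧ ∃ l ∈ S, q.1 = z l
        · exfalso
          have := hnbr (-x) (Or.inr rfl) q p hq2.1 (by rw [hneg]; exact hq2.2.1) hp hadj'
          rw [hneg'] at this
          exact hp1 this
        · simp only [if_neg hp1, if_neg hp2, if_neg hq1, if_neg hq2]
          exact hc p (hold p hp hp1 hp2) q (hold q hq hq1 hq2) hadj

/-- Suppose not: (NP) for all `ω'` that agree with `ω` at all `l` with `16 a ≤ nrm (z i) (z l)` and all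
`j` with `nrm (z i) (z j) < 16 a`: `FF (update ω' j 2) → FF (update ω' j 1)`. Write `x = z i`.
Targets: Case B: there is `u ∈ U` with `‖x - u‖ < 4 a`; put `q = u`, `r = 8 a`. Case A: no such `u`;
put `q = x`, `r = 4 a`. `B = {l | nrm q (z l) < r}` (all of them have `nrm x (z l) < 16 a`). For a
finset `S ⊆ B` let `c S : Om N` be `1` on `S`, `0` on `B \ S` and `ω` outside `B`.
(1) `FF (c B)`: start from `FF (update ω i 1)`, raise all states in `B` to `2` (`FF_mono`), then lower
them to `1` one after the other with (NP).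
(2) Deleting: if `j ≠ j'` are in `S` and `‖z j - z j'‖ ≤ h` then `FF (c S) → FF (c (S \ {j'}))`: by
`NC_hom` with `(z j', false) ↦ (z j, true)`, `(z j, false) ↦ (z j, true)`, identity otherwise, one gets
`FF (update (c (S \ {j'})) j 2)`, then (NP). (If `‖z j' + q‖ < a + ..` then
`‖z j + q‖ < a + h + ..`. Two points at distance `≤ h` are never adjacent: `‖u + v‖ ≥ 2 - h`.)
If `j' ∈ S`, `u ∈ U` and `‖z j' - u‖ ≤ h`: `FF (c S) → FF (c (S \ {j'}))` directly
(`(z j', false) ↦ (u, true)`).
(3) Moving: if `j ∈ S`, `l ∈ B \ S`, `‖z j - z l‖ ≤ h` then `FF (c S) → FF (c ((S \ {j}) ∪ {l}))`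
(add `l`, `FF_mono`, then delete `j`).
(4) Take `S ⊆ B` with `FF (c S)` such that `card S` is minimal and, among these, `∑ l ∈ S, nrm q (z l)` is
minimal. If `l ∈ S`, `D = nrm q (z l)`, say `D = ‖z l - q'‖` with `q' = q` or `q' = -q`, and `D ≥ ρ`, then
there is `y` on the sphere with `‖y - z l‖ ≤ 2 ρ` and `‖y - q'‖ ≤ D - ρ` (`y = q'` if `D < 3/2 ρ`, else
`exists_between` of `Pool.Agent.Helper97.BG` with `t = 3 ρ / (2 D)`; `D ^ 2 / 4 ≤ 16 a ^ 2 ≤ ρ / 2`). By
`hcov` either some `u ∈ U` has `‖y - u‖ < ρ`, so `‖z l - u‖ ≤ 3 ρ ≤ h` and `l` can be deleted, or some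
`z m` has `‖y - z m‖ < ρ`, so `‖z m - z l‖ ≤ 3 ρ ≤ h` and `‖z m - q'‖ < D`, so `m ∈ B`, `m ≠ l`: if
`m ∈ S` delete `l`, else move `l` to `m`; both contradict the minimality. Hence all `l ∈ S` satisfy
`nrm q (z l) < ρ`. In case B then `l` can be deleted (`q`, `-q ∈ U`), so `S = ∅`. In case A two
different elements of `S` on the same side (`‖z l - q‖ < ρ` for both, or `‖z l + q‖ < ρ` for both) have
distance `< 2 ρ ≤ h` and one can be deleted; so `S ⊆ {j₁, j₂}` with `‖z j₁ - x‖ < ρ`, `‖z j₂ + x‖ < ρ`.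
(5) In case A, `FF (c S) → FF (c ∅)`: extend a colouring of `cfg (c ∅)` by `0` on `(z j₁, false)` and by
`1` on `(z j₂, false)` (`2 ≤ k`). If `(z j₁, false)` is adjacent to `(v, b)` in `cfg (c S)` then
`‖x + v‖ < a + h + ρ < 4 a`, so `v ∉ U` (otherwise `-v ∈ U` is at distance `< 4 a` from `x`) and if
`v = z l` then `l ∈ B`, so `l ∈ S`; the same for `j₂`.
(6) `c ∅ ≤ update ω i 0` (`i ∈ B`), so `FF (update ω i 0)`: contradiction. -/
theorem local_lemma {d N k : ℕ} {a h ρ : ℝ} (hk : 2 ≤ k) (ha : 0 < a) (ha1 : a ≤ 1 / 100)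
    (hha : 2 * h ≤ a) (hρ : 0 < ρ) (hρh : 4 * ρ ≤ h) (hcurv : 128 * a ^ 2 ≤ ρ)
    (z : Fin N → Sph d) (U : Set (Sph d)) (hU : ∀ u ∈ U, -u ∈ U)
    (hcov : ∀ x : Sph d, (∃ u ∈ U, ‖(x : V d) - u‖ < ρ) ∨ ∃ i, ‖(x : V d) - z i‖ < ρ)
    (i : Fin N) (ω : Om N) (h1 : Piv (FF a h k z U) 0 1 i ω) :
    ∃ (j : Fin N) (ω' : Om N), nrm (z i) (z j) < 16 * a ∧
      (∀ l, 16 * a ≤ nrm (z i) (z l) → ω' l = ω l) ∧ Piv (FF a h k z U) 1 2 j ω' := by
  classical
  by_contra hno
  have hh : 0 ≤ h := by linarith
  have hh0 : 0 < h := by linarith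
  have hNP0 : ∀ (j : Fin N) (ω' : Om N), nrm (z i) (z j) < 16 * a →
      (∀ l, 16 * a ≤ nrm (z i) (z l) → ω' l = ω l) →
      FF a h k z U (Function.update ω' j 2) → FF a h k z U (Function.update ω' j 1) := by
    intro j ω' h2 h3 h4
    by_contra h5
    exact hno ⟨j, ω', h2, h3, h4, h5⟩
  obtain ⟨h10, h11⟩ := h1
  apply h11
  -- the end of the proof
  have hend : ∀ B : Finset (Fin N), i ∈ B → FF a h k z U (anl2_c B ∅ ω) →
      FF a h k z U (Function.update ω i 0) := by
    intro B hiB hF
    refine FF_mono hh z U ?_ hF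
    intro l
    by_cases hl : l = i
    · subst hl
      simp [anl2_c, hiB]
    · rw [Function.update_of_ne hl]
      unfold anl2_c
      by_cases hlB : l ∈ B
      · simp [hlB]
      · simp [hlB]
  have hself : nrm (z i) (z i) = 0 := by
    unfold nrm
    rw [sub_self, norm_zero]
    exact min_eq_left (norm_nonneg _)
  by_cases hcase : ∃ u ∈ U, ‖(z i : V d) - u‖ < 4 * a
  · obtain ⟨u, hu, hxu⟩ := hcase
    let B : Finset (Fin N) := Finset.univ.filter fun l => nrm u (z l) < 8 * a
    have hB : ∀ l, l ∈ B ↔ nrm u (z l) < 8 * a := by intro l; simp [B]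
    have hiB : i ∈ B := by
      rw [hB]
      refine lt_of_le_of_lt (min_le_left _ _) ?_
      linarith
    have hsub : ∀ l ∈ B, nrm (z i) (z l) < 16 * a := by
      intro l hl
      have h3 := (hB l).1 hl
      have h4 : nrm (z i) (z l) ≤ nrm u (z l) + ‖(z i : V d) - u‖ := anl2_nrm_le
      linarith
    have hNP : ∀ j ∈ B, ∀ ω' : Om N, (∀ l, l ∉ B → ω' l = ω l) →
        FF a h k z U (Function.update ω' j 2) → FF a h k z U (Function.update ω' j 1) := by
      intro j hj ω' hω'
      refine hNP0 j ω' (hsub j hj) ?_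
      intro l hl
      exact hω' l fun hlB => absurd (hsub l hlB) (not_lt.2 hl)
    have hFB := anl2_lower (FF a h k z U) B ω (fun ω₁ ω₂ => FF_mono hh z U) hNP hiB h10
    obtain ⟨S, hSB, hSF, hSρ, hSU⟩ := anl2_min ha ha1 hha hρ hρh hcurv z U hcov u le_rfl B hB ω
      hNP hFB
    have hS0 : S = ∅ := by
      rw [Finset.eq_empty_iff_forall_notMem]
      intro l hl
      have h4 := hSρ l hl
      unfold nrm at h4
      rcases min_lt_iff.1 h4 with h7 | h7
      · refine hSU l hl u hu ?_
        rw [norm_sub_rev]; linarith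
      · refine hSU l hl (-u) (hU u hu) ?_
        have e : ((-u : Sph d) : V d) - z l = -((z l : V d) + u) := by
          simp; abel
        rw [e, norm_neg]; linarith
    rw [hS0] at hSF
    exact hend B hiB hSF
  · let B : Finset (Fin N) := Finset.univ.filter fun l => nrm (z i) (z l) < 4 * a
    have hB : ∀ l, l ∈ B ↔ nrm (z i) (z l) < 4 * a := by intro l; simp [B]
    have hiB : i ∈ B := by
      rw [hB, hself]; linarith
    have hsub : ∀ l ∈ B, nrm (z i) (z l) < 16 * a := by
      intro l hl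
      have h3 := (hB l).1 hl
      linarith
    have hNP : ∀ j ∈ B, ∀ ω' : Om N, (∀ l, l ∉ B → ω' l = ω l) →
        FF a h k z U (Function.update ω' j 2) → FF a h k z U (Function.update ω' j 1) := by
      intro j hj ω' hω'
      refine hNP0 j ω' (hsub j hj) ?_
      intro l hl
      exact hω' l fun hlB => absurd (hsub l hlB) (not_lt.2 hl)
    have hFB := anl2_lower (FF a h k z U) B ω (fun ω₁ ω₂ => FF_mono hh z U) hNP hiB h10
    obtain ⟨S, hSB, hSF, hSρ, hSU⟩ := anl2_min ha ha1 hha hρ hρh hcurv z U hcov (z i)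
      (by linarith) B hB ω hNP hFB
    have hx : ∀ u ∈ U, ¬ ‖(z i : V d) - u‖ < 4 * a := fun u hu hcon => hcase ⟨u, hu, hcon⟩
    exact hend B hiB (anl2_caseA hk ha ha1 hha hρ hρh z U hU (z i) hx B hB ω hSB hSρ hSF)

end Pool.Agent.Helper28.AN
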