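import Mathlib
import Pool.Agent.Helper28.AN.Defs

/-!
Project AN (MP_8410f8_pr), piece L3.
-/

open MeasureTheory Set Filter Topology
open scoped ENNReal

namespace Pool.Agent.Helper28.AN

open Pool.Agent.Helper97.BG

private theorem anl3_one_nonneg (q : Prop) : 0 ≤ one q := by
  unfold one
  split_ifs <;> norm_num

open Classical in
private theorem anl3_sum_wt {N : ℕ} {w : Fin N → Fin 3 → ℝ} (nbi : Fin N → Prop) (ω' : Om N) :
    ∑ ω : Om N, (if ∀ l, ¬ nbi l → ω' l = ω l then wt w ω else 0) =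
      ∏ l, ∑ c, (if nbi l ∨ ω' l = c then w l c else 0) := by
  rw [Finset.prod_univ_sum, Fintype.piFinset_univ]
  refine Finset.sum_congr rfl fun ω _ => ?_
  by_cases h : ∀ l, ¬ nbi l → ω' l = ω l
  · rw [if_pos h]
    unfold wt
    refine Finset.prod_congr rfl fun l _ => ?_
    rw [if_pos]
    by_cases h1 : nbi l
    · exact Or.inl h1
    · exact Or.inr (h l h1)
  · rw [if_neg h]
    push Not at h
    obtain ⟨l, h1, h2⟩ := h
    rw [Finset.prod_eq_zero (Finset.mem_univ l)]
    rw [if_neg]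
    rintro (h3 | h3)
    · exact h1 h3
    · exact h2 h3

open Classical in
private theorem anl3_bound {N : ℕ} {p : ℝ} (hp : 0 < p) (hp1 : p ≤ 1) {w : Fin N → Fin 3 → ℝ}
    (hw : IsW p w) (nbi : Fin N → Prop) (b : ℕ) (hb : {j | nbi j}.ncard ≤ b) (ω' : Om N) :
    ∑ ω : Om N, (if ∀ l, ¬ nbi l → ω' l = ω l then wt w ω else 0) ≤
      (1 / p) ^ b * wt w ω' := by
  have hw0 : ∀ i c, 0 ≤ w i c := fun i c => hp.le.trans (hw.1 i c)
  rw [anl3_sum_wt]
  have h1p : 1 ≤ 1 / p := by
    rw [le_div_iff₀ hp]; linarith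
  have hstep : ∏ l, ∑ c, (if nbi l ∨ ω' l = c then w l c else 0) ≤
      ∏ l, ((if nbi l then 1 / p else 1) * w l (ω' l)) := by
    refine Finset.prod_le_prod (fun l _ => ?_) (fun l _ => ?_)
    · refine Finset.sum_nonneg fun c _ => ?_
      split_ifs
      · exact hw0 l c
      · exact le_rfl
    · by_cases h : nbi l
      · simp only [h, true_or, if_true]
        rw [hw.2 l, one_div, inv_mul_eq_div, le_div_iff₀ hp]
        have := hw.1 l (ω' l)
        linarith
      · simp only [h, false_or, if_false, one_mul]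
        rw [Finset.sum_ite_eq]
        simp
  refine hstep.trans ?_
  rw [Finset.prod_mul_distrib]
  have hwt0 : 0 ≤ wt w ω' := Finset.prod_nonneg fun l _ => hw0 l _
  refine mul_le_mul_of_nonneg_right ?_ hwt0
  rw [Finset.prod_ite, Finset.prod_const, Finset.prod_const_one, mul_one]
  refine pow_le_pow_right₀ h1p ?_
  refine le_trans (le_of_eq ?_) hb
  rw [Set.ncard_eq_toFinset_card']
  congr 1
  ext j
  simp

/-- For fixed `i` write `nb i = {l | nb i l}` and `ω ~ ω'` if they agree outside `nb i`. Then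
`Ex (one (Piv F 0 1 i)) ≤ ∑ ω, wt ω ∑ j ∈ nb i, ∑ ω' ~ ω, one (Piv F 1 2 j ω')
 = ∑ j ∈ nb i, ∑ ω', one (Piv F 1 2 j ω') ∑ ω ~ ω', wt ω`, and
`∑ ω ~ ω', wt ω = ∏ l ∉ nb i, w l (ω' l) ≤ (1 / p) ^ b * wt ω'` (sum the weights of the coordinates in
`nb i` to `1`, e.g. with `Finset.prod_univ_sum` applied to the function that is `w l c` if `l ∈ nb i` or
`c = ω' l`, and `0` otherwise; all weights are at least `p` and `nb i` has at most `b` elements,
`(1/p) ^ card ≤ (1/p) ^ b`). So `A i ≤ (1/p)^b ∑ j ∈ nb i, B j`; sum over `i` and use that every `j`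
is in `nb i` for at most `b` indices `i` (`hsym`, `hb`). -/
theorem infl_of_local {N : ℕ} {p : ℝ} (hp : 0 < p) (hp1 : p ≤ 1) {w : Fin N → Fin 3 → ℝ}
    (hw : IsW p w) (F : Om N → Prop) (nb : Fin N → Fin N → Prop) (hsym : ∀ i j, nb i j → nb j i)
    (b : ℕ) (hb : ∀ i, {j | nb i j}.ncard ≤ b)
    (hloc : ∀ i ω, Piv F 0 1 i ω → ∃ (j : Fin N) (ω' : Om N), nb i j ∧
      (∀ l, ¬ nb i l → ω' l = ω l) ∧ Piv F 1 2 j ω') :
    ∑ i, Ex w (fun ω => one (Piv F 0 1 i ω)) ≤
      b * (1 / p) ^ b * ∑ i, Ex w (fun ω => one (Piv F 1 2 i ω)) := by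
  classical
  have hw0 : ∀ i c, 0 ≤ w i c := fun i c => hp.le.trans (hw.1 i c)
  have hwt0 : ∀ ω : Om N, 0 ≤ wt w ω := fun ω => Finset.prod_nonneg fun l _ => hw0 l _
  set B : Fin N → ℝ := fun j => Ex w (fun ω => one (Piv F 1 2 j ω)) with hB
  have hB0 : ∀ j, 0 ≤ B j := fun j =>
    Finset.sum_nonneg fun ω _ => mul_nonneg (hwt0 ω) (anl3_one_nonneg _)
  have hpb : 0 ≤ (1 / p) ^ b := by positivity
  have hA : ∀ i, Ex w (fun ω => one (Piv F 0 1 i ω)) ≤
      ∑ j, (if nb i j then (1 / p) ^ b * B j else 0) := by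
    intro i
    have h1 : ∀ ω : Om N, wt w ω * one (Piv F 0 1 i ω) ≤
        ∑ j, ∑ ω' : Om N, (if nb i j then one (Piv F 1 2 j ω') *
          (if ∀ l, ¬ nb i l → ω' l = ω l then wt w ω else 0) else 0) := by
      intro ω
      have hnn : ∀ j (ω' : Om N), 0 ≤ (if nb i j then one (Piv F 1 2 j ω') *
          (if ∀ l, ¬ nb i l → ω' l = ω l then wt w ω else 0) else 0) := by
        intro j ω'
        split_ifs
        · exact mul_nonneg (anl3_one_nonneg _) (hwt0 ω)
        · simp
        · exact le_rfl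
      by_cases hP : Piv F 0 1 i ω
      · obtain ⟨j, ω', hj, hl, hP'⟩ := hloc i ω hP
        have e1 : one (Piv F 0 1 i ω) = 1 := by
          unfold one; rw [if_pos hP]
        have e2 : one (Piv F 1 2 j ω') = 1 := by
          unfold one; rw [if_pos hP']
        rw [e1, mul_one]
        have e3 : wt w ω = (if nb i j then one (Piv F 1 2 j ω') *
          (if ∀ l, ¬ nb i l → ω' l = ω l then wt w ω else 0) else 0) := by
          rw [if_pos hj, if_pos hl, e2, one_mul]
        calc wt w ω = (if nb i j then one (Piv F 1 2 j ω') *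
              (if ∀ l, ¬ nb i l → ω' l = ω l then wt w ω else 0) else 0) := e3
          _ ≤ ∑ ω' : Om N, (if nb i j then one (Piv F 1 2 j ω') *
              (if ∀ l, ¬ nb i l → ω' l = ω l then wt w ω else 0) else 0) :=
            Finset.single_le_sum (f := fun ω' : Om N => (if nb i j then one (Piv F 1 2 j ω') *
              (if ∀ l, ¬ nb i l → ω' l = ω l then wt w ω else 0) else 0))
              (fun ω' _ => hnn j ω') (Finset.mem_univ ω')
          _ ≤ _ :=
            Finset.single_le_sum (f := fun j => ∑ ω' : Om N, (if nb i j then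
              one (Piv F 1 2 j ω') *
              (if ∀ l, ¬ nb i l → ω' l = ω l then wt w ω else 0) else 0))
              (fun j _ => Finset.sum_nonneg fun ω' _ => hnn j ω') (Finset.mem_univ j)
      · have e1 : one (Piv F 0 1 i ω) = 0 := by
          unfold one; rw [if_neg hP]
        rw [e1, mul_zero]
        exact Finset.sum_nonneg fun j _ => Finset.sum_nonneg fun ω' _ => hnn j ω'
    have h2 : Ex w (fun ω => one (Piv F 0 1 i ω)) ≤
        ∑ ω : Om N, ∑ j, ∑ ω' : Om N, (if nb i j then one (Piv F 1 2 j ω') *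
          (if ∀ l, ¬ nb i l → ω' l = ω l then wt w ω else 0) else 0) :=
      Finset.sum_le_sum fun ω _ => h1 ω
    refine h2.trans ?_
    rw [Finset.sum_comm]
    refine Finset.sum_le_sum fun j _ => ?_
    by_cases hj : nb i j
    · simp only [if_pos hj]
      rw [Finset.sum_comm]
      rw [hB]
      unfold Ex
      rw [Finset.mul_sum]
      refine Finset.sum_le_sum fun ω' _ => ?_
      rw [← Finset.mul_sum]
      have h3 := anl3_bound hp hp1 hw (nb i) b (hb i) ω'
      calc one (Piv F 1 2 j ω') * ∑ ω : Om N, (if ∀ l, ¬ nb i l → ω' l = ω l then wt w ω else 0)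
          ≤ one (Piv F 1 2 j ω') * ((1 / p) ^ b * wt w ω') :=
            mul_le_mul_of_nonneg_left h3 (anl3_one_nonneg _)
        _ = (1 / p) ^ b * (wt w ω' * one (Piv F 1 2 j ω')) := by ring
    · simp [hj]
  calc ∑ i, Ex w (fun ω => one (Piv F 0 1 i ω))
      ≤ ∑ i, ∑ j, (if nb i j then (1 / p) ^ b * B j else 0) := Finset.sum_le_sum fun i _ => hA i
    _ = ∑ j, ∑ i, (if nb i j then (1 / p) ^ b * B j else 0) := Finset.sum_comm
    _ ≤ ∑ j, (b : ℝ) * ((1 / p) ^ b * B j) := by
        refine Finset.sum_le_sum fun j _ => ?_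
        rw [← Finset.sum_filter, Finset.sum_const, nsmul_eq_mul]
        refine mul_le_mul_of_nonneg_right ?_ (mul_nonneg hpb (hB0 j))
        have h4 : (Finset.univ.filter fun i => nb i j).card ≤ {i | nb j i}.ncard := by
          rw [Set.ncard_eq_toFinset_card']
          refine Finset.card_le_card ?_
          intro i hi
          rw [Finset.mem_filter] at hi
          rw [Set.mem_toFinset]
          exact hsym i j hi.2
        exact_mod_cast h4.trans (hb j)
    _ = b * (1 / p) ^ b * ∑ i, Ex w (fun ω => one (Piv F 1 2 i ω)) := by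
        rw [Finset.mul_sum]
        refine Finset.sum_congr rfl fun j _ => ?_
        rw [hB]
        ring

end Pool.Agent.Helper28.AN
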