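import Mathlib
import Pool.Agent.Helper28.AN.Defs

/-!
Project AN (MP_8410f8_pr), piece K1: averages on finite product spaces.
-/

open Finset

namespace Pool.Agent.Helper28.AN

variable {N : ℕ} {w : Fin N → Fin 3 → ℝ}

theorem wt_nonneg (hw : ∀ i c, 0 ≤ w i c) (ω : Om N) : 0 ≤ wt w ω :=
  Finset.prod_nonneg fun i _ => hw i _

theorem Ex_add (f g : Om N → ℝ) : Ex w (fun ω => f ω + g ω) = Ex w f + Ex w g := by
  simp only [Ex, mul_add, Finset.sum_add_distrib]

theorem Ex_sub (f g : Om N → ℝ) : Ex w (fun ω => f ω - g ω) = Ex w f - Ex w g := by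
  simp only [Ex, mul_sub, Finset.sum_sub_distrib]

theorem Ex_mul_left (a : ℝ) (f : Om N → ℝ) : Ex w (fun ω => a * f ω) = a * Ex w f := by
  simp only [Ex, Finset.mul_sum]
  refine Finset.sum_congr rfl fun ω _ => by ring

theorem Ex_mul_right (a : ℝ) (f : Om N → ℝ) : Ex w (fun ω => f ω * a) = Ex w f * a := by
  simp only [Ex, Finset.sum_mul]
  refine Finset.sum_congr rfl fun ω _ => by ring

theorem Ex_sum {ι : Type*} (s : Finset ι) (f : ι → Om N → ℝ) :
    Ex w (fun ω => ∑ i ∈ s, f i ω) = ∑ i ∈ s, Ex w (f i) := by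
  simp only [Ex, Finset.mul_sum]
  exact Finset.sum_comm

theorem Ex_mono (hw : ∀ i c, 0 ≤ w i c) {f g : Om N → ℝ} (h : ∀ ω, f ω ≤ g ω) :
    Ex w f ≤ Ex w g :=
  Finset.sum_le_sum fun ω _ => mul_le_mul_of_nonneg_left (h ω) (wt_nonneg hw ω)

theorem Ex_nonneg (hw : ∀ i c, 0 ≤ w i c) {f : Om N → ℝ} (h : ∀ ω, 0 ≤ f ω) : 0 ≤ Ex w f :=
  Finset.sum_nonneg fun ω _ => mul_nonneg (wt_nonneg hw ω) (h ω)

theorem sum_wt (hs : ∀ i, ∑ c, w i c = 1) : ∑ ω : Om N, wt w ω = 1 := by
  have h := Finset.prod_univ_sum (fun _ : Fin N => (Finset.univ : Finset (Fin 3))) w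
  rw [Fintype.piFinset_univ] at h
  simp only [wt]
  rw [← h]
  simp [hs]

theorem Ex_const (hs : ∀ i, ∑ c, w i c = 1) (a : ℝ) : Ex w (fun _ => a) = a := by
  simp only [Ex]
  rw [← Finset.sum_mul, sum_wt hs, one_mul]

theorem wt_update (w : Fin N → Fin 3 → ℝ) (ω : Om N) (i : Fin N) (c : Fin 3) :
    wt w (Function.update ω i c) * w i (ω i) = wt w ω * w i c := by
  classical
  simp only [wt]
  rw [← Finset.mul_prod_erase Finset.univ _ (Finset.mem_univ i),
    ← Finset.mul_prod_erase Finset.univ (fun j => w j (ω j)) (Finset.mem_univ i)]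
  have h : ∏ x ∈ Finset.univ.erase i, w x (Function.update ω i c x) =
      ∏ x ∈ Finset.univ.erase i, w x (ω x) := by
    refine Finset.prod_congr rfl fun j hj => ?_
    rw [Function.update_of_ne (Finset.ne_of_mem_erase hj)]
  rw [h, Function.update_self]
  ring

/-- Exchange the state of the coordinate `i` with an independent copy. -/
theorem sum_swap (w : Fin N → Fin 3 → ℝ) (i : Fin N) (g : Om N → Fin 3 → ℝ) :
    ∑ ω : Om N, ∑ c, wt w ω * w i c * g ω c =
      ∑ ω : Om N, ∑ c, wt w ω * w i c * g (Function.update ω i c) (ω i) := by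
  rw [← Fintype.sum_prod_type', ← Fintype.sum_prod_type']
  refine Finset.sum_bij' (fun p _ => (Function.update p.1 i p.2, p.1 i))
    (fun p _ => (Function.update p.1 i p.2, p.1 i)) ?_ ?_ ?_ ?_ ?_
  · intro p _; exact Finset.mem_univ _
  · intro p _; exact Finset.mem_univ _
  · rintro ⟨ω, c⟩ _
    simp
  · rintro ⟨ω, c⟩ _
    simp
  · rintro ⟨ω, c⟩ _
    simp only [Function.update_self, Function.update_idem, Function.update_eq_self]
    rw [wt_update]

theorem Ex_av (hs : ∀ i, ∑ c, w i c = 1) (i : Fin N) (f : Om N → ℝ) :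
    Ex w (av w i f) = Ex w f := by
  have h := sum_swap w i (fun ω _ => f ω)
  simp only [Ex, av]
  calc ∑ ω : Om N, wt w ω * ∑ c, w i c * f (Function.update ω i c)
      = ∑ ω : Om N, ∑ c, wt w ω * w i c * f (Function.update ω i c) := by
        refine Finset.sum_congr rfl fun ω _ => ?_
        rw [Finset.mul_sum]
        exact Finset.sum_congr rfl fun c _ => by ring
    _ = ∑ ω : Om N, ∑ c, wt w ω * w i c * f ω := h.symm
    _ = ∑ ω : Om N, wt w ω * f ω := by
        refine Finset.sum_congr rfl fun ω _ => ?_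
        have : ∀ c, wt w ω * w i c * f ω = w i c * (wt w ω * f ω) := fun c => by ring
        simp only [this]
        rw [← Finset.sum_mul, hs, one_mul]

/-- `g` does not depend on the coordinate `i`. -/
def Indp (i : Fin N) (g : Om N → ℝ) : Prop := ∀ ω c, g (Function.update ω i c) = g ω

theorem Indp_av (i : Fin N) (f : Om N → ℝ) : Indp i (av w i f) := by
  intro ω c
  simp only [av, Function.update_idem]

theorem Indp_av' {i : Fin N} {f : Om N → ℝ} (j : Fin N) (h : Indp i f) : Indp i (av w j f) := by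
  by_cases hij : i = j
  · subst hij; exact Indp_av i f
  intro ω c
  simp only [av]
  refine Finset.sum_congr rfl fun c' _ => ?_
  rw [Function.update_comm hij, h]

theorem av_mul {i : Fin N} {g : Om N → ℝ} (hg : Indp i g) (f : Om N → ℝ) (ω : Om N) :
    av w i (fun ω => f ω * g ω) ω = av w i f ω * g ω := by
  simp only [av, Finset.sum_mul]
  refine Finset.sum_congr rfl fun c _ => ?_
  rw [hg]
  ring

theorem av_of_indp (hs : ∀ i, ∑ c, w i c = 1) {i : Fin N} {g : Om N → ℝ} (hg : Indp i g) :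
    av w i g = g := by
  funext ω
  simp only [av, hg ω]
  rw [← Finset.sum_mul, hs, one_mul]

theorem Ex_mul_av (hs : ∀ i, ∑ c, w i c = 1) {i : Fin N} {g : Om N → ℝ} (hg : Indp i g)
    (f : Om N → ℝ) : Ex w (fun ω => f ω * g ω) = Ex w (fun ω => av w i f ω * g ω) := by
  rw [← Ex_av hs i]
  congr 1
  funext ω
  exact av_mul hg f ω

theorem av_comm (i j : Fin N) (f : Om N → ℝ) : av w i (av w j f) = av w j (av w i f) := by
  by_cases hij : i = j
  · rw [hij]
  funext ω
  simp only [av, Finset.mul_sum]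
  rw [Finset.sum_comm]
  refine Finset.sum_congr rfl fun c _ => Finset.sum_congr rfl fun c' _ => ?_
  rw [Function.update_comm hij]
  ring

theorem av_sub (i : Fin N) (f g : Om N → ℝ) :
    av w i (fun ω => f ω - g ω) = fun ω => av w i f ω - av w i g ω := by
  funext ω
  simp only [av, mul_sub, Finset.sum_sub_distrib]

theorem av_mono (hw : ∀ i c, 0 ≤ w i c) (i : Fin N) {f g : Om N → ℝ} (h : ∀ ω, f ω ≤ g ω)
    (ω : Om N) : av w i f ω ≤ av w i g ω :=
  Finset.sum_le_sum fun c _ => mul_le_mul_of_nonneg_left (h _) (hw i c)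

theorem av_nonneg (hw : ∀ i c, 0 ≤ w i c) (i : Fin N) {f : Om N → ℝ} (h : ∀ ω, 0 ≤ f ω)
    (ω : Om N) : 0 ≤ av w i f ω :=
  Finset.sum_nonneg fun c _ => mul_nonneg (hw i c) (h _)

theorem av_pos (hw : ∀ i c, 0 < w i c) (i : Fin N) {f : Om N → ℝ} (h : ∀ ω, 0 ≤ f ω)
    {ω : Om N} (hω : 0 < f ω) : 0 < av w i f ω := by
  refine Finset.sum_pos' (fun c _ => mul_nonneg (hw i c).le (h _)) ⟨ω i, Finset.mem_univ _, ?_⟩
  rw [Function.update_eq_self]
  exact mul_pos (hw i _) hω

theorem Ex_sq_split (hs : ∀ i, ∑ c, w i c = 1) (i : Fin N) (g : Om N → ℝ) :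
    Ex w (fun ω => g ω ^ 2) = Ex w (fun ω => av w i g ω ^ 2) +
      Ex w (fun ω => (g ω - av w i g ω) ^ 2) := by
  have h1 : Ex w (fun ω => g ω * av w i g ω) = Ex w (fun ω => av w i g ω ^ 2) := by
    rw [Ex_mul_av hs (Indp_av i g) g]
    congr 1
    funext ω
    ring
  have h2 : (fun ω => (g ω - av w i g ω) ^ 2) =
      fun ω => (g ω ^ 2 - 2 * (g ω * av w i g ω)) + av w i g ω ^ 2 := by
    funext ω
    ring
  rw [h2, Ex_add, Ex_sub, Ex_mul_left, h1]
  ring

/-- Average over the coordinates `0, .., j - 1`. -/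
noncomputable def AA (w : Fin N → Fin 3 → ℝ) : ℕ → (Om N → ℝ) → (Om N → ℝ)
  | 0, f => f
  | j + 1, f => if h : j < N then av w ⟨j, h⟩ (AA w j f) else AA w j f

theorem AA_zero (f : Om N → ℝ) : AA w 0 f = f := rfl

theorem AA_succ (j : Fin N) (f : Om N → ℝ) : AA w (j + 1) f = av w j (AA w j f) := by
  simp only [AA]
  rw [dif_pos j.2]

theorem av_AA (i : Fin N) (j : ℕ) (f : Om N → ℝ) : av w i (AA w j f) = AA w j (av w i f) := by
  induction j with
  | zero => rfl
  | succ j ih =>
    simp only [AA]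
    split_ifs with h
    · rw [av_comm, ih]
    · exact ih

theorem AA_sub (j : ℕ) (f g : Om N → ℝ) :
    AA w j (fun ω => f ω - g ω) = fun ω => AA w j f ω - AA w j g ω := by
  induction j with
  | zero => rfl
  | succ j ih =>
    simp only [AA]
    split_ifs with h
    · rw [ih, av_sub]
    · exact ih

theorem AA_nonneg (hw : ∀ i c, 0 ≤ w i c) (j : ℕ) {f : Om N → ℝ} (h : ∀ ω, 0 ≤ f ω) (ω : Om N) :
    0 ≤ AA w j f ω := by
  induction j generalizing ω with
  | zero => exact h ω
  | succ j ih =>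
    simp only [AA]
    split_ifs with h'
    · exact av_nonneg hw _ ih ω
    · exact ih ω

theorem AA_pos (hw : ∀ i c, 0 < w i c) (j : ℕ) {f : Om N → ℝ} (h : ∀ ω, 0 ≤ f ω) {ω : Om N}
    (hω : 0 < f ω) : 0 < AA w j f ω := by
  induction j with
  | zero => exact hω
  | succ j ih =>
    simp only [AA]
    split_ifs with h'
    · exact av_pos hw _ (fun ω => AA_nonneg (fun i c => (hw i c).le) j h ω) ih
    · exact ih

theorem AA_mono (hw : ∀ i c, 0 ≤ w i c) (j : ℕ) {f g : Om N → ℝ} (h : ∀ ω, f ω ≤ g ω)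
    (ω : Om N) : AA w j f ω ≤ AA w j g ω := by
  induction j generalizing ω with
  | zero => exact h ω
  | succ j ih =>
    simp only [AA]
    split_ifs with h'
    · exact av_mono hw _ ih ω
    · exact ih ω

theorem Ex_AA (hs : ∀ i, ∑ c, w i c = 1) (j : ℕ) (f : Om N → ℝ) : Ex w (AA w j f) = Ex w f := by
  induction j with
  | zero => rfl
  | succ j ih =>
    simp only [AA]
    split_ifs with h'
    · rw [Ex_av hs, ih]
    · exact ih

theorem AA_indp (j : ℕ) (f : Om N → ℝ) (i : Fin N) (hij : (i : ℕ) < j) : Indp i (AA w j f) := by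
  induction j with
  | zero => omega
  | succ j ih =>
    simp only [AA]
    by_cases h : j < N
    · rw [dif_pos h]
      by_cases h' : (i : ℕ) = j
      · have : i = ⟨j, h⟩ := Fin.ext h'
        rw [this]
        exact Indp_av _ _
      · exact Indp_av' _ (ih (by omega))
    · rw [dif_neg h]
      exact ih (by have := i.2; omega)

theorem eq_of_indp {g : Om N → ℝ} (h : ∀ i, Indp i g) (ω ω' : Om N) : g ω = g ω' := by
  classical
  have key : ∀ s : Finset (Fin N), g (fun i => if i ∈ s then ω' i else ω i) = g ω := by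
    intro s
    induction s using Finset.induction_on with
    | empty => simp
    | insert a s ha ih =>
      rw [← ih, ← h a (fun i => if i ∈ s then ω' i else ω i) (ω' a)]
      congr 1
      funext i
      by_cases hi : i = a
      · subst hi; simp
      · rw [Function.update_of_ne hi]
        simp [hi]
  have := key Finset.univ
  simpa using this.symm

theorem AA_top (hs : ∀ i, ∑ c, w i c = 1) (f : Om N → ℝ) (ω : Om N) : AA w N f ω = Ex w f := by
  have h1 : ∀ ω', AA w N f ω' = AA w N f ω := fun ω' =>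
    eq_of_indp (fun i => AA_indp N f i i.2) ω' ω
  have h2 : Ex w (AA w N f) = AA w N f ω := by
    have h3 : AA w N f = fun _ => AA w N f ω := funext h1
    rw [h3]
    exact Ex_const hs _
  rw [← h2, Ex_AA hs]

/-- Differences. -/
noncomputable def DD (w : Fin N → Fin 3 → ℝ) (j : Fin N) (f : Om N → ℝ) : Om N → ℝ :=
  fun ω => AA w j f ω - av w j (AA w j f) ω

theorem DD_eq (j : Fin N) (f : Om N → ℝ) :
    DD w j f = AA w j (fun ω => f ω - av w j f ω) := by
  rw [AA_sub, ← av_AA]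
  rfl

/-- Decomposition of the variance. -/
theorem var_eq (hs : ∀ i, ∑ c, w i c = 1) (f : Om N → ℝ) :
    Ex w (fun ω => f ω ^ 2) - Ex w f ^ 2 = ∑ j : Fin N, Ex w (fun ω => DD w j f ω ^ 2) := by
  have h1 : ∀ j : Fin N, Ex w (fun ω => DD w j f ω ^ 2) =
      Ex w (fun ω => AA w j f ω ^ 2) - Ex w (fun ω => AA w (j + 1) f ω ^ 2) := by
    intro j
    have := Ex_sq_split hs j (AA w j f)
    rw [AA_succ, this]
    simp only [DD]
    ring
  rw [Finset.sum_congr rfl fun j _ => h1 j]
  have h2 := Fin.sum_univ_eq_sum_range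
    (fun j => Ex w (fun ω => AA w j f ω ^ 2) - Ex w (fun ω => AA w (j + 1) f ω ^ 2)) N
  rw [h2, Finset.sum_range_sub']
  rw [AA_zero]
  congr 1
  have h3 : (fun ω => AA w N f ω ^ 2) = fun _ => Ex w f ^ 2 := by
    funext ω
    rw [AA_top hs]
  rw [h3, Ex_const hs]

/-- The differences commute with `f ↦ f - av i f`. -/
theorem DD_sub_av (i j : Fin N) (f : Om N → ℝ) :
    (fun ω => DD w j f ω - av w i (DD w j f) ω) = DD w j (fun ω => f ω - av w i f ω) := by
  have h1 : av w i (DD w j f) = DD w j (av w i f) := by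
    rw [DD_eq, DD_eq, av_AA]
    congr 1
    rw [av_sub, av_comm]
  rw [h1, DD_eq, DD_eq, DD_eq, ← AA_sub]
  congr 1
  funext ω
  rw [av_sub]
  simp only
  ring

theorem sum_DD_sub_av (hs : ∀ i, ∑ c, w i c = 1) (i : Fin N) (f : Om N → ℝ) :
    ∑ j : Fin N, Ex w (fun ω => (DD w j f ω - av w i (DD w j f) ω) ^ 2) =
      Ex w (fun ω => (f ω - av w i f ω) ^ 2) := by
  have h1 : ∀ j : Fin N, Ex w (fun ω => (DD w j f ω - av w i (DD w j f) ω) ^ 2) =
      Ex w (fun ω => DD w j (fun ω => f ω - av w i f ω) ω ^ 2) := by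
    intro j
    rw [← DD_sub_av i j f]
  rw [Finset.sum_congr rfl fun j _ => h1 j, ← var_eq hs]
  have h2 : Ex w (fun ω => f ω - av w i f ω) = 0 := by
    rw [Ex_sub, Ex_av hs, sub_self]
  rw [h2]
  ring

end Pool.Agent.Helper28.AN
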