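import Mathlib
import Pool.Agent.Helper28.AN.Defs
import Pool.Agent.Helper28.AN.St.K1

/-!
Project AN (MP_8410f8_pr), piece K2.
-/

open MeasureTheory Set Filter Topology
open scoped ENNReal

namespace Pool.Agent.Helper28.AN

open Pool.Agent.Helper97.BG

variable {N : ℕ} {w : Fin N → Fin 3 → ℝ}

theorem quad_sum (v x : Fin 3 → ℝ) (t : ℝ) :
    ∑ c, v c * (x c - t) ^ 2 = ∑ c, v c * x c ^ 2 - 2 * t * ∑ c, v c * x c + t ^ 2 * ∑ c, v c := by
  simp only [Fin.sum_univ_three]
  ring

/-- One coordinate: comparison of entropy and variance. -/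
theorem ent_one {p : ℝ} (hp : 0 < p) {v : Fin 3 → ℝ} (hv : ∀ c, p ≤ v c) (hs : ∑ c, v c = 1)
    (x : Fin 3 → ℝ) :
    ∑ c, v c * (x c ^ 2 * (Real.log (x c ^ 2) - Real.log (∑ c, v c * x c ^ 2))) ≤
      4 / p * ∑ c, v c * (x c - ∑ c, v c * x c) ^ 2 := by
  have hv0 : ∀ c, 0 < v c := fun c => hp.trans_le (hv c)
  set S := ∑ c, v c * x c ^ 2 with hS
  set m := ∑ c, v c * x c with hm
  have hS0 : 0 ≤ S := Finset.sum_nonneg fun c _ => mul_nonneg (hv0 c).le (sq_nonneg _)
  have hR : 0 ≤ 4 / p * ∑ c, v c * (x c - m) ^ 2 :=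
    mul_nonneg (by positivity) (Finset.sum_nonneg fun c _ => mul_nonneg (hv0 c).le (sq_nonneg _))
  have hle : ∀ c, v c * x c ^ 2 ≤ S := fun c =>
    Finset.single_le_sum (f := fun c => v c * x c ^ 2)
      (fun c _ => mul_nonneg (hv0 c).le (sq_nonneg _)) (Finset.mem_univ c)
  rcases hS0.eq_or_lt with h0 | h0
  · have hx : ∀ c, x c ^ 2 = 0 := by
      intro c
      have h1 := hle c
      rw [← h0] at h1
      have h2 : 0 ≤ x c ^ 2 := sq_nonneg _
      by_contra h3
      have h4 : 0 < x c ^ 2 := lt_of_le_of_ne h2 (Ne.symm h3)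
      have := mul_pos (hv0 c) h4
      linarith
    have : ∑ c, v c * (x c ^ 2 * (Real.log (x c ^ 2) - Real.log S)) = 0 := by
      apply Finset.sum_eq_zero
      intro c _
      rw [hx c]
      ring
    rw [this]
    exact hR
  -- pointwise
  have h1 : ∀ c, x c ^ 2 * (Real.log (x c ^ 2) - Real.log S) ≤ x c ^ 2 * (x c ^ 2 / S - 1) := by
    intro c
    rcases (sq_nonneg (x c)).eq_or_lt with h | h
    · rw [← h]; simp
    · rw [← Real.log_div h.ne' h0.ne']
      exact mul_le_mul_of_nonneg_left (Real.log_le_sub_one_of_pos (div_pos h h0)) h.le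
  have h2 : ∑ c, v c * (x c ^ 2 * (Real.log (x c ^ 2) - Real.log S)) ≤
      (∑ c, v c * (x c ^ 2 - S) ^ 2) / S := by
    have h3 : ∑ c, v c * (x c ^ 2 * (x c ^ 2 / S - 1)) = (∑ c, v c * (x c ^ 2 - S) ^ 2) / S := by
      have h4 : ∑ c, v c * (x c ^ 2 - S) ^ 2 =
          ∑ c, v c * (x c ^ 2) ^ 2 - 2 * S * ∑ c, v c * x c ^ 2 + S ^ 2 * ∑ c, v c := by
        exact quad_sum v (fun c => x c ^ 2) S
      have h5 : ∑ c, v c * (x c ^ 2 * (x c ^ 2 / S - 1)) =
          (∑ c, v c * (x c ^ 2) ^ 2) / S - ∑ c, v c * x c ^ 2 := by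
        rw [Finset.sum_div, ← Finset.sum_sub_distrib]
        exact Finset.sum_congr rfl fun c _ => by ring
      rw [h5, h4, hs, ← hS]
      field_simp
      ring
    rw [← h3]
    exact Finset.sum_le_sum fun c _ => mul_le_mul_of_nonneg_left (h1 c) (hv0 c).le
  refine h2.trans ?_
  -- the variance of the square
  have h6 : ∑ c, v c * (x c ^ 2 - S) ^ 2 ≤ ∑ c, v c * (x c ^ 2 - m ^ 2) ^ 2 := by
    have e1 : ∑ c, v c * (x c ^ 2 - S) ^ 2 =
        ∑ c, v c * (x c ^ 2) ^ 2 - 2 * S * ∑ c, v c * x c ^ 2 + S ^ 2 * ∑ c, v c := by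
      exact quad_sum v (fun c => x c ^ 2) S
    have e2 : ∑ c, v c * (x c ^ 2 - m ^ 2) ^ 2 =
        ∑ c, v c * (x c ^ 2) ^ 2 - 2 * m ^ 2 * ∑ c, v c * x c ^ 2 + (m ^ 2) ^ 2 * ∑ c, v c := by
      exact quad_sum v (fun c => x c ^ 2) (m ^ 2)
    rw [e1, e2, hs, ← hS]
    nlinarith [sq_nonneg (S - m ^ 2)]
  have hp1 : p ≤ 1 := by
    have := hv 0
    rw [Fin.sum_univ_three] at hs
    have := hv0 1
    have := hv0 2
    linarith [hv 0]
  have hmS : m ^ 2 ≤ S := by
    have e : ∑ c, v c * (x c - m) ^ 2 = S - m ^ 2 := by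
      have e1 : ∑ c, v c * (x c - m) ^ 2 =
          ∑ c, v c * x c ^ 2 - 2 * m * ∑ c, v c * x c + m ^ 2 * ∑ c, v c := by
        exact quad_sum v x m
      rw [e1, hs, ← hm, ← hS]
      ring
    have : 0 ≤ ∑ c, v c * (x c - m) ^ 2 :=
      Finset.sum_nonneg fun c _ => mul_nonneg (hv0 c).le (sq_nonneg _)
    linarith
  have hxS : ∀ c, x c ^ 2 ≤ S / p := by
    intro c
    rw [le_div_iff₀ hp]
    calc x c ^ 2 * p ≤ x c ^ 2 * v c := mul_le_mul_of_nonneg_left (hv c) (sq_nonneg _)
      _ = v c * x c ^ 2 := by ring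
      _ ≤ S := hle c
  have hSp : S ≤ S / p := by
    rw [le_div_iff₀ hp]
    nlinarith
  have h7 : ∀ c, (x c ^ 2 - m ^ 2) ^ 2 ≤ (x c - m) ^ 2 * (4 * (S / p)) := by
    intro c
    have e : (x c ^ 2 - m ^ 2) ^ 2 = (x c - m) ^ 2 * (x c + m) ^ 2 := by ring
    rw [e]
    refine mul_le_mul_of_nonneg_left ?_ (sq_nonneg _)
    have := hxS c
    nlinarith [sq_nonneg (x c - m)]
  have h8 : ∑ c, v c * (x c ^ 2 - m ^ 2) ^ 2 ≤ (∑ c, v c * (x c - m) ^ 2) * (4 * (S / p)) := by
    rw [Finset.sum_mul]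
    refine Finset.sum_le_sum fun c _ => ?_
    rw [mul_assoc]
    exact mul_le_mul_of_nonneg_left (h7 c) (hv0 c).le
  calc (∑ c, v c * (x c ^ 2 - S) ^ 2) / S
      ≤ ((∑ c, v c * (x c - m) ^ 2) * (4 * (S / p))) / S := by
        exact div_le_div_of_nonneg_right (h6.trans h8) hS0
    _ = 4 / p * ∑ c, v c * (x c - m) ^ 2 := by
        field_simp

/-- Comparison of entropy and variance, one coordinate. -/
theorem ent_coord {p : ℝ} (hp : 0 < p) (hw : IsW p w) (i : Fin N) (g : Om N → ℝ) :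
    Ex w (fun ω => g ω ^ 2 * (Real.log (g ω ^ 2) - Real.log (av w i (fun ω => g ω ^ 2) ω))) ≤
      4 / p * Ex w (fun ω => (g ω - av w i g ω) ^ 2) := by
  have hw0 : ∀ i c, 0 ≤ w i c := fun i c => hp.le.trans (hw.1 i c)
  rw [← Ex_mul_left, ← Ex_av hw.2 i, ← Ex_av hw.2 i (fun ω => 4 / p * (g ω - av w i g ω) ^ 2)]
  refine Ex_mono hw0 fun ω => ?_
  have h := ent_one hp (hw.1 i) (hw.2 i) (fun c => g (Function.update ω i c))
  have e1 : ∀ c, av w i (fun ω => g ω ^ 2) (Function.update ω i c) =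
      ∑ c, w i c * g (Function.update ω i c) ^ 2 := by
    intro c
    rw [Indp_av i _ ω c]
    rfl
  have e2 : ∀ c, av w i g (Function.update ω i c) = ∑ c, w i c * g (Function.update ω i c) := by
    intro c
    rw [Indp_av i _ ω c]
    rfl
  simp only [av] at e1 e2 ⊢
  simp only [e1, e2]
  refine h.trans (le_of_eq ?_)
  rw [Finset.mul_sum]
  exact Finset.sum_congr rfl fun c _ => by ring

/-- One step of the tensorisation. -/
theorem ent_step (hw : ∀ i c, 0 < w i c) (hs : ∀ i, ∑ c, w i c = 1) (i : Fin N)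
    {h H : Om N → ℝ} (h0 : ∀ ω, 0 ≤ h ω) (H0 : ∀ ω, 0 ≤ H ω) (hH : ∀ ω, 0 < h ω → 0 < H ω) :
    Ex w (fun ω => h ω * (Real.log (H ω) - Real.log (av w i H ω))) ≤
      Ex w (fun ω => h ω * (Real.log (h ω) - Real.log (av w i h ω))) := by
  have hw0 : ∀ i c, 0 ≤ w i c := fun i c => (hw i c).le
  have key : ∀ ω, h ω * (Real.log (H ω) - Real.log (av w i H ω)) ≤
      h ω * (Real.log (h ω) - Real.log (av w i h ω)) +
        (H ω * (av w i h ω / av w i H ω) - h ω) := by
    intro ω
    rcases (h0 ω).eq_or_lt with e | e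
    · rw [← e]
      have := mul_nonneg (H0 ω) (div_nonneg (av_nonneg hw0 i h0 ω) (av_nonneg hw0 i H0 ω))
      simp only [zero_mul, zero_add, sub_zero]
      exact this
    · have a1 : 0 < H ω := hH ω e
      have a2 : 0 < av w i H ω := av_pos hw i H0 a1
      have a3 : 0 < av w i h ω := av_pos hw i h0 e
      have a4 := Real.log_le_sub_one_of_pos
        (div_pos (mul_pos a1 a3) (mul_pos a2 e))
      rw [Real.log_div (mul_pos a1 a3).ne' (mul_pos a2 e).ne', Real.log_mul a1.ne' a3.ne',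
        Real.log_mul a2.ne' e.ne'] at a4
      have a5 := mul_le_mul_of_nonneg_left a4 e.le
      have a6 : h ω * (H ω * av w i h ω / (av w i H ω * h ω) - 1) =
          H ω * (av w i h ω / av w i H ω) - h ω := by
        field_simp
      rw [a6] at a5
      nlinarith
  have h1 := Ex_mono hw0 key
  rw [Ex_add, Ex_sub] at h1
  have h2 : Ex w (fun ω => H ω * (av w i h ω / av w i H ω)) ≤ Ex w h := by
    have hi : Indp i (fun ω => av w i h ω / av w i H ω) := by
      intro ω c
      simp only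
      rw [Indp_av i h ω c, Indp_av i H ω c]
    rw [Ex_mul_av hs hi H, ← Ex_av hs i h]
    refine Ex_mono hw0 fun ω => ?_
    rcases (av_nonneg hw0 i H0 ω).eq_or_lt with e | e
    · rw [← e]
      simp only [div_zero, zero_mul]
      exact av_nonneg hw0 i h0 ω
    · rw [mul_div_cancel₀ _ e.ne']
  linarith

/-- Tensorisation of the entropy. -/
theorem ent_tensor (hw : ∀ i c, 0 < w i c) (hs : ∀ i, ∑ c, w i c = 1)
    {h : Om N → ℝ} (h0 : ∀ ω, 0 ≤ h ω) :
    Ex w (fun ω => h ω * Real.log (h ω)) - Ex w h * Real.log (Ex w h) ≤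
      ∑ i : Fin N, Ex w (fun ω => h ω * (Real.log (h ω) - Real.log (av w i h ω))) := by
  have hw0 : ∀ i c, 0 ≤ w i c := fun i c => (hw i c).le
  have h1 : Ex w (fun ω => h ω * Real.log (h ω)) - Ex w h * Real.log (Ex w h) =
      ∑ i : Fin N, Ex w (fun ω => h ω * (Real.log (AA w i h ω) - Real.log (AA w (i + 1) h ω))) := by
    have e := Fin.sum_univ_eq_sum_range
      (fun j => Ex w (fun ω => h ω * (Real.log (AA w j h ω) - Real.log (AA w (j + 1) h ω)))) N
    rw [e, ← Ex_sum]
    have e2 : (fun ω => ∑ j ∈ Finset.range N,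
        h ω * (Real.log (AA w j h ω) - Real.log (AA w (j + 1) h ω))) =
        fun ω => h ω * Real.log (h ω) - h ω * Real.log (Ex w h) := by
      funext ω
      rw [← Finset.mul_sum, Finset.sum_range_sub' (fun j => Real.log (AA w j h ω)), AA_zero,
        AA_top hs]
      ring
    rw [e2, Ex_sub, Ex_mul_right]
  rw [h1]
  refine Finset.sum_le_sum fun i _ => ?_
  rw [AA_succ]
  exact ent_step hw hs i h0 (fun ω => AA_nonneg hw0 i h0 ω) (fun ω hω => AA_pos hw i h0 hω)

/-- Lower bound for the entropy of a square. -/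
theorem ent_lower (hw : ∀ i c, 0 ≤ w i c) (g : Om N → ℝ) :
    Ex w (fun ω => g ω ^ 2) * Real.log (Ex w (fun ω => g ω ^ 2) / Ex w (fun ω => |g ω|) ^ 2) ≤
      Ex w (fun ω => g ω ^ 2 * Real.log (g ω ^ 2)) -
        Ex w (fun ω => g ω ^ 2) * Real.log (Ex w (fun ω => g ω ^ 2)) := by
  set a := Ex w (fun ω => g ω ^ 2) with ha
  set m := Ex w (fun ω => |g ω|) with hm
  have ha0 : 0 ≤ a := Ex_nonneg hw fun ω => sq_nonneg _
  have hm0 : 0 ≤ m := Ex_nonneg hw fun ω => abs_nonneg _
  have hz : a = 0 ∨ m = 0 → (∀ ω, wt w ω * g ω ^ 2 = 0) := by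
    intro h ω
    rcases h with h | h
    · have := (Finset.sum_eq_zero_iff_of_nonneg
        (fun ω _ => mul_nonneg (wt_nonneg hw ω) (sq_nonneg (g ω)))).1 (ha ▸ h)
      exact this ω (Finset.mem_univ _)
    · have := (Finset.sum_eq_zero_iff_of_nonneg
        (fun ω _ => mul_nonneg (wt_nonneg hw ω) (abs_nonneg (g ω)))).1 (hm ▸ h)
      have h2 := this ω (Finset.mem_univ _)
      rw [← sq_abs, sq, ← mul_assoc, h2, zero_mul]
  by_cases h : a = 0 ∨ m = 0
  · have h1 := hz h
    have h2 : a = 0 := by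
      rw [ha]
      exact Finset.sum_eq_zero fun ω _ => h1 ω
    have h3 : Ex w (fun ω => g ω ^ 2 * Real.log (g ω ^ 2)) = 0 := by
      refine Finset.sum_eq_zero fun ω _ => ?_
      rw [← mul_assoc, h1 ω, zero_mul]
    rw [h2, h3]
    simp
  push Not at h
  have ha1 : 0 < a := lt_of_le_of_ne ha0 (Ne.symm h.1)
  have hm1 : 0 < m := lt_of_le_of_ne hm0 (Ne.symm h.2)
  have key : ∀ ω, g ω ^ 2 * Real.log (a / m) + (g ω ^ 2 - |g ω| * (a / m)) ≤
      g ω ^ 2 * Real.log |g ω| := by
    intro ω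
    rcases (abs_nonneg (g ω)).eq_or_lt with e | e
    · have : g ω = 0 := by
        have := e.symm
        simpa using this
      rw [this]
      simp
    · have b1 : 0 < |g ω| * m / a := by positivity
      have b2 := Real.one_sub_inv_le_log_of_pos b1
      have b3 : Real.log (|g ω| * m / a) = Real.log |g ω| - Real.log (a / m) := by
        rw [Real.log_div (by positivity) ha1.ne', Real.log_mul e.ne' hm1.ne',
          Real.log_div ha1.ne' hm1.ne']
        ring
      rw [b3] at b2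
      have b4 : 0 ≤ g ω ^ 2 := sq_nonneg _
      have b5 := mul_le_mul_of_nonneg_left b2 b4
      have b6 : g ω ^ 2 * (1 - (|g ω| * m / a)⁻¹) = g ω ^ 2 - |g ω| * (a / m) := by
        rw [← sq_abs]
        field_simp
      rw [b6] at b5
      nlinarith
  have h1 := Ex_mono hw key
  rw [Ex_add, Ex_sub, Ex_mul_right, Ex_mul_right, ← ha, ← hm, mul_div_cancel₀ _ hm1.ne'] at h1
  have h2 : Ex w (fun ω => g ω ^ 2 * Real.log (g ω ^ 2)) =
      2 * Ex w (fun ω => g ω ^ 2 * Real.log |g ω|) := by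
    rw [← Ex_mul_left]
    congr 1
    funext ω
    rw [← sq_abs, Real.log_pow]
    push_cast
    ring
  rw [h2, Real.log_div ha1.ne' (by positivity), Real.log_pow]
  rw [Real.log_div ha1.ne' hm1.ne'] at h1
  push_cast
  nlinarith

theorem one_nonneg (q : Prop) : 0 ≤ one q := by
  unfold one
  split_ifs <;> norm_num

theorem one_le_one (q : Prop) : one q ≤ 1 := by
  unfold one
  split_ifs <;> norm_num

theorem one_sq (q : Prop) : one q ^ 2 = one q := by
  unfold one
  split_ifs <;> norm_num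

/-- Pointwise bound by the influence. -/
theorem abs_sub_av_le (hw : ∀ i c, 0 ≤ w i c) (hs : ∀ i, ∑ c, w i c = 1) (F : Om N → Prop)
    (i : Fin N) (ω : Om N) :
    |one (F ω) - av w i (fun ω => one (F ω)) ω| ≤ one (Dep F i ω) := by
  by_cases hD : Dep F i ω
  · have h1 : one (Dep F i ω) = 1 := by
      unfold one
      rw [if_pos hD]
    rw [h1]
    have h2 : 0 ≤ av w i (fun ω => one (F ω)) ω := av_nonneg hw i (fun ω => one_nonneg _) ω
    have h3 : av w i (fun ω => one (F ω)) ω ≤ 1 := by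
      have h4 := av_mono hw i (f := fun ω => one (F ω)) (g := fun _ => 1)
        (fun ω => one_le_one _) ω
      refine h4.trans (le_of_eq ?_)
      simp only [av, mul_one]
      exact hs i
    have h5 := one_nonneg (F ω)
    have h6 := one_le_one (F ω)
    rw [abs_le]
    constructor <;> linarith
  · have h1 : ∀ c, one (F (Function.update ω i c)) = one (F ω) := by
      intro c
      have h2 : F (Function.update ω i c) ↔ F ω := by
        constructor
        · intro h
          by_contra h'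
          exact hD ⟨c, ω i, h, by rwa [Function.update_eq_self]⟩
        · intro h
          by_contra h'
          exact hD ⟨ω i, c, by rwa [Function.update_eq_self], h'⟩
      rw [propext h2]
    have h3 : av w i (fun ω => one (F ω)) ω = one (F ω) := by
      simp only [av, h1]
      rw [← Finset.sum_mul, hs, one_mul]
    rw [h3, sub_self, abs_zero]
    exact one_nonneg _

theorem abs_AA_le (hw : ∀ i c, 0 ≤ w i c) (j : ℕ) (g : Om N → ℝ) (ω : Om N) :
    |AA w j g ω| ≤ AA w j (fun ω => |g ω|) ω := by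
  rw [abs_le]
  constructor
  · have h1 := AA_mono hw j (f := fun ω => (0 : ℝ) - |g ω|) (g := g)
      (fun ω => by have := neg_abs_le (g ω); linarith) ω
    rw [AA_sub] at h1
    have h2 : AA w j (fun _ => (0 : ℝ)) ω = 0 := by
      have h3 := AA_nonneg hw j (f := fun _ => (0 : ℝ)) (fun _ => le_rfl) ω
      have h4 : ∀ (k : ℕ) (ω : Om N), AA w k (fun _ => (0 : ℝ)) ω = 0 := by
        intro k
        induction k with
        | zero => intro ω; rfl
        | succ k ih =>
          intro ω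
          simp only [AA]
          split_ifs with h
          · simp only [av, ih, mul_zero, Finset.sum_const_zero]
          · exact ih ω
      exact h4 j ω
    have h5 : AA w j (fun _ => (0 : ℝ)) ω - AA w j (fun ω => |g ω|) ω ≤ AA w j g ω := h1
    rw [h2] at h5
    linarith
  · exact AA_mono hw j (fun ω => le_abs_self (g ω)) ω

/-- Main inequality. -/
theorem kkl {N : ℕ} {p : ℝ} (hp : 0 < p) {w : Fin N → Fin 3 → ℝ} (hw : IsW p w)
    (F : Om N → Prop) {β : ℝ} (hβ : 0 < β) (hJ : ∑ i, Inf w F i ^ 2 ≤ β)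
    (hv : 0 < Ex w (fun ω => one (F ω)) * (1 - Ex w (fun ω => one (F ω)))) :
    Ex w (fun ω => one (F ω)) * (1 - Ex w (fun ω => one (F ω))) *
      Real.log (Ex w (fun ω => one (F ω)) * (1 - Ex w (fun ω => one (F ω))) / β) ≤
      4 / p * ∑ i, Inf w F i := by
  have hwp : ∀ i c, 0 < w i c := fun i c => hp.trans_le (hw.1 i c)
  have hw0 : ∀ i c, 0 ≤ w i c := fun i c => (hwp i c).le
  have hs := hw.2
  set f : Om N → ℝ := fun ω => one (F ω) with hf
  set v := Ex w f * (1 - Ex w f) with hvdef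
  set a : Fin N → ℝ := fun j => Ex w (fun ω => DD w j f ω ^ 2) with ha
  set m : Fin N → ℝ := fun j => Ex w (fun ω => |DD w j f ω|) with hm
  have hsum : ∑ j, a j = v := by
    rw [ha, ← var_eq hs f, hvdef]
    have : (fun ω => f ω ^ 2) = f := by
      funext ω
      exact one_sq _
    rw [this]
    ring
  have ha0 : ∀ j, 0 ≤ a j := fun j => Ex_nonneg hw0 fun ω => sq_nonneg _
  have hm0 : ∀ j, 0 ≤ m j := fun j => Ex_nonneg hw0 fun ω => abs_nonneg _
  have hInf0 : ∀ j, 0 ≤ Inf w F j := fun j => Ex_nonneg hw0 fun ω => one_nonneg _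
  have hmI : ∀ j, m j ≤ Inf w F j := by
    intro j
    have h1 : ∀ ω, |DD w j f ω| ≤ AA w j (fun ω => |f ω - av w j f ω|) ω := by
      intro ω
      rw [DD_eq]
      exact abs_AA_le hw0 j _ ω
    calc m j ≤ Ex w (AA w j (fun ω => |f ω - av w j f ω|)) := Ex_mono hw0 h1
      _ = Ex w (fun ω => |f ω - av w j f ω|) := Ex_AA hs _ _
      _ ≤ Inf w F j := Ex_mono hw0 fun ω => abs_sub_av_le hw0 hs F j ω
  have hmsum : ∑ j, m j ^ 2 ≤ β := by
    refine le_trans (Finset.sum_le_sum fun j _ => ?_) hJ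
    exact pow_le_pow_left₀ (hm0 j) (hmI j) 2
  -- upper bound
  have hup : ∑ j, (Ex w (fun ω => DD w j f ω ^ 2 * Real.log (DD w j f ω ^ 2)) -
      a j * Real.log (a j)) ≤ 4 / p * ∑ i, Inf w F i := by
    have h1 : ∀ j, Ex w (fun ω => DD w j f ω ^ 2 * Real.log (DD w j f ω ^ 2)) -
        a j * Real.log (a j) ≤
        ∑ i : Fin N, 4 / p * Ex w (fun ω => (DD w j f ω - av w i (DD w j f) ω) ^ 2) := by
      intro j
      refine (ent_tensor hwp hs (h := fun ω => DD w j f ω ^ 2) fun ω => sq_nonneg _).trans ?_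
      exact Finset.sum_le_sum fun i _ => ent_coord hp hw i (DD w j f)
    refine (Finset.sum_le_sum fun j _ => h1 j).trans ?_
    rw [Finset.sum_comm, Finset.mul_sum]
    refine Finset.sum_le_sum fun i _ => ?_
    rw [← Finset.mul_sum, sum_DD_sub_av hs i f]
    refine mul_le_mul_of_nonneg_left ?_ (by positivity)
    refine Ex_mono hw0 fun ω => ?_
    have h2 := abs_sub_av_le hw0 hs F i ω
    rw [← sq_abs]
    calc |f ω - av w i f ω| ^ 2 ≤ one (Dep F i ω) ^ 2 := pow_le_pow_left₀ (abs_nonneg _) h2 2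
      _ = one (Dep F i ω) := one_sq _
  refine le_trans ?_ hup
  have hlow : ∀ j, a j * Real.log (v / β) + (a j - m j ^ 2 * (v / β)) ≤
      Ex w (fun ω => DD w j f ω ^ 2 * Real.log (DD w j f ω ^ 2)) - a j * Real.log (a j) := by
    intro j
    refine le_trans ?_ (ent_lower hw0 (DD w j f))
    change _ ≤ a j * Real.log (a j / m j ^ 2)
    have hvb : 0 < v / β := by positivity
    rcases (ha0 j).eq_or_lt with e | e
    · rw [← e]
      have := mul_nonneg (sq_nonneg (m j)) hvb.le
      simp only [zero_mul, zero_add, zero_sub]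
      linarith
    · have hm1 : 0 < m j := by
        rcases (hm0 j).eq_or_lt with e' | e'
        · exfalso
          have h1 := (Finset.sum_eq_zero_iff_of_nonneg
            (fun ω _ => mul_nonneg (wt_nonneg hw0 ω) (abs_nonneg (DD w j f ω)))).1 e'.symm
          have h2 : a j = 0 := by
            refine Finset.sum_eq_zero fun ω _ => ?_
            have h3 := h1 ω (Finset.mem_univ _)
            change wt w ω * DD w j f ω ^ 2 = 0
            rw [← sq_abs, sq, ← mul_assoc, h3, zero_mul]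
          linarith
        · exact e'
      have hm2 : 0 < m j ^ 2 := by positivity
      have b1 : 0 < a j / m j ^ 2 / (v / β) := by positivity
      have b2 := Real.one_sub_inv_le_log_of_pos b1
      rw [Real.log_div (by positivity) hvb.ne'] at b2
      have b3 := mul_le_mul_of_nonneg_left b2 e.le
      have b4 : a j * (1 - (a j / m j ^ 2 / (v / β))⁻¹) = a j - m j ^ 2 * (v / β) := by
        field_simp
      rw [b4] at b3
      nlinarith
  refine le_trans ?_ (Finset.sum_le_sum fun j _ => hlow j)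
  rw [Finset.sum_add_distrib, Finset.sum_sub_distrib, ← Finset.sum_mul, ← Finset.sum_mul, hsum]
  have hvb : 0 < v / β := by positivity
  have h9 : (∑ j, m j ^ 2) * (v / β) ≤ v := by
    calc (∑ j, m j ^ 2) * (v / β) ≤ β * (v / β) := mul_le_mul_of_nonneg_right hmsum hvb.le
      _ = v := by field_simp
  linarith

end Pool.Agent.Helper28.AN
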