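import Mathlib
import Pool.Agent.Helper28.AN.Defs
import Pool.Agent.Helper28.AN.St.K2

/-!
Project AN (MP_8410f8_pr), piece K3.
-/

open MeasureTheory Set Filter Topology
open scoped ENNReal

namespace Pool.Agent.Helper28.AN

open Pool.Agent.Helper97.BG

/-- Otherwise `∑ Inf ^ 2 ≤ (∑ Inf) ^ 2 / M ≤ L ^ 2 / M`, and `kkl` with `β = L ^ 2 / M`. -/
theorem kkl_large {p v L : ℝ} (hp : 0 < p) (hv : 0 < v) (hL : 0 < L) : ∃ M : ℕ, 0 < M ∧
    ∀ (N : ℕ) (w : Fin N → Fin 3 → ℝ) (F : Om N → Prop), IsW p w →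
      v ≤ Ex w (fun ω => one (F ω)) * (1 - Ex w (fun ω => one (F ω))) →
      (∀ i, (M : ℝ) * Inf w F i ≤ ∑ j, Inf w F j) → L ≤ ∑ j, Inf w F j := by
  refine ⟨⌈L ^ 2 / v * Real.exp (4 / p * L / v)⌉₊ + 1, Nat.succ_pos _, ?_⟩
  intro N w F hw hV hM
  set M : ℝ := ((⌈L ^ 2 / v * Real.exp (4 / p * L / v)⌉₊ + 1 : ℕ) : ℝ) with hMdef
  have hM0 : 0 < M := by
    rw [hMdef]
    exact_mod_cast Nat.succ_pos _
  have hM1 : L ^ 2 / v * Real.exp (4 / p * L / v) ≤ M := by
    rw [hMdef]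
    push_cast
    exact (Nat.le_ceil _).trans (by linarith)
  have hw0 : ∀ i c, 0 ≤ w i c := fun i c => hp.le.trans (hw.1 i c)
  have hI0 : ∀ j, 0 ≤ Inf w F j := fun j => Ex_nonneg hw0 fun ω => one_nonneg _
  set T := ∑ j, Inf w F j with hT
  have hT0 : 0 ≤ T := Finset.sum_nonneg fun j _ => hI0 j
  by_contra hlt
  push Not at hlt
  have hβ : 0 < L ^ 2 / M := by positivity
  have hJ : ∑ i, Inf w F i ^ 2 ≤ L ^ 2 / M := by
    have h1 : ∀ i, Inf w F i ^ 2 ≤ Inf w F i * (T / M) := by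
      intro i
      rw [sq]
      refine mul_le_mul_of_nonneg_left ?_ (hI0 i)
      rw [le_div_iff₀ hM0, mul_comm]
      exact hM i
    calc ∑ i, Inf w F i ^ 2 ≤ ∑ i, Inf w F i * (T / M) := Finset.sum_le_sum fun i _ => h1 i
      _ = T * (T / M) := by rw [← Finset.sum_mul, hT]
      _ = T ^ 2 / M := by ring
      _ ≤ L ^ 2 / M := by
        apply div_le_div_of_nonneg_right _ hM0.le
        exact pow_le_pow_left₀ hT0 hlt.le 2
  set V := Ex w (fun ω => one (F ω)) * (1 - Ex w (fun ω => one (F ω))) with hVdef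
  have hV0 : 0 < V := hv.trans_le hV
  have hk := kkl hp hw F hβ hJ hV0
  rw [← hT, ← hVdef] at hk
  have h2 : Real.exp (4 / p * L / v) ≤ V / (L ^ 2 / M) := by
    rw [le_div_iff₀ hβ]
    calc Real.exp (4 / p * L / v) * (L ^ 2 / M) =
          (L ^ 2 / v * Real.exp (4 / p * L / v)) * (v / M) := by field_simp
      _ ≤ M * (v / M) := mul_le_mul_of_nonneg_right hM1 (by positivity)
      _ = v := by field_simp
      _ ≤ V := hV
  have h3 : 4 / p * L / v ≤ Real.log (V / (L ^ 2 / M)) := by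
    rw [Real.le_log_iff_exp_le (by positivity)]
    exact h2
  have h4 : 4 / p * L ≤ V * Real.log (V / (L ^ 2 / M)) := by
    calc 4 / p * L = v * (4 / p * L / v) := by field_simp
      _ ≤ V * Real.log (V / (L ^ 2 / M)) :=
        mul_le_mul hV h3 (by positivity) hV0.le
  have h5 : 4 / p * T < 4 / p * L := mul_lt_mul_of_pos_left hlt (by positivity)
  linarith

end Pool.Agent.Helper28.AN
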