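import Mathlib
import Pool.Agent.Helper28.AN.Defs

/-!
Project AN (MP_8410f8_pr), piece P1.
-/

open MeasureTheory Set Filter Topology
open scoped ENNReal

namespace Pool.Agent.Helper28.AN

open Pool.Agent.Helper97.BG

/-- The involution `(ω, c) ↦ (update ω i c, ω i)`. -/
private lemma anp1_swap {N : ℕ} (i : Fin N) (G : Om N → Fin 3 → ℝ) :
    ∑ ω : Om N, ∑ c : Fin 3, G (Function.update ω i c) (ω i) = ∑ ω : Om N, ∑ c : Fin 3, G ω c := by
  rw [← Fintype.sum_prod_type', ← Fintype.sum_prod_type']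
  refine Finset.sum_bij' (fun (p : Om N × Fin 3) _ => (Function.update p.1 i p.2, p.1 i))
    (fun (p : Om N × Fin 3) _ => (Function.update p.1 i p.2, p.1 i)) ?_ ?_ ?_ ?_ ?_
  · intro a _; exact Finset.mem_univ _
  · intro a _; exact Finset.mem_univ _
  · rintro ⟨ω, c⟩ _
    simp
  · rintro ⟨ω, c⟩ _
    simp
  · rintro ⟨ω, c⟩ _
    rfl

/-- `Ex (w x) f = ∑ ω, (∏ i, w x i (ω i)) * f ω`. Differentiate the product
(`HasDerivAt.finset_prod` or `HasDerivAt.fun_finset_prod`) and sum. Then for each `i`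
`∑ ω, (∏ j ∈ univ.erase i, w s j (ω j)) * w' i (ω i) * f ω
  = ∑ ω, ∑ c, (∏ j, w s j (ω j)) * w' i c * f (update ω i c)`:
in the right side substitute `(ω, c) ↦ (update ω i c, ω i)` (an involution of `Om N × Fin 3`; see
`sum_swap` in K1 if it is already there, or prove it) and use `∑ c, w s i c = 1`. -/
theorem hasDerivAt_Ex {N : ℕ} (w : ℝ → Fin N → Fin 3 → ℝ) (w' : Fin N → Fin 3 → ℝ) (s : ℝ)
    (hw : ∀ i c, HasDerivAt (fun x => w x i c) (w' i c) s) (hs : ∀ i, ∑ c, w s i c = 1)
    (f : Om N → ℝ) :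
    HasDerivAt (fun x => Ex (w x) f)
      (∑ i, Ex (w s) fun ω => ∑ c, w' i c * f (Function.update ω i c)) s := by
  have h1 : ∀ ω : Om N, HasDerivAt (fun x => wt (w x) ω * f ω)
      ((∑ i, (∏ j ∈ Finset.univ.erase i, w s j (ω j)) * w' i (ω i)) * f ω) s := by
    intro ω
    have h := HasDerivAt.fun_finsetProd (u := (Finset.univ : Finset (Fin N)))
      (f := fun i x => w x i (ω i)) (f' := fun i => w' i (ω i)) (x := s)
      (fun i _ => hw i (ω i))
    have h2 := h.mul_const (f ω)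
    simpa [wt, smul_eq_mul] using h2
  have h2 : HasDerivAt (fun x => Ex (w x) f)
      (∑ ω : Om N, (∑ i, (∏ j ∈ Finset.univ.erase i, w s j (ω j)) * w' i (ω i)) * f ω) s := by
    have h := HasDerivAt.fun_sum (u := (Finset.univ : Finset (Om N)))
      (A := fun ω x => wt (w x) ω * f ω) (fun ω _ => h1 ω)
    simpa [Ex] using h
  have h3 : (∑ ω : Om N, (∑ i, (∏ j ∈ Finset.univ.erase i, w s j (ω j)) * w' i (ω i)) * f ω)
      = ∑ i, Ex (w s) fun ω => ∑ c, w' i c * f (Function.update ω i c) := by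
    simp only [Finset.sum_mul]
    rw [Finset.sum_comm]
    refine Finset.sum_congr rfl fun i _ => ?_
    unfold Ex wt
    have h4 := anp1_swap i (fun (ω : Om N) (c : Fin 3) =>
      (∏ j ∈ Finset.univ.erase i, w s j (ω j)) * w s i c * w' i (ω i) * f ω)
    have h5 : ∀ ω : Om N, ∑ c : Fin 3, (∏ j ∈ Finset.univ.erase i, w s j (ω j)) * w s i c *
        w' i (ω i) * f ω = (∏ j ∈ Finset.univ.erase i, w s j (ω j)) * w' i (ω i) * f ω := by
      intro ω
      have : ∀ c : Fin 3, (∏ j ∈ Finset.univ.erase i, w s j (ω j)) * w s i c *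
        w' i (ω i) * f ω = ((∏ j ∈ Finset.univ.erase i, w s j (ω j)) * w' i (ω i) * f ω) *
          w s i c := fun c => by ring
      rw [Finset.sum_congr rfl fun c _ => this c, ← Finset.mul_sum, hs i, mul_one]
    rw [Finset.sum_congr rfl fun ω _ => h5 ω] at h4
    rw [← h4]
    refine Finset.sum_congr rfl fun ω _ => ?_
    rw [Finset.mul_sum]
    refine Finset.sum_congr rfl fun c _ => ?_
    have h6 : (∏ j ∈ Finset.univ.erase i, w s j (Function.update ω i c j)) =
        ∏ j ∈ Finset.univ.erase i, w s j (ω j) := by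
      refine Finset.prod_congr rfl fun j hj => ?_
      rw [Function.update_of_ne (Finset.ne_of_mem_erase hj)]
    have h7 : (∏ j ∈ Finset.univ.erase i, w s j (ω j)) * w s i (ω i) = ∏ j, w s j (ω j) :=
      Finset.prod_erase_mul _ _ (Finset.mem_univ i)
    simp only [Function.update_self]
    rw [h6, h7]
    ring
  rw [← h3]
  exact h2

end Pool.Agent.Helper28.AN
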