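import Mathlib
import Pool.Agent.Helper28.AN.Defs
import Pool.Agent.Helper28.AN.St.K3
import Pool.Agent.Helper28.AN.St.P1

/-!
Project AN (MP_8410f8_pr), piece P2.
-/

open MeasureTheory Set Filter Topology
open scoped ENNReal

namespace Pool.Agent.Helper28.AN

open Pool.Agent.Helper97.BG

private theorem anp2_one_and {a b : Prop} (h : a → b) : one (b ∧ ¬ a) = one b - one a := by
  unfold one
  by_cases ha : a
  · have hb : b := h ha
    simp [ha, hb]
  · by_cases hb : b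
    · simp [ha, hb]
    · simp [ha, hb]

private theorem anp2_one_mono {a b : Prop} (h : a → b) : one a ≤ one b := by
  have := anp2_one_and h
  have h2 := one_nonneg (b ∧ ¬ a)
  linarith

private theorem anp2_upd {N : ℕ} (ω : Om N) (i : Fin N) {b c : Fin 3} (h : b ≤ c) :
    Function.update ω i b ≤ Function.update ω i c := by
  intro j
  by_cases hj : j = i
  · subst hj
    simpa using h
  · simp [hj]

private theorem anp2_dep {N : ℕ} {F : Om N → Prop}
    (hF : ∀ ω ω' : Om N, ω ≤ ω' → F ω → F ω') (i : Fin N) (ω : Om N) :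
    one (Dep F i ω) = one (Piv F 0 1 i ω) + one (Piv F 1 2 i ω) := by
  have h01 : F (Function.update ω i 0) → F (Function.update ω i 1) :=
    hF _ _ (anp2_upd ω i (by decide))
  have h12 : F (Function.update ω i 1) → F (Function.update ω i 2) :=
    hF _ _ (anp2_upd ω i (by decide))
  have hD : Dep F i ω ↔ (F (Function.update ω i 2) ∧ ¬ F (Function.update ω i 0)) := by
    constructor
    · rintro ⟨c, c', hc, hc'⟩
      refine ⟨hF _ _ (anp2_upd ω i (Fin.le_last c)) hc, fun h0 => hc' ?_⟩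
      exact hF _ _ (anp2_upd ω i (Fin.zero_le c')) h0
    · rintro ⟨h2, h0⟩
      exact ⟨2, 0, h2, h0⟩
  have e1 : one (Dep F i ω) = one (F (Function.update ω i 2)) - one (F (Function.update ω i 0)) := by
    rw [show one (Dep F i ω) = one (F (Function.update ω i 2) ∧ ¬ F (Function.update ω i 0)) by
      rw [hD]]
    exact anp2_one_and fun h => h12 (h01 h)
  have e2 : one (Piv F 0 1 i ω) =
      one (F (Function.update ω i 1)) - one (F (Function.update ω i 0)) :=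
    anp2_one_and h01
  have e3 : one (Piv F 1 2 i ω) =
      one (F (Function.update ω i 2)) - one (F (Function.update ω i 1)) :=
    anp2_one_and h12
  rw [e1, e2, e3]
  ring

private theorem anp2_sum {N : ℕ} {F : Om N → Prop}
    (hF : ∀ ω ω' : Om N, ω ≤ ω' → F ω → F ω') (i : Fin N) (ω : Om N) {e κ s : ℝ}
    (hκ : 0 ≤ κ) (hs1 : s ≤ 1) :
    (1 - e) * one (Piv F 1 2 i ω) - κ * (one (Piv F 0 1 i ω) + one (Piv F 1 2 i ω)) ≤
      ∑ c, (![κ, -(1 - e) - (1 - s) * κ, (1 - e) - s * κ] : Fin 3 → ℝ) c *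
        one (F (Function.update ω i c)) := by
  have h01 : F (Function.update ω i 0) → F (Function.update ω i 1) :=
    hF _ _ (anp2_upd ω i (by decide))
  have h12 : F (Function.update ω i 1) → F (Function.update ω i 2) :=
    hF _ _ (anp2_upd ω i (by decide))
  have e2 : one (Piv F 0 1 i ω) =
      one (F (Function.update ω i 1)) - one (F (Function.update ω i 0)) :=
    anp2_one_and h01
  have e3 : one (Piv F 1 2 i ω) =
      one (F (Function.update ω i 2)) - one (F (Function.update ω i 1)) :=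
    anp2_one_and h12
  have m12 : one (F (Function.update ω i 1)) ≤ one (F (Function.update ω i 2)) :=
    anp2_one_mono h12
  rw [Fin.sum_univ_three]
  simp only [Matrix.cons_val_zero, Matrix.cons_val_one, Matrix.cons_val]
  rw [e2, e3]
  have h1 : 0 ≤ κ * ((1 - s) *
      (one (F (Function.update ω i 2)) - one (F (Function.update ω i 1)))) :=
    mul_nonneg hκ (mul_nonneg (by linarith) (by linarith))
  nlinarith [h1]

private theorem anp2_inf_sym {N : ℕ} {w : Fin N → Fin 3 → ℝ} {F : Om N → Prop}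
    {σ : Equiv.Perm (Fin N)} (hw : ∀ i, w (σ i) = w i) (hF : ∀ ω, F (ω ∘ σ) ↔ F ω)
    (i : Fin N) : Inf w F (σ i) = Inf w F i := by
  have hwt : ∀ ω : Om N, wt w (ω ∘ σ) = wt w ω := by
    intro ω
    unfold wt
    rw [← Equiv.prod_comp σ (fun j => w j (ω j))]
    exact Finset.prod_congr rfl fun j _ => by rw [hw]; rfl
  have hD : ∀ ω : Om N, Dep F i (ω ∘ σ) ↔ Dep F (σ i) ω := by
    intro ω
    unfold Dep
    have hu : ∀ c, Function.update (ω ∘ σ) i c = Function.update ω (σ i) c ∘ σ :=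
      fun c => (Function.update_comp_eq_of_injective ω σ.injective i c).symm
    simp only [hu, hF]
  have e : Inf w F i = ∑ ω : Om N, wt w (ω ∘ σ) * one (Dep F i (ω ∘ σ)) := by
    unfold Inf Ex
    exact (Equiv.sum_comp (Equiv.arrowCongr σ.symm (Equiv.refl (Fin 3)))
      (fun ω : Om N => wt w ω * one (Dep F i ω))).symm
  rw [e]
  unfold Inf Ex
  exact Finset.sum_congr rfl fun ω _ => by rw [hwt, hD]

private theorem anp2_inf_pow {N : ℕ} {w : Fin N → Fin 3 → ℝ} {F : Om N → Prop}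
    {σ : Equiv.Perm (Fin N)} (hw : ∀ i, w (σ i) = w i) (hF : ∀ ω, F (ω ∘ σ) ↔ F ω)
    (i : Fin N) (j : ℕ) : Inf w F ((σ ^ j) i) = Inf w F i := by
  induction j with
  | zero => simp
  | succ j ih => rw [pow_succ', Equiv.Perm.mul_apply, anp2_inf_sym hw hF, ih]

private theorem anp2_inf_le {N : ℕ} {w : Fin N → Fin 3 → ℝ} {F : Om N → Prop}
    {σ : Equiv.Perm (Fin N)} (hw0 : ∀ i c, 0 ≤ w i c) (hw : ∀ i, w (σ i) = w i)
    (hF : ∀ ω, F (ω ∘ σ) ↔ F ω) {M : ℕ} (hM : ∀ i, ∀ j, 0 < j → j < M → (σ ^ j) i ≠ i)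
    (i : Fin N) : (M : ℝ) * Inf w F i ≤ ∑ j, Inf w F j := by
  have hinj : Set.InjOn (fun j : ℕ => (σ ^ j) i) (Finset.range M : Set ℕ) := by
    have key : ∀ a b : ℕ, a < b → b < M → (σ ^ a) i ≠ (σ ^ b) i := by
      intro a b hab hb h
      refine hM ((σ ^ a) i) (b - a) (by omega) (by omega) ?_
      rw [← Equiv.Perm.mul_apply, ← pow_add, show b - a + a = b by omega]
      exact h.symm
    intro a ha b hb h
    simp only [Finset.coe_range, Set.mem_Iio] at ha hb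
    rcases lt_trichotomy a b with hab | hab | hab
    · exact absurd h (key a b hab hb)
    · exact hab
    · exact absurd h.symm (key b a hab ha)
  have h1 : ∑ j ∈ Finset.range M, Inf w F ((σ ^ j) i) = (M : ℝ) * Inf w F i := by
    rw [Finset.sum_congr rfl fun j _ => anp2_inf_pow hw hF i j, Finset.sum_const,
      Finset.card_range, nsmul_eq_mul]
  have h2 : ∑ j ∈ Finset.range M, Inf w F ((σ ^ j) i) =
      ∑ x ∈ (Finset.range M).image (fun j : ℕ => (σ ^ j) i), Inf w F x :=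
    (Finset.sum_image hinj).symm
  rw [← h1, h2]
  exact Finset.sum_le_sum_of_subset_of_nonneg (Finset.subset_univ _)
    fun x _ _ => Ex_nonneg hw0 fun ω => one_nonneg _

private theorem anp2_deriv {N : ℕ} (t : Fin N → ℝ) (l₁ l₂ s : ℝ) (i : Fin N) (c : Fin 3) :
    HasDerivAt (fun x => ws t (l₁ - 2 * (l₁ - l₂) * (x - 1 / 4)) x i c)
      ((![2 * (l₁ - l₂) * t i * Real.exp (-((l₁ - 2 * (l₁ - l₂) * (s - 1 / 4)) * t i)),
        -(1 - Real.exp (-((l₁ - 2 * (l₁ - l₂) * (s - 1 / 4)) * t i))) - (1 - s) *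
          (2 * (l₁ - l₂) * t i * Real.exp (-((l₁ - 2 * (l₁ - l₂) * (s - 1 / 4)) * t i))),
        (1 - Real.exp (-((l₁ - 2 * (l₁ - l₂) * (s - 1 / 4)) * t i))) - s *
          (2 * (l₁ - l₂) * t i * Real.exp (-((l₁ - 2 * (l₁ - l₂) * (s - 1 / 4)) * t i)))] :
        Fin 3 → ℝ) c) s := by
  have h0 : HasDerivAt (fun x : ℝ => -((l₁ - 2 * (l₁ - l₂) * (x - 1 / 4)) * t i))
      (2 * (l₁ - l₂) * t i) s := by
    have h1 : HasDerivAt (fun x : ℝ => x - 1 / 4) 1 s := (hasDerivAt_id s).sub_const _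
    have h2 := ((h1.const_mul (2 * (l₁ - l₂))).const_sub l₁).mul_const (t i)
    have h3 := h2.neg
    refine h3.congr_deriv ?_
    ring
  have he : HasDerivAt
      (fun x : ℝ => Real.exp (-((l₁ - 2 * (l₁ - l₂) * (x - 1 / 4)) * t i)))
      (2 * (l₁ - l₂) * t i * Real.exp (-((l₁ - 2 * (l₁ - l₂) * (s - 1 / 4)) * t i))) s := by
    refine h0.exp.congr_deriv ?_
    ring
  have hi : HasDerivAt (fun x : ℝ => x) 1 s := hasDerivAt_id s
  have h01 := (he.const_sub 1)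
  fin_cases c
  · simpa [ws] using he
  · have h2 := h01.mul (hi.const_sub 1)
    simp only [ws, Fin.mk_one, Matrix.cons_val_one, Matrix.cons_val_zero]
    refine h2.congr_deriv ?_
    ring
  · have h2 := h01.mul hi
    simp only [ws, Fin.reduceFinMk, Matrix.cons_val]
    refine h2.congr_deriv ?_
    ring

/-- Choose `v = δ (1 - δ)` (if `1 ≤ δ` or `1/2 ≤ δ` the claim follows from monotonicity below; in
general the contradiction hypothesis gives `δ < 1 - δ`), `L = 2 (1 + C₁) / p`, and `M` from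
`kkl_large hp hv hL`. Path: `l s = l₁ - 2 (l₁ - l₂) (s - 1/4)`, `g s = Ex (ws t (l s) s) (one ∘ F)` for
`s ∈ [1/4, 3/4]`; `l (1/4) = l₁`, `l (3/4) = l₂`. By `hasDerivAt_Ex`
`g' s = ∑ i, Ex (fun ω => ∑ c, w' i c * one (F (update ω i c)))` with
`w' i 0 = κ i := 2 (l₁ - l₂) (t i) exp (-(l t i)) ≥ 0`,
`w' i 1 = -(1 - e i) - (1 - s) κ i`, `w' i 2 = (1 - e i) - s κ i`, `e i = exp (-(l t i))`.
For monotone `F` the inner sum is at least `(1 - e i) one (Piv F 1 2 i ω) - κ i one (Piv F 0 2 i ω)`,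
`one (Piv F 0 2) = one (Piv F 0 1) + one (Piv F 1 2)`, `1 - e i ≥ 4 p` and `κ i (1 + C₁) ≤ p`, so with
`A = ∑ Ex (one Piv 0 1)`, `B = ∑ Ex (one Piv 1 2)`, `A ≤ C₁ B`:
`g' ≥ 4 p B - κ (A + B) ≥ 3 p B ≥ 3 p / (1 + C₁) * ∑ i, Inf (ws ..) F i`, because
`Dep F i ω ↔ Piv F 0 2 i ω` for monotone `F` and so `∑ Inf = A + B ≤ (1 + C₁) B`. In particular `g` is
monotone on `[1/4, 3/4]`. If `g (3/4) < 1 - δ` then `δ ≤ g s < 1 - δ` on `[1/4, 3/4]`, so
`v ≤ g (1 - g)`; the weights satisfy `IsW p` (`4 p ≤ e i`, `4 p ≤ 1 - e i`, `s, 1 - s ≥ 1/4`).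
Symmetry: `Inf (σ i) = Inf i` (reindex the sum over `ω` by `ω ↦ ω ∘ σ`; `ws t l s (σ i) = ws t l s i`;
`update (ω ∘ σ) i c = (update ω (σ i) c) ∘ σ`), so `Inf ((σ ^ j) i) = Inf i`, and `i, σ i, .., σ^(M-1) i`
are different, hence `M * Inf i ≤ ∑ Inf`. By `kkl_large` `L ≤ ∑ Inf`, so `g' ≥ 3 p L / (1 + C₁) = 6` on
the whole interval and `g (3/4) - g (1/4) ≥ 3 > 1` (mean value theorem, e.g.
`Convex.mul_sub_le_image_sub_of_le_deriv` or `image_sub_le_mul_sub_of_deriv_le` type lemmas), while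
`0 ≤ g ≤ 1`: contradiction. -/
theorem abs_sharp {p C₁ δ : ℝ} (hp : 0 < p) (hC : 0 < C₁) (hδ : 0 < δ) : ∃ M : ℕ, 0 < M ∧
    ∀ (N : ℕ) (t : Fin N → ℝ) (l₁ l₂ : ℝ) (F : Om N → Prop) (σ : Equiv.Perm (Fin N)),
      0 < l₂ → l₂ ≤ l₁ → (∀ i, 0 < t i) → (∀ i, 4 * p ≤ Real.exp (-(l₁ * t i))) →
      (∀ i, 4 * p ≤ 1 - Real.exp (-(l₂ * t i))) →
      (∀ i, 2 * (l₁ - l₂) * t i * (1 + C₁) ≤ p) →
      (∀ ω ω' : Om N, ω ≤ ω' → F ω → F ω') →
      (∀ l s, l₂ ≤ l → l ≤ l₁ → 1 / 4 ≤ s → s ≤ 3 / 4 →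
        ∑ i, Ex (ws t l s) (fun ω => one (Piv F 0 1 i ω)) ≤
          C₁ * ∑ i, Ex (ws t l s) (fun ω => one (Piv F 1 2 i ω))) →
      (∀ i, t (σ i) = t i) → (∀ ω, F (ω ∘ σ) ↔ F ω) →
      (∀ i, ∀ j, 0 < j → j < M → (σ ^ j) i ≠ i) →
      δ ≤ Ex (ws t l₁ (1 / 4)) (fun ω => one (F ω)) →
      1 - δ ≤ Ex (ws t l₂ (3 / 4)) (fun ω => one (F ω)) := by
  have hv : 0 < δ ^ 2 := by positivity
  have hL : 0 < 2 * (1 + C₁) / p := by positivity
  obtain ⟨M, hM0, hM⟩ := kkl_large hp hv hL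
  refine ⟨M, hM0, ?_⟩
  intro N t l₁ l₂ F σ hl₂ hl ht he1 he2 hκ hF hAB hσt hσF hσM hd1
  by_contra hcon
  push Not at hcon
  set lam : ℝ → ℝ := fun x => l₁ - 2 * (l₁ - l₂) * (x - 1 / 4) with hlam
  set g : ℝ → ℝ := fun x => Ex (ws t (lam x) x) (fun ω => one (F ω)) with hg
  have lam1 : lam (1 / 4) = l₁ := by simp [hlam]
  have lam2 : lam (3 / 4) = l₂ := by simp only [hlam]; ring
  have hg1 : δ ≤ g (1 / 4) := by simp only [hg, lam1]; exact hd1
  have hg2 : g (3 / 4) < 1 - δ := by simp only [hg, lam2]; exact hcon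
  have hsum : ∀ x i, ∑ c, ws t (lam x) x i c = 1 := by
    intro x i
    rw [Fin.sum_univ_three]
    simp only [ws, Matrix.cons_val_zero, Matrix.cons_val_one, Matrix.cons_val]
    ring
  have hlamI : ∀ x, 1 / 4 ≤ x → x ≤ 3 / 4 → l₂ ≤ lam x ∧ lam x ≤ l₁ := by
    intro x h1 h2
    simp only [hlam]
    constructor
    · nlinarith [mul_nonneg (sub_nonneg.2 hl) (sub_nonneg.2 h2)]
    · nlinarith [mul_nonneg (sub_nonneg.2 hl) (sub_nonneg.2 h1)]
  have he : ∀ x, 1 / 4 ≤ x → x ≤ 3 / 4 → ∀ i, 4 * p ≤ Real.exp (-(lam x * t i)) ∧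
      4 * p ≤ 1 - Real.exp (-(lam x * t i)) := by
    intro x h1 h2 i
    obtain ⟨h3, h4⟩ := hlamI x h1 h2
    constructor
    · refine (he1 i).trans (Real.exp_le_exp.2 ?_)
      nlinarith [mul_nonneg (sub_nonneg.2 h4) (ht i).le]
    · have : Real.exp (-(lam x * t i)) ≤ Real.exp (-(l₂ * t i)) := by
        refine Real.exp_le_exp.2 ?_
        nlinarith [mul_nonneg (sub_nonneg.2 h3) (ht i).le]
      linarith [he2 i]
  have hW : ∀ x, 1 / 4 ≤ x → x ≤ 3 / 4 → IsW p (ws t (lam x) x) := by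
    intro x h1 h2
    refine ⟨fun i c => ?_, hsum x⟩
    obtain ⟨h3, h4⟩ := he x h1 h2 i
    fin_cases c
    · simp only [ws, Fin.zero_eta, Matrix.cons_val_zero]
      linarith
    · simp only [ws, Fin.mk_one, Matrix.cons_val_one, Matrix.cons_val_zero]
      nlinarith [mul_nonneg (sub_nonneg.2 h4) (by linarith : (0 : ℝ) ≤ 1 - x)]
    · simp only [ws, Fin.reduceFinMk, Matrix.cons_val]
      nlinarith [mul_nonneg (sub_nonneg.2 h4) (by linarith : (0 : ℝ) ≤ x)]
  have hw0 : ∀ x, 1 / 4 ≤ x → x ≤ 3 / 4 → ∀ i c, 0 ≤ ws t (lam x) x i c :=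
    fun x h1 h2 i c => hp.le.trans ((hW x h1 h2).1 i c)
  set κ : ℝ → Fin N → ℝ := fun x i =>
    2 * (l₁ - l₂) * t i * Real.exp (-(lam x * t i)) with hκdef
  have hκ0 : ∀ x i, 0 ≤ κ x i := by
    intro x i
    simp only [hκdef]
    have := sub_nonneg.2 hl
    have := (ht i).le
    positivity
  have hκ1 : ∀ x, 1 / 4 ≤ x → x ≤ 3 / 4 → ∀ i, κ x i ≤ p / (1 + C₁) := by
    intro x h1 h2 i
    rw [le_div_iff₀ (by linarith)]
    have h5 : Real.exp (-(lam x * t i)) ≤ 1 := by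
      linarith [(he x h1 h2 i).2]
    have h6 : 0 ≤ 2 * (l₁ - l₂) * t i * (1 + C₁) := by
      have := sub_nonneg.2 hl
      have := (ht i).le
      positivity
    calc κ x i * (1 + C₁) = 2 * (l₁ - l₂) * t i * (1 + C₁) * Real.exp (-(lam x * t i)) := by
          simp only [hκdef]; ring
      _ ≤ 2 * (l₁ - l₂) * t i * (1 + C₁) * 1 := mul_le_mul_of_nonneg_left h5 h6
      _ ≤ p := by rw [mul_one]; exact hκ i
  -- the derivative
  have hder : ∀ x, HasDerivAt g (∑ i, Ex (ws t (lam x) x) fun ω =>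
      ∑ c, (![κ x i, -(1 - Real.exp (-(lam x * t i))) - (1 - x) * κ x i,
        (1 - Real.exp (-(lam x * t i))) - x * κ x i] : Fin 3 → ℝ) c *
        one (F (Function.update ω i c))) x := by
    intro x
    exact hasDerivAt_Ex (fun y => ws t (lam y) y) (fun i =>
      ![κ x i, -(1 - Real.exp (-(lam x * t i))) - (1 - x) * κ x i,
        (1 - Real.exp (-(lam x * t i))) - x * κ x i]) x
      (fun i c => anp2_deriv t l₁ l₂ x i c) (hsum x) (fun ω => one (F ω))
  have hlow : ∀ x, 1 / 4 ≤ x → x ≤ 3 / 4 →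
      3 * p / (1 + C₁) * ∑ j, Inf (ws t (lam x) x) F j ≤ deriv g x := by
    intro x h1 h2
    rw [(hder x).deriv]
    set w := ws t (lam x) x with hw
    set A := ∑ i, Ex w (fun ω => one (Piv F 0 1 i ω)) with hA
    set B := ∑ i, Ex w (fun ω => one (Piv F 1 2 i ω)) with hB
    have hAB' : A ≤ C₁ * B := hAB (lam x) x (hlamI x h1 h2).1 (hlamI x h1 h2).2 h1 h2
    have hInf : ∑ j, Inf w F j = A + B := by
      rw [hA, hB, ← Finset.sum_add_distrib]
      refine Finset.sum_congr rfl fun i _ => ?_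
      unfold Inf
      rw [← Ex_add]
      congr 1
      funext ω
      exact anp2_dep hF i ω
    have hsumlow : ∑ i, (4 * p * Ex w (fun ω => one (Piv F 1 2 i ω)) -
        p / (1 + C₁) * (Ex w (fun ω => one (Piv F 0 1 i ω)) +
          Ex w (fun ω => one (Piv F 1 2 i ω)))) ≤
        ∑ i, Ex w fun ω => ∑ c, (![κ x i, -(1 - Real.exp (-(lam x * t i))) - (1 - x) * κ x i,
        (1 - Real.exp (-(lam x * t i))) - x * κ x i] : Fin 3 → ℝ) c *
        one (F (Function.update ω i c)) := by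
      refine Finset.sum_le_sum fun i _ => ?_
      have h3 : Ex w (fun ω => (1 - Real.exp (-(lam x * t i))) * one (Piv F 1 2 i ω) -
          κ x i * (one (Piv F 0 1 i ω) + one (Piv F 1 2 i ω))) ≤
          Ex w fun ω => ∑ c, (![κ x i, -(1 - Real.exp (-(lam x * t i))) - (1 - x) * κ x i,
          (1 - Real.exp (-(lam x * t i))) - x * κ x i] : Fin 3 → ℝ) c *
          one (F (Function.update ω i c)) :=
        Ex_mono (hw0 x h1 h2) fun ω => anp2_sum hF i ω (hκ0 x i) (by linarith)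
      refine le_trans ?_ h3
      rw [Ex_sub, Ex_mul_left, Ex_mul_left, Ex_add]
      have hE1 : 0 ≤ Ex w (fun ω => one (Piv F 1 2 i ω)) :=
        Ex_nonneg (hw0 x h1 h2) fun ω => one_nonneg _
      have hE0 : 0 ≤ Ex w (fun ω => one (Piv F 0 1 i ω)) :=
        Ex_nonneg (hw0 x h1 h2) fun ω => one_nonneg _
      have h4 := mul_le_mul_of_nonneg_right (he x h1 h2 i).2 hE1
      have h5 := mul_le_mul_of_nonneg_right (hκ1 x h1 h2 i) (add_nonneg hE0 hE1)
      linarith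
    refine le_trans ?_ hsumlow
    rw [hInf, Finset.sum_sub_distrib, ← Finset.mul_sum, ← Finset.mul_sum,
      Finset.sum_add_distrib, ← hA, ← hB]
    have hC1 : 0 < 1 + C₁ := by linarith
    have h6 : p / (1 + C₁) * (A + B) ≤ p * B := by
      rw [div_mul_eq_mul_div, div_le_iff₀ hC1]
      nlinarith [mul_le_mul_of_nonneg_left hAB' hp.le]
    have h7 : 3 * p / (1 + C₁) * (A + B) ≤ 3 * (p * B) := by
      calc 3 * p / (1 + C₁) * (A + B) = 3 * (p / (1 + C₁) * (A + B)) := by ring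
        _ ≤ 3 * (p * B) := by linarith
    linarith
  have hInf0 : ∀ x, 1 / 4 ≤ x → x ≤ 3 / 4 → 0 ≤ ∑ j, Inf (ws t (lam x) x) F j :=
    fun x h1 h2 => Finset.sum_nonneg fun j _ => Ex_nonneg (hw0 x h1 h2) fun ω => one_nonneg _
  have hcont : ContinuousOn g (Set.Icc (1 / 4) (3 / 4)) :=
    fun x _ => (hder x).continuousAt.continuousWithinAt
  have hdiff : DifferentiableOn ℝ g (interior (Set.Icc (1 / 4) (3 / 4))) :=
    fun x _ => (hder x).differentiableAt.differentiableWithinAt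
  have hmono : MonotoneOn g (Set.Icc (1 / 4) (3 / 4)) := by
    refine monotoneOn_of_deriv_nonneg (convex_Icc _ _) hcont hdiff fun x hx => ?_
    rw [interior_Icc] at hx
    refine le_trans ?_ (hlow x hx.1.le hx.2.le)
    have := hInf0 x hx.1.le hx.2.le
    positivity
  have hbd : ∀ x, 1 / 4 ≤ x → x ≤ 3 / 4 → 6 ≤ deriv g x := by
    intro x h1 h2
    have m1 : (1 / 4 : ℝ) ∈ Set.Icc (1 / 4 : ℝ) (3 / 4) := ⟨le_rfl, by norm_num⟩
    have m2 : (3 / 4 : ℝ) ∈ Set.Icc (1 / 4 : ℝ) (3 / 4) := ⟨by norm_num, le_rfl⟩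
    have mx : x ∈ Set.Icc (1 / 4 : ℝ) (3 / 4) := ⟨h1, h2⟩
    have h3 : δ ≤ g x := hg1.trans (hmono m1 mx h1)
    have h4 : g x < 1 - δ := (hmono mx m2 h2).trans_lt hg2
    have h5 : δ ^ 2 ≤ Ex (ws t (lam x) x) (fun ω => one (F ω)) *
        (1 - Ex (ws t (lam x) x) (fun ω => one (F ω))) := by
      change δ ^ 2 ≤ g x * (1 - g x)
      nlinarith [mul_nonneg (sub_nonneg.2 h3) (by linarith : (0 : ℝ) ≤ 1 - g x - δ)]
    have h6 := hM N (ws t (lam x) x) F (hW x h1 h2) h5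
      (fun i => anp2_inf_le (hw0 x h1 h2) (fun i => by simp only [ws, hσt]) hσF hσM i)
    refine le_trans ?_ (hlow x h1 h2)
    have hC1 : 0 < 1 + C₁ := by linarith
    calc (6 : ℝ) = 3 * p / (1 + C₁) * (2 * (1 + C₁) / p) := by field_simp; norm_num
      _ ≤ 3 * p / (1 + C₁) * ∑ j, Inf (ws t (lam x) x) F j :=
        mul_le_mul_of_nonneg_left h6 (by positivity)
  have hfin := (convex_Icc (1 / 4 : ℝ) (3 / 4)).mul_sub_le_image_sub_of_le_deriv hcont hdiff
    (C := 6) (fun x hx => by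
      rw [interior_Icc] at hx
      exact hbd x hx.1.le hx.2.le)
    (1 / 4) ⟨le_rfl, by norm_num⟩ (3 / 4) ⟨by norm_num, le_rfl⟩ (by norm_num)
  norm_num at hfin
  linarith

end Pool.Agent.Helper28.AN
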