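import Mathlib
import Pool.Agent.Helper28.AN.Defs
import Pool.Agent.Helper28.AN.St.L1

/-!
Project AN (MP_8410f8_pr), piece S2.
-/

open MeasureTheory Set Filter Topology
open scoped ENNReal

namespace Pool.Agent.Helper28.AN

open Pool.Agent.Helper97.BG

theorem adjM_rot {d : ℕ} {a h : ℝ} (R : V d ≃ₗᵢ[ℝ] V d) (p q : Sph d × Bool) :
    adjM a h (rot R p.1, p.2) (rot R q.1, q.2) ↔ adjM a h p q := by
  have e : ‖((rot R p.1 : Sph d) : V d) + (rot R q.1 : Sph d)‖ = ‖(p.1 : V d) + q.1‖ := by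
    change ‖R (p.1 : V d) + R (q.1 : V d)‖ = _
    rw [← map_add, R.norm_map]
  simp only [adjM, e]

theorem rot_symm_rot {d : ℕ} (R : V d ≃ₗᵢ[ℝ] V d) (x : Sph d) : rot R.symm (rot R x) = x := by
  apply Subtype.ext
  change R.symm (R (x : V d)) = x
  exact R.symm_apply_apply _

theorem rot_rot_symm {d : ℕ} (R : V d ≃ₗᵢ[ℝ] V d) (x : Sph d) : rot R (rot R.symm x) = x := by
  apply Subtype.ext
  change R (R.symm (x : V d)) = x
  exact R.apply_symm_apply _

/-- `NC_hom` in both directions with `φ (x, b) = (rot R x, b)` and its inverse: `rot R` maps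
`cfg z U (ω ∘ σ)` onto `cfg z U ω`, and `‖R x + R y‖ = ‖x + y‖`. -/
theorem FF_perm {d N k : ℕ} {a h : ℝ} (z : Fin N → Sph d) (U : Set (Sph d))
    (σ : Equiv.Perm (Fin N)) (R : V d ≃ₗᵢ[ℝ] V d) (hz : ∀ i, z (σ i) = rot R (z i))
    (hU : ∀ u, u ∈ U ↔ rot R u ∈ U) (ω : Om N) : FF a h k z U (ω ∘ σ) ↔ FF a h k z U ω := by
  constructor
  · intro hF
    refine NC_hom (W := cfg z U (ω ∘ σ)) (fun p => (rot R p.1, p.2)) ?_
      (fun p _ q _ hpq => (adjM_rot R p q).2 hpq) hF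
    rintro p (⟨i, hi, hs⟩ | ⟨hu, hb⟩)
    · refine Or.inl ⟨σ i, ?_, hs⟩
      change rot R p.1 = z (σ i)
      rw [hi, hz]
    · exact Or.inr ⟨(hU p.1).1 hu, hb⟩
  · intro hF
    refine NC_hom (W := cfg z U ω) (fun p => (rot R.symm p.1, p.2)) ?_
      (fun p _ q _ hpq => (adjM_rot R.symm p q).2 hpq) hF
    rintro p (⟨i, hi, hs⟩ | ⟨hu, hb⟩)
    · refine Or.inl ⟨σ.symm i, ?_, ?_⟩
      · change rot R.symm p.1 = z (σ.symm i)
        have h1 := hz (σ.symm i)
        rw [Equiv.apply_symm_apply] at h1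
        rw [hi, h1, rot_symm_rot]
      · simp only [Function.comp, Equiv.apply_symm_apply]
        exact hs
    · refine Or.inr ⟨?_, hb⟩
      change rot R.symm p.1 ∈ U
      rw [hU, rot_rot_symm]
      exact hu

end Pool.Agent.Helper28.AN
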