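import Mathlib
import Pool.Agent.Helper28.AN.Defs
import Pool.Agent.Helper28.AN.St.P2
import Pool.Agent.Helper28.AN.St.L2
import Pool.Agent.Helper28.AN.St.L3
import Pool.Agent.Helper28.AN.St.S2
import Pool.Agent.Helper94.B2.St.G1
import Pool.Agent.Helper97.BG.St.G1

/-!
Project AN (MP_8410f8_pr), piece A0: comparison of influences for separated systems.
-/

open MeasureTheory Set Filter Topology
open scoped ENNReal

namespace Pool.Agent.Helper28.AN

open Pool.Agent.Helper97.BG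

theorem ball_card {d N : ℕ} {ρ r κ : ℝ} (hρ : 0 < ρ) (hr : 0 ≤ r) (hrκ : r ≤ κ * ρ)
    (z : Fin N → Sph d) (hz : ∀ i j, i ≠ j → ρ ≤ ‖(z i : V d) - z j‖) (y : V d) :
    (({j | ‖(z j : V d) - y‖ < r} : Set (Fin N)).ncard : ℝ) ≤ (1 + 2 * κ) ^ (d + 1) := by
  classical
  set S : Finset (Fin N) := Finset.univ.filter fun j => ‖(z j : V d) - y‖ < r with hS
  have h0 : {j | ‖(z j : V d) - y‖ < r} = (S : Set (Fin N)) := by
    ext j
    simp [hS]
  rw [h0, Set.ncard_coe_finset]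
  have hinj : Function.Injective fun j => (z j : V d) := by
    intro i j hij
    by_contra hne
    have h1 := hz i j hne
    simp only at hij
    rw [hij, sub_self, norm_zero] at h1
    linarith
  rw [← Finset.card_image_of_injective S hinj]
  refine (Helper94.B2.packing y hρ hr _ ?_ ?_).trans ?_
  · intro a ha b hb hab
    obtain ⟨i, hi, rfl⟩ := Finset.mem_image.1 ha
    obtain ⟨j, hj, rfl⟩ := Finset.mem_image.1 hb
    exact hz i j (fun h => hab (by rw [h]))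
  · intro a ha
    obtain ⟨i, hi, rfl⟩ := Finset.mem_image.1 ha
    exact (Finset.mem_filter.1 hi).2.le
  · apply pow_le_pow_left₀ (by positivity)
    have : 2 * r / ρ ≤ 2 * κ := by
      rw [div_le_iff₀ hρ]
      linarith
    linarith

/-- Number of the centres near a pair of antipodal points. -/
theorem nb_card {d N : ℕ} {ρ r κ : ℝ} (hρ : 0 < ρ) (hr : 0 ≤ r) (hrκ : r ≤ κ * ρ)
    (z : Fin N → Sph d) (hz : ∀ i j, i ≠ j → ρ ≤ ‖(z i : V d) - z j‖) (x : Sph d) :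
    (({j | nrm x (z j) < r} : Set (Fin N)).ncard : ℝ) ≤ 2 * (1 + 2 * κ) ^ (d + 1) := by
  have h1 : ({j | nrm x (z j) < r} : Set (Fin N)) ⊆
      {j | ‖(z j : V d) - x‖ < r} ∪ {j | ‖(z j : V d) - -(x : V d)‖ < r} := by
    intro j hj
    simp only [Set.mem_ofPred_eq, nrm, min_lt_iff] at hj
    rcases hj with h | h
    · exact Or.inl h
    · right
      simp only [Set.mem_ofPred_eq, sub_neg_eq_add]
      exact h
  have h2 : ({j | nrm x (z j) < r} : Set (Fin N)).ncard ≤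
      ({j | ‖(z j : V d) - x‖ < r} : Set (Fin N)).ncard +
        ({j | ‖(z j : V d) - -(x : V d)‖ < r} : Set (Fin N)).ncard :=
    (Set.ncard_le_ncard h1 (Set.toFinite _)).trans (Set.ncard_union_le _ _)
  have h3 := ball_card hρ hr hrκ z hz (x : V d)
  have h4 := ball_card hρ hr hrκ z hz (-(x : V d))
  have h5 : (({j | nrm x (z j) < r} : Set (Fin N)).ncard : ℝ) ≤
      (({j | ‖(z j : V d) - x‖ < r} : Set (Fin N)).ncard : ℝ) +
        (({j | ‖(z j : V d) - -(x : V d)‖ < r} : Set (Fin N)).ncard : ℝ) := by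
    exact_mod_cast h2
  linarith

/-- Comparison of influences for a separated and covering system. -/
theorem infl_cmp {d N k b : ℕ} {a h ρ p κ : ℝ} (hk : 2 ≤ k) (ha : 0 < a) (ha1 : a ≤ 1 / 100)
    (hha : 2 * h ≤ a) (hρ : 0 < ρ) (hρh : 4 * ρ ≤ h) (hcurv : 128 * a ^ 2 ≤ ρ)
    (z : Fin N → Sph d) (U : Set (Sph d)) (hU : ∀ u ∈ U, -u ∈ U)
    (hsep : ∀ i j, i ≠ j → ρ ≤ ‖(z i : V d) - z j‖)
    (hcov : ∀ x : Sph d, (∃ u ∈ U, ‖(x : V d) - u‖ < ρ) ∨ ∃ i, ‖(x : V d) - z i‖ < ρ)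
    (hp : 0 < p) (hp1 : p ≤ 1) (hκ : 16 * a ≤ κ * ρ) (hb : 2 * (1 + 2 * κ) ^ (d + 1) ≤ b)
    {w : Fin N → Fin 3 → ℝ} (hw : IsW p w) :
    ∑ i, Ex w (fun ω => one (Piv (FF a h k z U) 0 1 i ω)) ≤
      b * (1 / p) ^ b * ∑ i, Ex w (fun ω => one (Piv (FF a h k z U) 1 2 i ω)) := by
  refine infl_of_local hp hp1 hw _ (fun i l => nrm (z i) (z l) < 16 * a)
    (fun i j h => by rw [nrm_symm]; exact h) b ?_ ?_
  · intro i
    have h1 := nb_card hρ (by positivity) hκ z hsep (z i)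
    have h2 : (({j | nrm (z i) (z j) < 16 * a} : Set (Fin N)).ncard : ℝ) ≤ b := h1.trans hb
    exact_mod_cast h2
  · intro i ω hi
    obtain ⟨j, ω', hj, hω', hP⟩ :=
      local_lemma hk ha ha1 hha hρ hρh hcurv z U hU hcov i ω hi
    exact ⟨j, ω', hj, fun l hl => hω' l (not_lt.1 hl), hP⟩

end Pool.Agent.Helper28.AN
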