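import Mathlib
import Pool.Agent.Helper28.AN.Defs
import Pool.Agent.Helper97.BG.St.V1

/-!
Project AN (MP_8410f8_pr), piece M1.
-/

open MeasureTheory Set Filter Topology
open scoped ENNReal

namespace Pool.Agent.Helper28.AN

open Pool.Agent.Helper97.BG

private lemma anm1_measurable (d : ℕ) (R : V d ≃ₗᵢ[ℝ] V d) : Measurable (rot R) :=
  (R.continuous.measurable.comp measurable_subtype_coe).subtype_mk

open scoped Pointwise in
private lemma anm1_cone (d : ℕ) (R : V d ≃ₗᵢ[ℝ] V d) (s : Set (Sph d)) :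
    Ioo (0 : ℝ) 1 • ((fun x : Sph d => (x : V d)) '' (rot R ⁻¹' s)) =
      R ⁻¹' (Ioo (0 : ℝ) 1 • ((fun x : Sph d => (x : V d)) '' s)) := by
  ext y
  constructor
  · rintro ⟨t, ht, _, ⟨x, hx, rfl⟩, rfl⟩
    refine ⟨t, ht, R x, ⟨rot R x, hx, rfl⟩, ?_⟩
    simp
  · rintro ⟨t, ht, _, ⟨x, hx, rfl⟩, hxy⟩
    have hxn : ‖(x : V d)‖ = 1 := mem_sphere_zero_iff_norm.1 x.2
    have hn : ‖R.symm (x : V d)‖ = 1 := by rw [R.symm.norm_map, hxn]
    refine ⟨t, ht, R.symm x, ⟨⟨R.symm x, mem_sphere_zero_iff_norm.2 hn⟩, ?_, rfl⟩, ?_⟩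
    · have : rot R ⟨R.symm x, mem_sphere_zero_iff_norm.2 hn⟩ = x := by
        apply Subtype.ext
        simp [rot]
      rw [mem_preimage, this]
      exact hx
    · apply R.injective
      simp only at hxy
      rw [← hxy]
      simp

open scoped Pointwise in
/-- `sig d` is a multiple of `(volume : Measure (V d)).toSphere`. `Measure.toSphere_apply'`-type lemma:
`toSphere s = dim * volume (Ioo 0 1 • s)` for measurable `s`; the cone over `rot R ⁻¹' s` is the preimage
of the cone over `s` under `R`, and `R` preserves the volume (`LinearIsometryEquiv.measurePreserving`).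
See `Helper97/BG/St/V1.lean` for computations with `toSphere`. -/
theorem map_rot_sig (d : ℕ) (R : V d ≃ₗᵢ[ℝ] V d) : (sig d).map (rot R) = sig d := by
  have hrot := anm1_measurable d R
  unfold sig
  rw [Measure.map_smul]
  congr 1
  ext s hs
  rw [Measure.map_apply hrot hs, Measure.toSphere_apply' _ (hrot hs), Measure.toSphere_apply' _ hs]
  congr 1
  have h1 := anm1_cone d R s
  have h2 : volume (R ⁻¹' (Ioo (0 : ℝ) 1 • ((fun x : Sph d => (x : V d)) '' s))) =
      volume (Ioo (0 : ℝ) 1 • ((fun x : Sph d => (x : V d)) '' s)) :=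
    R.measurePreserving.measure_preimage_equiv (f := R.toMeasurableEquiv) _
  rw [← h2, ← h1]

end Pool.Agent.Helper28.AN
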