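import Mathlib
import Pool.Agent.Helper28.AN.Defs
import Pool.Agent.Helper28.AN.St.M1
import Pool.Agent.Helper97.BG.St.M1
import Pool.Agent.Helper97.BG.St.P1
import Pool.Agent.Helper97.BG.St.P2

/-!
Project AN (MP_8410f8_pr), piece F1a.
-/

open MeasureTheory Set Filter Topology
open scoped ENNReal

namespace Pool.Agent.Helper28.AN

open Pool.Agent.Helper97.BG

theorem anf1a_rot_cont {d : ℕ} (g : V d ≃ₗᵢ[ℝ] V d) : Continuous (rot g) := by
  unfold rot
  exact (g.continuous.comp continuous_subtype_val).subtype_mk _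

theorem anf1a_norm_rot {d : ℕ} (g : V d ≃ₗᵢ[ℝ] V d) (u v : Sph d) :
    ‖(rot g u : V d) + rot g v‖ = ‖(u : V d) + v‖ := by
  have h : (rot g u : V d) + rot g v = g ((u : V d) + v) := by
    rw [map_add]; rfl
  rw [h, g.norm_map]

/-- Colourability passes from the rotated set back to the set. -/
theorem anf1a_col_rot {d k : ℕ} {a : ℝ} (g : V d ≃ₗᵢ[ℝ] V d) {W : Set (Sph d)}
    (h : Col a k (rot g '' W)) : Col a k W := by
  obtain ⟨c, hc⟩ := h
  refine ⟨fun u => c (rot g u), fun u hu v hv huv => ?_⟩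
  apply hc _ (mem_image_of_mem _ hu) _ (mem_image_of_mem _ hv)
  rw [anf1a_norm_rot]
  exact huv

/-- Moving points of a set by less than `ρ`. -/
theorem anf1a_col_move {d k : ℕ} {a ρ : ℝ} (hρ : 0 ≤ ρ) {A Z Y : Set (Sph d)}
    (h : ∀ z ∈ Z, ∃ y ∈ Y, ‖(y : V d) - z‖ < ρ) (hc : Col (a + 2 * ρ) k (A ∪ Y)) :
    Col a k (A ∪ Z) := by
  classical
  obtain ⟨c, hc⟩ := hc
  have hφ : ∀ x ∈ A ∪ Z, ∃ y ∈ A ∪ Y, ‖(y : V d) - x‖ ≤ ρ := by
    intro x hx
    by_cases hxA : x ∈ A
    · exact ⟨x, Or.inl hxA, by simpa using hρ⟩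
    · obtain ⟨y, hy, hxy⟩ := h x (hx.resolve_left hxA)
      exact ⟨y, Or.inr hy, hxy.le⟩
  refine ⟨fun x => if hx : x ∈ A ∪ Z then c (hφ x hx).choose else c x, ?_⟩
  intro u hu v hv huv
  simp only [dif_pos hu, dif_pos hv]
  obtain ⟨hu1, hu2⟩ := (hφ u hu).choose_spec
  obtain ⟨hv1, hv2⟩ := (hφ v hv).choose_spec
  refine hc _ hu1 _ hv1 ?_
  have e : (((hφ u hu).choose : Sph d) : V d) + ((hφ v hv).choose : Sph d) =
      ((u : V d) + v) + ((((hφ u hu).choose : Sph d) : V d) - u) +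
        ((((hφ v hv).choose : Sph d) : V d) - v) := by
    abel
  rw [e]
  calc _ ≤ ‖((u : V d) + v)‖ + ‖((((hφ u hu).choose : Sph d) : V d) - u)‖ +
        ‖((((hφ v hv).choose : Sph d) : V d) - v)‖ := norm_add₃_le
    _ < a + 2 * ρ := by linarith

theorem anf1a_ind_le {p q : Prop} (h : p → q) : ind p ≤ ind q := by
  classical
  unfold ind
  by_cases hp : p
  · simp [hp, h hp]
  · simp [hp]

/-- Replace a finite set `U` by points near a rotated copy of it.
Write `mu = ENNReal.ofReal l • sig d`; `mu.map (rot g) = mu` (`map_rot_sig`, `Measure.map_smul`), so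
`X ↦ fun i => rot g (X i)` preserves `Measure.pi fun _ => mu` (`measurePreserving_pi`), and
`Col a k (rot g '' W) ↔ Col a k W` for every `W` (an isometry; `rot g` is injective). Hence
`tup mu n (fun A => ind (¬ Col a k (A ∪ U))) = tup mu n (fun A => ind (¬ Col a k (A ∪ rot g '' U)))` for all
`n` (measurability: `MS_notCol`, `MS_union_left`), the same for `Poi`. Finally
`¬ Col a k (A ∪ rot g '' U) → ¬ Col (a + 2 * ρ) k (A ∪ Y)`: pull a colouring `c` of `A ∪ Y` back along
`φ x = x` for `x ∈ A` and `φ (rot g u) =` a point `y ∈ Y` with `‖y - rot g u‖ < ρ` for `rot g u ∉ A`;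
`‖x + x'‖ < a` gives `‖φ x + φ x'‖ < a + 2 * ρ`. -/
theorem fill_step {d k : ℕ} {a ρ l : ℝ} (hρ : 0 ≤ ρ) {U : Set (Sph d)}
    (hU : U.Finite) (g : V d ≃ₗᵢ[ℝ] V d) {Y : Set (Sph d)}
    (h : ∀ u ∈ U, ∃ y ∈ Y, ‖(y : V d) - rot g u‖ < ρ) :
    Poi (ENNReal.ofReal l • sig d) (fun A => ind (¬ Col a k (A ∪ U))) ≤
      Poi (ENNReal.ofReal l • sig d) (fun A => ind (¬ Col (a + 2 * ρ) k (A ∪ Y))) := by
  have : IsFiniteMeasure (sig d) := by
    unfold sig; infer_instance
  have hfin : IsFiniteMeasure (ENNReal.ofReal l • sig d) :=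
    Measure.smul_finite _ ENNReal.ofReal_ne_top
  have hmap : MeasurePreserving (rot g) (ENNReal.ofReal l • sig d) (ENNReal.ofReal l • sig d) := by
    refine ⟨(anf1a_rot_cont g).measurable, ?_⟩
    rw [Measure.map_smul, map_rot_sig]
  unfold Poi
  gcongr with n
  unfold tup
  have hT : MeasurePreserving (fun X : Fin n → Sph d => fun i => rot g (X i))
      (Measure.pi fun _ : Fin n => ENNReal.ofReal l • sig d)
      (Measure.pi fun _ : Fin n => ENNReal.ofReal l • sig d) :=
    measurePreserving_pi _ _ fun _ => hmap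
  have hF : Measurable fun X : Fin n → Sph d => ind (¬ Col a k (rot g '' U ∪ Set.range X)) :=
    MS_union_left (MS_notCol a k) (hU.image _) n
  calc ∫⁻ X : Fin n → Sph d, ind (¬ Col a k (Set.range X ∪ U))
          ∂(Measure.pi fun _ => ENNReal.ofReal l • sig d)
      ≤ ∫⁻ X : Fin n → Sph d, ind (¬ Col a k (rot g '' U ∪ Set.range fun i => rot g (X i)))
          ∂(Measure.pi fun _ => ENNReal.ofReal l • sig d) := by
        refine lintegral_mono fun X => anf1a_ind_le ?_
        intro h1 h2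
        apply h1
        apply anf1a_col_rot g
        rw [image_union, union_comm, ← range_comp]
        exact h2
    _ = ∫⁻ X : Fin n → Sph d, ind (¬ Col a k (rot g '' U ∪ Set.range X))
          ∂(Measure.pi fun _ => ENNReal.ofReal l • sig d) := hT.lintegral_comp hF
    _ ≤ ∫⁻ X : Fin n → Sph d, ind (¬ Col (a + 2 * ρ) k (Set.range X ∪ Y))
          ∂(Measure.pi fun _ => ENNReal.ofReal l • sig d) := by
        refine lintegral_mono fun X => anf1a_ind_le ?_
        intro h1 h2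
        apply h1
        rw [union_comm]
        refine anf1a_col_move hρ ?_ h2
        rintro _ ⟨u, hu, rfl⟩
        exact h u hu

end Pool.Agent.Helper28.AN
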