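import Mathlib
import Pool.Agent.Helper28.AN.Defs
import Pool.Agent.Helper94.B2.St.G1
import Pool.Agent.Helper97.BG.St.P1
import Pool.Agent.Helper97.BG.St.P2
import Pool.Agent.Helper97.BG.St.P3
import Pool.Agent.Helper97.BG.St.P4
import Pool.Agent.Helper97.BG.St.P6
import Pool.Agent.Helper97.BG.St.P8
import Pool.Agent.Helper97.BG.St.G1
import Pool.Agent.Helper97.BG.St.V1

/-!
Project AN (MP_8410f8_pr), piece F1b.
-/

open MeasureTheory Set Filter Topology
open scoped ENNReal

namespace Pool.Agent.Helper28.AN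

open Pool.Agent.Helper97.BG

private theorem anf1b_ind_meas {Y : Type*} [MeasurableSpace Y] {P : Y → Prop}
    (h : MeasurableSet {y | P y}) : Measurable fun y => ind (P y) := by
  classical
  unfold ind
  exact Measurable.ite h measurable_const measurable_const

private theorem anf1b_ind_le_one (p : Prop) : ind p ≤ 1 := by
  classical
  unfold ind
  split_ifs <;> simp

private theorem anf1b_ind_mono {p q : Prop} (h : p → q) : ind p ≤ ind q := by
  classical
  unfold ind
  by_cases hp : p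
  · simp [hp, h hp]
  · simp [hp]

private theorem anf1b_ind_add (p : Prop) : ind p + ind (¬ p) = 1 := by
  classical
  unfold ind
  by_cases hp : p <;> simp [hp]

private theorem anf1b_meas {S : Type*} [MeasurableSpace S] {ι' : Type*} [Finite ι']
    (B : ι' → Set S) (hB : ∀ x, MeasurableSet (B x)) (n : ℕ) :
    MeasurableSet {X : Fin n → S | ∀ x, (Set.range X ∩ B x).Nonempty} := by
  have h : {X : Fin n → S | ∀ x, (Set.range X ∩ B x).Nonempty} =
      ⋂ x, ⋃ i : Fin n, (fun X : Fin n → S => X i) ⁻¹' (B x) := by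
    ext X
    simp only [Set.mem_ofPred_eq, Set.mem_iInter, Set.mem_iUnion, Set.mem_preimage]
    refine forall_congr' fun x => ?_
    constructor
    · rintro ⟨_, ⟨i, rfl⟩, hi⟩
      exact ⟨i, hi⟩
    · rintro ⟨i, hi⟩
      exact ⟨_, ⟨i, rfl⟩, hi⟩
  rw [h]
  exact MeasurableSet.iInter fun x => MeasurableSet.iUnion fun i => measurable_pi_apply i (hB x)

private theorem anf1b_MS {S : Type*} [MeasurableSpace S] {ι ι' : Type*} [Finite ι']
    (B : ι → ι' → Set S) (hB : ∀ m x, MeasurableSet (B m x)) (L : Finset ι) :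
    MS (fun A : Set S => ind (∀ m ∈ L, ¬ ∀ x, (A ∩ B m x).Nonempty)) := by
  intro n
  apply anf1b_ind_meas
  have h : {X : Fin n → S | ∀ m ∈ L, ¬ ∀ x, (Set.range X ∩ B m x).Nonempty} =
      ⋂ m ∈ L, {X : Fin n → S | ∀ x, (Set.range X ∩ B m x).Nonempty}ᶜ := by
    ext X
    simp only [Set.mem_iInter]
    rfl
  rw [h]
  exact Finset.measurableSet_biInter L fun m _ => (anf1b_meas (B m) (hB m) n).compl

private theorem anf1b_one {S : Type*} [MeasurableSpace S] {ι' : Type*} [Fintype ι']
    (mu : Measure S) [IsFiniteMeasure mu] (B : ι' → Set S) (hB : ∀ x, MeasurableSet (B x))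
    {Λ : ℝ} (hΛ : 0 ≤ Λ) (h1 : mu univ ≤ ENNReal.ofReal Λ) (κ : ℝ≥0∞)
    (hκ : ∀ x, κ ≤ mu (B x)) :
    Poi mu (fun A => ind (¬ ∀ x, (A ∩ B x).Nonempty)) ≤
      1 - ENNReal.ofReal (Real.exp (-Λ)) * (((Fintype.card ι').factorial : ℝ≥0∞))⁻¹ *
        κ ^ Fintype.card ι' := by
  have hms : MS (fun A : Set S => ind (∀ x, (A ∩ B x).Nonempty)) := by
    intro n
    exact anf1b_ind_meas (anf1b_meas B hB n)
  have h2 : Poi mu (fun A => ind (∀ x, (A ∩ B x).Nonempty)) +
      Poi mu (fun A => ind (¬ ∀ x, (A ∩ B x).Nonempty)) = 1 := by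
    rw [← Poi_add_fun mu hms, ← Poi_const mu 1]
    congr 1
    funext A
    exact anf1b_ind_add _
  have h3 := Poi_occ mu B hB κ hκ
  have h4 : ENNReal.ofReal (Real.exp (-Λ)) ≤ Pool.Agent.Helper97.BG.em mu := by
    unfold Pool.Agent.Helper97.BG.em
    apply ENNReal.ofReal_le_ofReal
    apply Real.exp_le_exp.2
    have := ENNReal.toReal_mono ENNReal.ofReal_ne_top h1
    rw [ENNReal.toReal_ofReal hΛ] at this
    linarith
  have h5 : ENNReal.ofReal (Real.exp (-Λ)) * (((Fintype.card ι').factorial : ℝ≥0∞))⁻¹ *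
        κ ^ Fintype.card ι' ≤ Poi mu (fun A => ind (∀ x, (A ∩ B x).Nonempty)) :=
    le_trans (by gcongr) h3
  have h6 : Poi mu (fun A => ind (∀ x, (A ∩ B x).Nonempty)) ≠ ∞ := by
    intro h
    rw [h, top_add] at h2
    exact ENNReal.top_ne_one h2
  have h7 : Poi mu (fun A => ind (¬ ∀ x, (A ∩ B x).Nonempty)) =
      1 - Poi mu (fun A => ind (∀ x, (A ∩ B x).Nonempty)) :=
    ENNReal.eq_sub_of_add_eq h6 (by rw [add_comm]; exact h2)
  rw [h7]
  exact tsub_le_tsub_left h5 1

private theorem anf1b_abs {S : Type*} [MeasurableSpace S] {ι ι' : Type*} [Fintype ι']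
    (D : ι → Set S) (B : ι → ι' → Set S) (hD : ∀ m, MeasurableSet (D m))
    (hB : ∀ m x, MeasurableSet (B m x)) (hBD : ∀ m x, B m x ⊆ D m)
    (hdisj : ∀ m m', m ≠ m' → Disjoint (D m) (D m'))
    {Λ : ℝ} (hΛ : 0 ≤ Λ) (κ : ℝ≥0∞) (L : Finset ι) :
    ∀ (mu : Measure S) [IsFiniteMeasure mu], (∀ m ∈ L, mu (D m) ≤ ENNReal.ofReal Λ) →
      (∀ m ∈ L, ∀ x, κ ≤ mu (B m x)) →
      Poi mu (fun A => ind (∀ m ∈ L, ¬ ∀ x, (A ∩ B m x).Nonempty)) ≤
        (1 - ENNReal.ofReal (Real.exp (-Λ)) * (((Fintype.card ι').factorial : ℝ≥0∞))⁻¹ *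
          κ ^ Fintype.card ι') ^ L.card := by
  classical
  induction L using Finset.induction_on with
  | empty =>
    intro mu _ _ _
    simp only [Finset.card_empty, pow_zero]
    exact Poi_le_one mu fun A => anf1b_ind_le_one _
  | insert m L hm ih =>
    intro mu _ h1 h2
    set θ : ℝ≥0∞ := ENNReal.ofReal (Real.exp (-Λ)) * (((Fintype.card ι').factorial : ℝ≥0∞))⁻¹ *
          κ ^ Fintype.card ι' with hθ
    rw [Poi_split mu (hD m) (anf1b_MS B hB (insert m L)), Finset.card_insert_of_notMem hm, pow_succ]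
    have hne : ∀ m' ∈ L, m' ≠ m := fun m' hm' h => hm (h ▸ hm')
    have hA : ∀ A : Set S, Poi (mu.restrict (D m)) (fun B' => ind (∀ m' ∈ insert m L,
        ¬ ∀ x, ((A ∪ B') ∩ B m' x).Nonempty)) ≤
        (1 - θ) * ind (∀ m' ∈ L, ¬ ∀ x, (A ∩ B m' x).Nonempty) := by
      intro A
      have hms : MS (fun B' : Set S => ind (¬ ∀ x, (B' ∩ B m x).Nonempty)) := by
        intro n
        exact anf1b_ind_meas (anf1b_meas (B m) (hB m) n).compl
      calc Poi (mu.restrict (D m)) (fun B' => ind (∀ m' ∈ insert m L,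
            ¬ ∀ x, ((A ∪ B') ∩ B m' x).Nonempty))
          ≤ Poi (mu.restrict (D m)) (fun B' => ind (∀ m' ∈ L, ¬ ∀ x, (A ∩ B m' x).Nonempty) *
              ind (¬ ∀ x, (B' ∩ B m x).Nonempty)) := by
            refine Poi_mono _ fun B' _ => ?_
            by_cases hp : ∀ m' ∈ insert m L, ¬ ∀ x, ((A ∪ B') ∩ B m' x).Nonempty
            · have e1 : ∀ m' ∈ L, ¬ ∀ x, (A ∩ B m' x).Nonempty := by
                intro m' hm' h
                exact hp m' (Finset.mem_insert_of_mem hm') fun x =>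
                  (h x).mono (Set.inter_subset_inter_left _ Set.subset_union_left)
              have e2 : ¬ ∀ x, (B' ∩ B m x).Nonempty := by
                intro h
                exact hp m (Finset.mem_insert_self _ _) fun x =>
                  (h x).mono (Set.inter_subset_inter_left _ Set.subset_union_right)
              have e3 : ind (∀ m' ∈ L, ¬ ∀ x, (A ∩ B m' x).Nonempty) = 1 := by
                unfold ind
                rw [if_pos e1]
              have e4 : ind (¬ ∀ x, (B' ∩ B m x).Nonempty) = 1 := by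
                unfold ind
                rw [if_pos e2]
              rw [e3, e4, one_mul]
              exact anf1b_ind_le_one _
            · have e3 : ind (∀ m' ∈ insert m L, ¬ ∀ x, ((A ∪ B') ∩ B m' x).Nonempty) = 0 := by
                unfold ind
                rw [if_neg hp]
              rw [e3]
              exact zero_le
        _ = ind (∀ m' ∈ L, ¬ ∀ x, (A ∩ B m' x).Nonempty) *
              Poi (mu.restrict (D m)) (fun B' => ind (¬ ∀ x, (B' ∩ B m x).Nonempty)) :=
            Poi_const_mul _ hms _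
        _ ≤ ind (∀ m' ∈ L, ¬ ∀ x, (A ∩ B m' x).Nonempty) * (1 - θ) := by
            refine mul_le_mul' le_rfl ?_
            apply anf1b_one _ (B m) (hB m) hΛ
            · rw [Measure.restrict_apply_univ]
              exact h1 m (Finset.mem_insert_self _ _)
            · intro x
              rw [Measure.restrict_apply (hB m x), Set.inter_eq_left.2 (hBD m x)]
              exact h2 m (Finset.mem_insert_self _ _) x
        _ = _ := mul_comm _ _
    refine le_trans (Poi_mono _ fun A _ => hA A) ?_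
    rw [Poi_const_mul _ (anf1b_MS B hB L), mul_comm]
    refine mul_le_mul' ?_ le_rfl
    apply ih
    · intro m' hm'
      exact le_trans (Measure.restrict_apply_le _ _) (h1 m' (Finset.mem_insert_of_mem hm'))
    · intro m' hm' x
      rw [Measure.restrict_apply (hB m' x)]
      have : B m' x ∩ (D m)ᶜ = B m' x := by
        apply Set.inter_eq_left.2
        intro y hy hy2
        exact Set.disjoint_left.1 (hdisj m' m (hne m' hm')) (hBD m' x hy) hy2
      rw [this]
      exact h2 m' (Finset.mem_insert_of_mem hm') x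

private theorem anf1b_nrm_tri {d : ℕ} (x y v : Sph d) : nrm x y ≤ nrm x v + nrm y v := by
  have h1 : nrm x y = min ‖(y : V d) - x‖ ‖(y : V d) + x‖ := rfl
  have h2 : nrm x v = min ‖(v : V d) - x‖ ‖(v : V d) + x‖ := rfl
  have h3 : nrm y v = min ‖(v : V d) - y‖ ‖(v : V d) + y‖ := rfl
  have e1 : ‖(y : V d) - x‖ ≤ ‖(v : V d) - x‖ + ‖(v : V d) - y‖ := by
    have : (y : V d) - x = ((v : V d) - x) - ((v : V d) - y) := by abel
    rw [this]
    exact norm_sub_le _ _
  have e2 : ‖(y : V d) - x‖ ≤ ‖(v : V d) + x‖ + ‖(v : V d) + y‖ := by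
    have : (y : V d) - x = ((v : V d) + y) - ((v : V d) + x) := by abel
    rw [this]
    have h := norm_sub_le ((v : V d) + y) ((v : V d) + x)
    linarith
  have e3 : ‖(y : V d) + x‖ ≤ ‖(v : V d) - x‖ + ‖(v : V d) + y‖ := by
    have : (y : V d) + x = ((v : V d) + y) - ((v : V d) - x) := by abel
    rw [this]
    have h := norm_sub_le ((v : V d) + y) ((v : V d) - x)
    linarith
  have e4 : ‖(y : V d) + x‖ ≤ ‖(v : V d) + x‖ + ‖(v : V d) - y‖ := by
    have : (y : V d) + x = ((v : V d) + x) - ((v : V d) - y) := by abel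
    rw [this]
    exact norm_sub_le _ _
  rw [h1, h2, h3]
  rcases le_total ‖(v : V d) - x‖ ‖(v : V d) + x‖ with h | h <;>
    rcases le_total ‖(v : V d) - y‖ ‖(v : V d) + y‖ with h' | h'
  · rw [min_eq_left h, min_eq_left h']
    exact le_trans (min_le_left _ _) e1
  · rw [min_eq_left h, min_eq_right h']
    exact le_trans (min_le_right _ _) e3
  · rw [min_eq_right h, min_eq_left h']
    exact le_trans (min_le_right _ _) e4
  · rw [min_eq_right h, min_eq_right h']
    exact le_trans (min_le_left _ _) e2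

private theorem anf1b_nrm_near {d : ℕ} (x y v : Sph d) : nrm x y ≤ nrm x v + ‖(y : V d) - v‖ := by
  refine le_trans (anf1b_nrm_tri x y v) (add_le_add le_rfl ?_)
  refine le_trans (min_le_left _ _) ?_
  rw [norm_sub_rev]

private theorem anf1b_nrm_rot {d : ℕ} (g : V d ≃ₗᵢ[ℝ] V d) (x y : Sph d) :
    nrm (rot g x) (rot g y) = nrm x y := by
  have h1 : (rot g y : V d) - rot g x = g ((y : V d) - x) := by
    rw [map_sub]; rfl
  have h2 : (rot g y : V d) + rot g x = g ((y : V d) + x) := by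
    rw [map_add]; rfl
  unfold nrm
  rw [h1, h2, g.norm_map, g.norm_map]

private theorem anf1b_iso {d : ℕ} (e e' : Sph d) : ∃ g : V d ≃ₗᵢ[ℝ] V d, rot g e = e' := by
  have h : ‖(e : V d)‖ = ‖(e' : V d)‖ := by simp
  refine ⟨(Submodule.span ℝ {(e : V d) - e'})ᗮ.reflection, ?_⟩
  apply Subtype.ext
  exact Submodule.reflection_sub h

/-- Points of the sphere far from each other and from the antipodes. -/
private theorem anf1b_points (k L : ℕ) : ∃ p : Fin L → Sph (k + 1), ∀ m m', m ≠ m' →
    0 < nrm (p m) (p m') := by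
  classical
  have hL : ∀ m : Fin L, 0 < ((m : ℝ) + 1) / (L + 1) ∧ ((m : ℝ) + 1) / (L + 1) < 1 := by
    intro m
    have hm : ((m : ℕ) : ℝ) < L := by exact_mod_cast m.2
    have h0 : (0 : ℝ) ≤ ((m : ℕ) : ℝ) := Nat.cast_nonneg _
    constructor
    · positivity
    · rw [div_lt_one (by positivity)]
      linarith
  have h01 : (0 : Fin (k + 1 + 1)) ≠ 1 := by
    intro h
    have := congrArg Fin.val h
    simp at this
  refine ⟨fun m => ⟨EuclideanSpace.single 0 (Real.cos (((m : ℝ) + 1) / (L + 1))) +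
    EuclideanSpace.single 1 (Real.sin (((m : ℝ) + 1) / (L + 1))), ?_⟩, ?_⟩
  · rw [mem_sphere_zero_iff_norm, ← sq_eq_sq₀ (norm_nonneg _) zero_le_one, one_pow,
      EuclideanSpace.norm_sq_eq, Fin.sum_univ_succ, Fin.sum_univ_succ]
    have hz : ∀ x : Fin k, (x.succ.succ : Fin (k + 1 + 1)) ≠ 1 := by
      intro x h
      have := congrArg Fin.val h
      simp at this
    simp [h01, h01.symm, hz]
  · intro m m' hmm
    have hpos : ∀ x : V (k + 1), x ≠ 0 → 0 < ‖x‖ := fun x hx => norm_pos_iff.2 hx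
    have hpi : (3 : ℝ) < Real.pi := Real.pi_gt_three
    obtain ⟨a1, a2⟩ := hL m
    obtain ⟨b1, b2⟩ := hL m'
    unfold nrm
    apply lt_min
    · apply hpos
      intro h
      have h0 := congrArg (fun x : V (k + 1) => x 0) h
      simp [h01] at h0
      have h2 := Real.injOn_cos (x₁ := ((m' : ℝ) + 1) / (L + 1)) (x₂ := ((m : ℝ) + 1) / (L + 1))
        ⟨b1.le, by linarith⟩ ⟨a1.le, by linarith⟩ (sub_eq_zero.1 h0)
      have hne : (L : ℝ) + 1 ≠ 0 := by positivity
      rw [div_left_inj' hne] at h2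
      apply hmm
      apply Fin.ext
      have h3 : ((m : ℕ) : ℝ) = ((m' : ℕ) : ℝ) := by linarith
      exact_mod_cast h3
    · apply hpos
      intro h
      have h0 := congrArg (fun x : V (k + 1) => x 1) h
      simp [h01.symm] at h0
      have h2 := Real.sin_pos_of_pos_of_lt_pi a1 (by linarith)
      have h3 := Real.sin_pos_of_pos_of_lt_pi b1 (by linarith)
      linarith

private theorem anf1b_card {d : ℕ} (e : Sph d) {R r : ℝ} (hr : 0 < r) (hR : 0 ≤ R)
    (s : Finset (Sph d)) (hsep : ∀ x ∈ s, ∀ y ∈ s, x ≠ y → r ≤ ‖(x : V d) - y‖)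
    (hball : ∀ x ∈ s, nrm e x < R) : (s.card : ℝ) ≤ 2 * (1 + 2 * R / r) ^ (d + 1) := by
  classical
  have key : ∀ (c : V d) (t : Finset (Sph d)), t ⊆ s → (∀ x ∈ t, ‖(x : V d) - c‖ ≤ R) →
      (t.card : ℝ) ≤ (1 + 2 * R / r) ^ (d + 1) := by
    intro c t hts ht
    have h := Pool.Agent.Helper94.B2.packing c hr hR (t.image fun x : Sph d => (x : V d)) (by
      intro x hx y hy hxy
      obtain ⟨x', hx', rfl⟩ := Finset.mem_image.1 hx
      obtain ⟨y', hy', rfl⟩ := Finset.mem_image.1 hy
      exact hsep x' (hts hx') y' (hts hy') fun h => hxy (by rw [h])) (by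
      intro x hx
      obtain ⟨x', hx', rfl⟩ := Finset.mem_image.1 hx
      exact ht x' hx')
    rwa [Finset.card_image_of_injective _ Subtype.val_injective] at h
  have h1 := key (e : V d) (s.filter fun x : Sph d => ‖(x : V d) - e‖ < R) (Finset.filter_subset _ _)
    fun x hx => (Finset.mem_filter.1 hx).2.le
  have h2 := key (-(e : V d)) (s.filter fun x : Sph d => ‖(x : V d) + e‖ < R) (Finset.filter_subset _ _)
    fun x hx => by
      rw [sub_neg_eq_add]
      exact (Finset.mem_filter.1 hx).2.le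
  have h3 : s ⊆ (s.filter fun x : Sph d => ‖(x : V d) - e‖ < R) ∪
      (s.filter fun x : Sph d => ‖(x : V d) + e‖ < R) := by
    intro x hx
    have hx2 : min ‖(x : V d) - e‖ ‖(x : V d) + e‖ < R := hball x hx
    rcases min_lt_iff.1 hx2 with h | h
    · exact Finset.mem_union_left _ (Finset.mem_filter.2 ⟨hx, h⟩)
    · exact Finset.mem_union_right _ (Finset.mem_filter.2 ⟨hx, h⟩)
  have h4 : (s.card : ℝ) ≤ ((s.filter fun x : Sph d => ‖(x : V d) - e‖ < R).card : ℝ) +
      ((s.filter fun x : Sph d => ‖(x : V d) + e‖ < R).card : ℝ) := by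
    exact_mod_cast le_trans (Finset.card_le_card h3) (Finset.card_union_le _ _)
  linarith

private theorem anf1b_min {α : Type*} (F : α → ℝ) (hF : ∀ x, 0 < F x) (s : Finset α) :
    ∃ η : ℝ, 0 < η ∧ ∀ x ∈ s, η ≤ F x := by
  classical
  induction s using Finset.induction_on with
  | empty => exact ⟨1, one_pos, fun x hx => absurd hx (Finset.notMem_empty x)⟩
  | insert a s _ ih =>
    obtain ⟨η, h1, h2⟩ := ih
    refine ⟨min η (F a), lt_min h1 (hF a), fun x hx => ?_⟩
    rcases Finset.mem_insert.1 hx with rfl | hx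
    · exact min_le_right _ _
    · exact le_trans (min_le_left _ _) (h2 x hx)

/-- With high probability the Poisson process fills a rotated copy of the neighbourhood of `e`.
(1) The event is increasing in `Y` and measurable (a finite combination of `(Y ∩ ball).Nonempty`), and
`Poi` of it increases with `l'` (`Poi_add_measure`, `l' = c / ρ ^ d + rest`), so one may assume
`l' = c / ρ ^ d`. (2) `P` = the finite set of centres of `Helper94.B2.exists_centres` for `r = ρ / 4`,
`C = {x ∈ P | nrm e x < (K + 1) * ρ}`; `card C ≤ q := 2 (1 + 8 (K + 1)) ^ (d + 1)` by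
`Helper94.B2.packing` (around `e` and around `-e`). (3) For points `e_1, .., e_L` of the sphere with
`e_m ≠ ± e_m'` (for instance `(cos (π m / L), sin (π m / L), 0, ..)`, `d ≥ 1`) take isometries
`g_m` with `g_m e = e_m` (`Submodule.reflection_sub`, the reflection in the orthogonal complement of
`e - e_m`), `G = {g_m}`; the balls `ball (rot g_m x) (ρ / 2)`, `x ∈ C`, are contained in
`Dg e_m ((K + 2) * ρ)`, and these double balls are disjoint for `ρ < ρ₀` (`ρ₀` depends on `L`; see
`Helper97/BG/St/G1.lean` for facts on `nrm` and `Dg`). (4) By induction on the number of `m`'s, for every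
finite measure `mu` with `mu (Dg e_m ((K + 2) * ρ)) ≤ Λ` and `κ ≤ mu (ball (rot g_m x) (ρ / 2))` for all
these `m` and `x ∈ C`: the probability that for no `m` all the balls `ball (rot g_m x) (ρ / 2)`, `x ∈ C`,
are occupied is at most `(1 - θ) ^ L`, where `θ = exp (-Λ) * κ ^ card C / (card C)!`: split with
`Poi_split` over `D = Dg e_m ((K + 2) * ρ)` for the last `m`; the event implies that it holds for `A` and
the other `m`'s and that not all the balls of the last `m` are met by `B`; use `Poi_occ` for the second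
(`em (mu.restrict D) ≥ exp (-Λ)`), and the induction hypothesis for `mu.restrict Dᶜ`. (5) For
`mu = ENNReal.ofReal l' • sig d`, `sig_ball` gives `κ = v * c / 2 ^ d`, `Λ = 2 * w * c * (K + 2) ^ d` (for
`(K + 2) * ρ ≤ 1`), so `θ ≥ θ₀(d, K, c) > 0`; choose `L` with `(1 - θ₀) ^ L ≤ δ`. -/
theorem fill_prob (d : ℕ) (hd : 1 ≤ d) {K c δ : ℝ} (hK : 0 < K) (hc : 0 < c) (hδ : 0 < δ) :
    ∃ ρ₀ : ℝ, 0 < ρ₀ ∧ ∀ ρ, 0 < ρ → ρ < ρ₀ → ∀ (e : Sph d) (l' : ℝ), c ≤ l' * ρ ^ d →
      ∃ (G : Finset (V d ≃ₗᵢ[ℝ] V d)) (C : Finset (Sph d)),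
        (∀ u : Sph d, nrm e u < K * ρ → ∃ x ∈ C, ‖(u : V d) - x‖ < ρ / 2) ∧
        ENNReal.ofReal (1 - δ) ≤ Poi (ENNReal.ofReal l' • sig d)
          (fun Y => ind (∃ g ∈ G, ∀ x ∈ C, ∃ y ∈ Y, ‖(y : V d) - rot g x‖ < ρ / 2)) := by
  classical
  obtain ⟨k, rfl⟩ : ∃ k, d = k + 1 := ⟨d - 1, by omega⟩
  obtain ⟨v, w, hv, hw, hball⟩ := sig_ball (k + 1)
  have hprob : IsProbabilityMeasure (sig (k + 1)) := sig_prob (k + 1)
  set q : ℕ := ⌈2 * (1 + 4 * (K + 1)) ^ (k + 1 + 1)⌉₊ with hq
  set κ : ℝ := min 1 (v * c / 2 ^ (k + 1)) with hκ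
  set Λ : ℝ := 2 * (w * c * (K + 2) ^ (k + 1)) with hΛ
  set θ : ℝ := Real.exp (-Λ) * ((q.factorial : ℝ))⁻¹ * κ ^ q with hθ
  have hκ0 : 0 < κ := lt_min one_pos (by positivity)
  have hκ1 : κ ≤ 1 := min_le_left _ _
  have hΛ0 : 0 ≤ Λ := by positivity
  have hqf : (1 : ℝ) ≤ (q.factorial : ℝ) := by exact_mod_cast q.factorial_pos
  have hqp : (0 : ℝ) < (q.factorial : ℝ) := by linarith
  have hθ0 : 0 < θ := by positivity
  have hθ1 : θ ≤ 1 := by
    have h1 : Real.exp (-Λ) ≤ 1 := Real.exp_le_one_iff.2 (by linarith)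
    have h2 : ((q.factorial : ℝ))⁻¹ ≤ 1 := inv_le_one_of_one_le₀ hqf
    have h3 : κ ^ q ≤ 1 := pow_le_one₀ hκ0.le hκ1
    calc θ ≤ 1 * 1 * 1 := by
          rw [hθ]
          gcongr
      _ = 1 := by ring
  obtain ⟨L, hL⟩ := exists_pow_lt_of_lt_one hδ (show 1 - θ < 1 by linarith)
  obtain ⟨p, hp⟩ := anf1b_points k L
  obtain ⟨η, hη0, hη⟩ := anf1b_min (fun x : Fin L × Fin L =>
    if x.1 = x.2 then 1 else nrm (p x.1) (p x.2)) (by
      intro x
      split_ifs with h
      · exact one_pos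
      · exact hp _ _ h) Finset.univ
  have hη2 : ∀ m m', m ≠ m' → η ≤ nrm (p m) (p m') := by
    intro m m' h
    have := hη (m, m') (Finset.mem_univ _)
    simpa [h] using this
  have hK2 : 0 < K + 2 := by linarith
  refine ⟨min (η / (2 * (K + 2))) (1 / (K + 2)), lt_min (by positivity) (by positivity), ?_⟩
  intro ρ hρ hρ₀ e l' hl'
  have hρ1 : (K + 2) * ρ + (K + 2) * ρ ≤ η := by
    have := lt_of_lt_of_le hρ₀ (min_le_left _ _)
    rw [lt_div_iff₀ (by positivity)] at this
    linarith
  have hρ2 : (K + 2) * ρ ≤ 1 := by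
    have := lt_of_lt_of_le hρ₀ (min_le_right _ _)
    rw [lt_div_iff₀ hK2] at this
    linarith
  have hρ3 : ρ / 2 ≤ 1 := by nlinarith
  obtain ⟨M, z, hz1, hz2⟩ := Pool.Agent.Helper94.B2.exists_centres (k + 1) (r := ρ / 2) (by positivity)
  set C : Finset (Sph (k + 1)) :=
    (Finset.univ.image z).filter (fun x => nrm e x < (K + 1) * ρ) with hC
  choose g hg using fun m => anf1b_iso e (p m)
  refine ⟨Finset.univ.image g, C, ?_, ?_⟩
  · intro u hu
    obtain ⟨i, hi⟩ := hz2 u
    refine ⟨z i, Finset.mem_filter.2 ⟨Finset.mem_image_of_mem _ (Finset.mem_univ _), ?_⟩, hi⟩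
    have h1 := anf1b_nrm_near e (z i) u
    rw [norm_sub_rev] at h1
    nlinarith
  · have hcard : C.card ≤ q := by
      have h1 := anf1b_card e (R := (K + 1) * ρ) (r := ρ / 2) (by positivity) (by positivity) C
        (by
          intro x hx y hy hxy
          obtain ⟨i, -, rfl⟩ := Finset.mem_image.1 (Finset.mem_filter.1 hx).1
          obtain ⟨j, -, rfl⟩ := Finset.mem_image.1 (Finset.mem_filter.1 hy).1
          exact hz1 i j fun h => hxy (by rw [h]))
        (fun x hx => (Finset.mem_filter.1 hx).2)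
      have h2 : 2 * ((K + 1) * ρ) / (ρ / 2) = 4 * (K + 1) := by
        field_simp
        ring
      rw [h2] at h1
      exact_mod_cast le_trans h1 (Nat.le_ceil _)
    set B : Fin L → C → Set (Sph (k + 1)) := fun m x => Metric.ball (rot (g m) x) (ρ / 2) with hB
    set D : Fin L → Set (Sph (k + 1)) := fun m => Dg (p m) ((K + 2) * ρ) with hD
    set mu1 : Measure (Sph (k + 1)) := ENNReal.ofReal (c / ρ ^ (k + 1)) • sig (k + 1) with hmu1
    set mu2 : Measure (Sph (k + 1)) :=
      ENNReal.ofReal (l' - c / ρ ^ (k + 1)) • sig (k + 1) with hmu2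
    have hf1 : IsFiniteMeasure mu1 := Measure.smul_finite _ ENNReal.ofReal_ne_top
    have hf2 : IsFiniteMeasure mu2 := Measure.smul_finite _ ENNReal.ofReal_ne_top
    have hρd : 0 < ρ ^ (k + 1) := by positivity
    have hl : c / ρ ^ (k + 1) ≤ l' := by
      rw [div_le_iff₀ hρd]
      exact hl'
    have hmu : ENNReal.ofReal l' • sig (k + 1) = mu1 + mu2 := by
      rw [hmu1, hmu2, ← add_smul, ← ENNReal.ofReal_add (by positivity) (by linarith)]
      congr 2
      ring
    have hBm : ∀ m x, MeasurableSet (B m x) := fun m x => measurableSet_ball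
    have hDm : ∀ m, MeasurableSet (D m) := fun m => measurableSet_Dg _ _
    have hBD : ∀ m x, B m x ⊆ D m := by
      intro m x y hy
      have hy1 : ‖(y : V (k + 1)) - rot (g m) x‖ < ρ / 2 := by
        have := Metric.mem_ball.1 hy
        rwa [Subtype.dist_eq, dist_eq_norm] at this
      have h1 := anf1b_nrm_near (p m) y (rot (g m) x)
      have h2 : nrm (p m) (rot (g m) x) = nrm e x := by
        rw [← hg m]
        exact anf1b_nrm_rot _ _ _
      have h3 : nrm e x < (K + 1) * ρ := (Finset.mem_filter.1 x.2).2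
      show nrm (p m) y < (K + 2) * ρ
      nlinarith
    have hdisj : ∀ m m', m ≠ m' → Disjoint (D m) (D m') := by
      intro m m' h
      rw [Set.disjoint_left]
      intro y hy hy'
      have h1 : nrm (p m) y < (K + 2) * ρ := hy
      have h2 : nrm (p m') y < (K + 2) * ρ := hy'
      have h3 := anf1b_nrm_tri (p m) (p m') y
      have h4 := hη2 m m' h
      linarith
    have hΛm : ∀ m, mu1 (D m) ≤ ENNReal.ofReal Λ := by
      intro m
      have h1 : sig (k + 1) (D m) ≤ ENNReal.ofReal (w * ((K + 2) * ρ) ^ (k + 1)) +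
          ENNReal.ofReal (w * ((K + 2) * ρ) ^ (k + 1)) := by
        refine le_trans (measure_mono (Dg_subset _ _)) (le_trans (measure_union_le _ _) ?_)
        exact add_le_add (hball _ _ (by positivity) hρ2).2 (hball _ _ (by positivity) hρ2).2
      rw [hmu1, Measure.smul_apply, smul_eq_mul]
      refine le_trans (mul_le_mul' le_rfl h1) ?_
      rw [← ENNReal.ofReal_add (by positivity) (by positivity), ← ENNReal.ofReal_mul (by positivity)]
      apply ENNReal.ofReal_le_ofReal
      apply le_of_eq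
      rw [hΛ, mul_pow]
      field_simp
      ring
    have hκm : ∀ m x, ENNReal.ofReal κ ≤ mu1 (B m x) := by
      intro m x
      have h1 := (hball (rot (g m) x) (ρ / 2) (by positivity) hρ3).1
      rw [hmu1, Measure.smul_apply, smul_eq_mul]
      refine le_trans ?_ (mul_le_mul' le_rfl h1)
      rw [← ENNReal.ofReal_mul (by positivity)]
      apply ENNReal.ofReal_le_ofReal
      refine le_trans (min_le_right _ _) (le_of_eq ?_)
      rw [div_pow]
      field_simp
    have habs := anf1b_abs D B hDm hBm hBD hdisj hΛ0 (ENNReal.ofReal κ) Finset.univ mu1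
      (fun m _ => hΛm m) (fun m _ => hκm m)
    have hfc : Fintype.card C = C.card := Fintype.card_coe C
    have hθc : ENNReal.ofReal θ ≤ ENNReal.ofReal (Real.exp (-Λ)) *
        (((Fintype.card C).factorial : ℝ≥0∞))⁻¹ * ENNReal.ofReal κ ^ Fintype.card C := by
      rw [hθ, ENNReal.ofReal_mul (by positivity), ENNReal.ofReal_mul (by positivity),
        ENNReal.ofReal_pow hκ0.le, ENNReal.ofReal_inv_of_pos hqp, ENNReal.ofReal_natCast, hfc]
      refine mul_le_mul' (mul_le_mul' le_rfl ?_) ?_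
      · rw [ENNReal.inv_le_inv]
        exact_mod_cast Nat.factorial_le hcard
      · apply pow_le_pow_right_of_le_one' _ hcard
        rw [← ENNReal.ofReal_one]
        exact ENNReal.ofReal_le_ofReal hκ1
    have hfail : Poi mu1 (fun A => ind (∀ m ∈ (Finset.univ : Finset (Fin L)),
        ¬ ∀ x, (A ∩ B m x).Nonempty)) ≤ ENNReal.ofReal δ := by
      refine le_trans habs ?_
      rw [Finset.card_univ, Fintype.card_fin]
      calc _ ≤ (1 - ENNReal.ofReal θ) ^ L := by
            gcongr
        _ = ENNReal.ofReal ((1 - θ) ^ L) := by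
            rw [ENNReal.ofReal_pow (by linarith), ENNReal.ofReal_sub _ hθ0.le, ENNReal.ofReal_one]
        _ ≤ ENNReal.ofReal δ := ENNReal.ofReal_le_ofReal hL.le
    have hms := anf1b_MS B hBm (Finset.univ : Finset (Fin L))
    have hmsE : MS (fun A : Set (Sph (k + 1)) => ind (¬ ∀ m ∈ (Finset.univ : Finset (Fin L)),
        ¬ ∀ x, (A ∩ B m x).Nonempty)) := by
      intro n
      apply anf1b_ind_meas
      have h : {X : Fin n → Sph (k + 1) | ∀ m ∈ (Finset.univ : Finset (Fin L)),
          ¬ ∀ x, (Set.range X ∩ B m x).Nonempty} =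
          ⋂ m ∈ (Finset.univ : Finset (Fin L)),
            {X : Fin n → Sph (k + 1) | ∀ x, (Set.range X ∩ B m x).Nonempty}ᶜ := by
        ext X
        simp only [Set.mem_iInter]
        rfl
      have h2 : MeasurableSet {X : Fin n → Sph (k + 1) | ∀ m ∈ (Finset.univ : Finset (Fin L)),
          ¬ ∀ x, (Set.range X ∩ B m x).Nonempty} := by
        rw [h]
        exact Finset.measurableSet_biInter _ fun m _ => (anf1b_meas (B m) (hBm m) n).compl
      exact h2.compl
    have hEq : (fun Y : Set (Sph (k + 1)) => ind (∃ g' ∈ Finset.univ.image g, ∀ x ∈ C, ∃ y ∈ Y,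
        ‖(y : V (k + 1)) - rot g' x‖ < ρ / 2)) = fun A => ind (¬ ∀ m ∈ (Finset.univ : Finset (Fin L)),
        ¬ ∀ x, (A ∩ B m x).Nonempty) := by
      funext Y
      congr 1
      apply propext
      constructor
      · rintro ⟨g', hg', h⟩ h2
        obtain ⟨m, -, rfl⟩ := Finset.mem_image.1 hg'
        apply h2 m (Finset.mem_univ _)
        intro x
        obtain ⟨y, hy, hyx⟩ := h x x.2
        refine ⟨y, hy, ?_⟩
        rw [hB, Metric.mem_ball, Subtype.dist_eq, dist_eq_norm]
        exact hyx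
      · intro h
        push Not at h
        obtain ⟨m, -, hm⟩ := h
        refine ⟨g m, Finset.mem_image_of_mem _ (Finset.mem_univ _), fun x hx => ?_⟩
        obtain ⟨y, hy, hyx⟩ := hm ⟨x, hx⟩
        refine ⟨y, hy, ?_⟩
        rw [hB, Metric.mem_ball, Subtype.dist_eq, dist_eq_norm] at hyx
        exact hyx
    rw [hEq, hmu, Poi_add_measure mu1 mu2 hmsE]
    have hmono : Poi mu1 (fun A => ind (¬ ∀ m ∈ (Finset.univ : Finset (Fin L)),
        ¬ ∀ x, (A ∩ B m x).Nonempty)) ≤ Poi mu1 (fun A => Poi mu2 (fun B' =>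
          ind (¬ ∀ m ∈ (Finset.univ : Finset (Fin L)), ¬ ∀ x, ((A ∪ B') ∩ B m x).Nonempty))) := by
      refine Poi_mono _ fun A _ => ?_
      rw [← Poi_const mu2 (ind (¬ ∀ m ∈ (Finset.univ : Finset (Fin L)),
        ¬ ∀ x, (A ∩ B m x).Nonempty))]
      refine Poi_mono _ fun B' _ => anf1b_ind_mono fun h h2 => h fun m hm h3 => h2 m hm fun x => ?_
      exact (h3 x).mono (Set.inter_subset_inter_left _ Set.subset_union_left)
    refine le_trans ?_ hmono
    have hsum : Poi mu1 (fun A => ind (∀ m ∈ (Finset.univ : Finset (Fin L)),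
        ¬ ∀ x, (A ∩ B m x).Nonempty)) + Poi mu1 (fun A => ind (¬ ∀ m ∈ (Finset.univ : Finset (Fin L)),
        ¬ ∀ x, (A ∩ B m x).Nonempty)) = 1 := by
      rw [← Poi_add_fun mu1 hms, ← Poi_const mu1 1]
      congr 1
      funext A
      exact anf1b_ind_add _
    rw [ENNReal.ofReal_sub _ hδ.le, ENNReal.ofReal_one, tsub_le_iff_left, ← hsum]
    exact add_le_add hfail le_rfl

end Pool.Agent.Helper28.AN
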