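import Mathlib
import Pool.Agent.Helper28.AN.Defs
import Pool.Agent.Helper28.AN.St.F1a
import Pool.Agent.Helper28.AN.St.F1b
import Pool.Agent.Helper97.BG.St.M1
import Pool.Agent.Helper97.BG.St.P3

/-!
Project AN (MP_8410f8_pr), piece F1.
-/

open MeasureTheory Set Filter Topology
open scoped ENNReal

namespace Pool.Agent.Helper28.AN

open Pool.Agent.Helper97.BG

private theorem anf1_const_mul_le {S : Type*} [MeasurableSpace S] (mu : Measure S) (c : ℝ≥0∞)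
    (f : Set S → ℝ≥0∞) : c * Poi mu f ≤ Poi mu (fun A => c * f A) := by
  unfold Poi
  have h1 : c * (em mu * ∑' n : ℕ, ((n.factorial : ℝ≥0∞))⁻¹ * tup mu n f) =
      em mu * ∑' n : ℕ, ((n.factorial : ℝ≥0∞))⁻¹ * (c * tup mu n f) := by
    rw [mul_left_comm, ← ENNReal.tsum_mul_left]
    congr 2
    funext n
    rw [mul_left_comm]
  rw [h1]
  refine mul_le_mul_right (ENNReal.tsum_le_tsum fun n => mul_le_mul_right ?_ _) _
  unfold tup
  exact lintegral_const_mul_le _ _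

/-- Take `ρ₀` from `fill_prob`, and `G`, `C` for the given `e`, `l'` (`l' > 0`). Call `Y` good if
`∃ g ∈ G, ∀ x ∈ C, ∃ y ∈ Y, ‖y - rot g x‖ < ρ / 2`. If `Y` is good then every `u ∈ U` has `x ∈ C` with
`‖u - x‖ < ρ / 2`, so some `y ∈ Y` has `‖y - rot g u‖ < ρ`, and `fill_step` gives
`p ≤ Poi (ofReal l • sig d) (fun A => ind (¬ Col (a + 2 * ρ) k (A ∪ Y)))` where `p` is the `Poi` on the left
side. So `ind (Y good) * p ≤ Poi (ofReal l • sig d) (fun A => ind (¬ Col (a + 2 * ρ) k (A ∪ Y)))` for all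
`Y`. Take `Poi (ofReal l' • sig d)` of both sides (`Poi_mono`, `Poi_mul` type lemmas in `Helper97/BG/St/P1.lean`);
the right side becomes `Poi (ofReal (l + l') • sig d) (fun A => ind (¬ Col (a + 2 * ρ) k A))` by
`Poi_add_measure` (`Helper97/BG/St/P3.lean`), `ENNReal.ofReal_add`, `add_smul`. -/
theorem fill (d : ℕ) (hd : 1 ≤ d) {K c δ : ℝ} (hK : 0 < K) (hc : 0 < c) (hδ : 0 < δ) :
    ∃ ρ₀ : ℝ, 0 < ρ₀ ∧ ∀ ρ, 0 < ρ → ρ < ρ₀ → ∀ (e : Sph d) (U : Set (Sph d)), U.Finite →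
      (∀ u ∈ U, nrm e u < K * ρ) → ∀ l l' : ℝ, 0 ≤ l → c ≤ l' * ρ ^ d → ∀ (a : ℝ) (k : ℕ),
      ENNReal.ofReal (1 - δ) * Poi (ENNReal.ofReal l • sig d) (fun A => ind (¬ Col a k (A ∪ U))) ≤
        Poi (ENNReal.ofReal (l + l') • sig d) (fun A => ind (¬ Col (a + 2 * ρ) k A)) := by
  obtain ⟨ρ₀, hρ₀, h⟩ := fill_prob d hd hK hc hδ
  refine ⟨ρ₀, hρ₀, ?_⟩
  intro ρ hρ hρρ e U hU hUe l l' hl hl' a k
  have hl'pos : 0 ≤ l' := by
    by_contra hcon
    push Not at hcon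
    have h1 : l' * ρ ^ d < 0 := mul_neg_of_neg_of_pos hcon (by positivity)
    linarith
  obtain ⟨G, C, hC, hP⟩ := h ρ hρ hρρ e l' hl'
  have hfin1 : IsFiniteMeasure (ENNReal.ofReal l • sig d) := Measure.smul_finite _ ENNReal.ofReal_ne_top
  have hfin2 : IsFiniteMeasure (ENNReal.ofReal l' • sig d) :=
    Measure.smul_finite _ ENNReal.ofReal_ne_top
  have hsum : ENNReal.ofReal (l + l') • sig d =
      ENNReal.ofReal l' • sig d + ENNReal.ofReal l • sig d := by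
    rw [ENNReal.ofReal_add hl hl'pos, add_smul]
    exact add_comm _ _
  rw [hsum, Poi_add_measure _ _ (MS_notCol (a + 2 * ρ) k)]
  have hgood : ∀ Y : Set (Sph d), Y.Finite →
      Poi (ENNReal.ofReal l • sig d) (fun A => ind (¬ Col a k (A ∪ U))) *
        ind (∃ g ∈ G, ∀ x ∈ C, ∃ y ∈ Y, ‖(y : V d) - rot g x‖ < ρ / 2) ≤
      Poi (ENNReal.ofReal l • sig d) (fun B => ind (¬ Col (a + 2 * ρ) k (Y ∪ B))) := by
    intro Y _
    by_cases hY : ∃ g ∈ G, ∀ x ∈ C, ∃ y ∈ Y, ‖(y : V d) - rot g x‖ < ρ / 2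
    · have hind : ind (∃ g ∈ G, ∀ x ∈ C, ∃ y ∈ Y, ‖(y : V d) - rot g x‖ < ρ / 2) = 1 := by
        unfold ind
        exact if_pos hY
      rw [hind, mul_one]
      obtain ⟨g, -, hg⟩ := hY
      have hstep := fill_step (k := k) (a := a) (l := l) hρ.le hU g (Y := Y) (by
        intro u hu
        obtain ⟨x, hx, hux⟩ := hC u (hUe u hu)
        obtain ⟨y, hy, hyx⟩ := hg x hx
        refine ⟨y, hy, ?_⟩
        have h2 : ‖(rot g x : V d) - rot g u‖ = ‖(u : V d) - x‖ := by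
          change ‖g (x : V d) - g (u : V d)‖ = _
          rw [← map_sub, g.norm_map, norm_sub_rev]
        calc ‖(y : V d) - rot g u‖ ≤ ‖(y : V d) - rot g x‖ + ‖(rot g x : V d) - rot g u‖ :=
              norm_sub_le_norm_sub_add_norm_sub _ _ _
          _ < ρ / 2 + ρ / 2 := add_lt_add hyx (by rw [h2]; exact hux)
          _ = ρ := by ring)
      refine hstep.trans (le_of_eq ?_)
      congr 1
      funext A
      rw [Set.union_comm]
    · have hind : ind (∃ g ∈ G, ∀ x ∈ C, ∃ y ∈ Y, ‖(y : V d) - rot g x‖ < ρ / 2) = 0 := by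
        unfold ind
        exact if_neg hY
      rw [hind, mul_zero]
      exact zero_le
  calc ENNReal.ofReal (1 - δ) * Poi (ENNReal.ofReal l • sig d) (fun A => ind (¬ Col a k (A ∪ U)))
      = Poi (ENNReal.ofReal l • sig d) (fun A => ind (¬ Col a k (A ∪ U))) *
        ENNReal.ofReal (1 - δ) := mul_comm _ _
    _ ≤ Poi (ENNReal.ofReal l • sig d) (fun A => ind (¬ Col a k (A ∪ U))) *
        Poi (ENNReal.ofReal l' • sig d)
          (fun Y => ind (∃ g ∈ G, ∀ x ∈ C, ∃ y ∈ Y, ‖(y : V d) - rot g x‖ < ρ / 2)) :=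
        mul_le_mul_right hP _
    _ ≤ _ := anf1_const_mul_le _ _ _
    _ ≤ _ := Poi_mono _ hgood

end Pool.Agent.Helper28.AN
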