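import Mathlib
import Pool.Agent.Helper28.AN.Defs
import Pool.Agent.Helper28.AN.St.M1
import Pool.Agent.Helper94.B2.St.G1

/-!
Project AN (MP_8410f8_pr), piece M2.
-/

open MeasureTheory Set Filter Topology
open scoped ENNReal

namespace Pool.Agent.Helper28.AN

open Pool.Agent.Helper97.BG

/-- The number of balls that contain `x`. -/
private noncomputable def anm2_m {d N : ℕ} (ρ : ℝ) (z : Fin N → Sph d) (x : Sph d) : ℝ≥0∞ :=
  ∑ i, (Metric.ball (z i) ρ).indicator (fun _ => (1 : ℝ≥0∞)) x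

/-- The density of the cell `i`. -/
private noncomputable def anm2_f {d N : ℕ} (ρ : ℝ) (z : Fin N → Sph d) (i : Fin N) (x : Sph d) :
    ℝ≥0∞ :=
  (Metric.ball (z i) ρ).indicator (fun _ => (1 : ℝ≥0∞)) x * (anm2_m ρ z x)⁻¹

private lemma anm2_m_meas {d N : ℕ} (ρ : ℝ) (z : Fin N → Sph d) : Measurable (anm2_m ρ z) := by
  unfold anm2_m
  exact Finset.measurable_sum _ fun i _ => measurable_const.indicator Metric.isOpen_ball.measurableSet

private lemma anm2_f_meas {d N : ℕ} (ρ : ℝ) (z : Fin N → Sph d) (i : Fin N) :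
    Measurable (anm2_f ρ z i) :=
  (measurable_const.indicator Metric.isOpen_ball.measurableSet).mul (anm2_m_meas ρ z).inv

private lemma anm2_m_ne_top {d N : ℕ} (ρ : ℝ) (z : Fin N → Sph d) (x : Sph d) :
    anm2_m ρ z x ≠ ⊤ := by
  unfold anm2_m
  refine (ENNReal.sum_lt_top.2 fun i _ => ?_).ne
  unfold Set.indicator
  split_ifs <;> simp

private lemma anm2_m_card {d N : ℕ} (ρ : ℝ) (z : Fin N → Sph d) (x : Sph d) [DecidablePred fun i : Fin N => x ∈ Metric.ball (z i) ρ] :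
    anm2_m ρ z x = ((Finset.univ.filter fun i : Fin N => x ∈ Metric.ball (z i) ρ).card : ℝ≥0∞) := by
  unfold anm2_m
  rw [Finset.card_filter, Nat.cast_sum]
  refine Finset.sum_congr rfl fun i _ => ?_
  by_cases h : x ∈ Metric.ball (z i) ρ
  · rw [Set.indicator_of_mem h, if_pos h, Nat.cast_one]
  · rw [Set.indicator_of_notMem h, if_neg h, Nat.cast_zero]

private lemma anm2_m_le {d N : ℕ} {ρ : ℝ} (hρ : 0 < ρ) (z : Fin N → Sph d)
    (hsep : ∀ i j, i ≠ j → ρ ≤ ‖(z i : V d) - z j‖) (x : Sph d) :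
    anm2_m ρ z x ≤ 3 ^ (d + 1) := by
  classical
  rw [anm2_m_card]
  set I := Finset.univ.filter fun i : Fin N => x ∈ Metric.ball (z i) ρ with hI
  have hinj : Set.InjOn (fun i : Fin N => (z i : V d)) (I : Set (Fin N)) := by
    intro i _ j _ hij
    by_contra hne
    have := hsep i j hne
    simp only at hij
    rw [hij, sub_self, norm_zero] at this
    linarith
  have hcard : (I.image fun i : Fin N => (z i : V d)).card = I.card :=
    Finset.card_image_of_injOn hinj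
  have hp := Pool.Agent.Helper94.B2.packing (x : V d) (R := ρ) (r := ρ) hρ hρ.le
    (I.image fun i : Fin N => (z i : V d)) (by
      intro a ha b hb hab
      rw [Finset.mem_image] at ha hb
      obtain ⟨i, _, rfl⟩ := ha
      obtain ⟨j, _, rfl⟩ := hb
      exact hsep i j (fun h => hab (by rw [h]))) (by
      intro a ha
      rw [Finset.mem_image] at ha
      obtain ⟨i, hi, rfl⟩ := ha
      rw [hI, Finset.mem_filter] at hi
      have h1 := hi.2
      rw [Metric.mem_ball, Subtype.dist_eq, dist_eq_norm, norm_sub_rev] at h1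
      exact h1.le)
  rw [hcard] at hp
  have h3 : (1 + 2 * ρ / ρ) = (3 : ℝ) := by
    rw [mul_div_assoc, div_self hρ.ne']
    norm_num
  rw [h3] at hp
  have hp' : I.card ≤ 3 ^ (d + 1) := by exact_mod_cast hp
  exact_mod_cast hp'

private lemma anm2_one_le_m {d N : ℕ} {ρ : ℝ} (z : Fin N → Sph d) (i : Fin N) {x : Sph d}
    (hx : x ∈ Metric.ball (z i) ρ) : 1 ≤ anm2_m ρ z x := by
  unfold anm2_m
  calc (1 : ℝ≥0∞) = (Metric.ball (z i) ρ).indicator (fun _ => (1 : ℝ≥0∞)) x := by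
        rw [Set.indicator_of_mem hx]
    _ ≤ _ := Finset.single_le_sum
      (f := fun i => (Metric.ball (z i) ρ).indicator (fun _ => (1 : ℝ≥0∞)) x)
      (fun _ _ => bot_le) (Finset.mem_univ i)

private lemma anm2_sum {d N : ℕ} (ρ : ℝ) (z : Fin N → Sph d) (x : Sph d) :
    ∑ i, anm2_f ρ z i x = ({x | anm2_m ρ z x = 0}ᶜ).indicator (fun _ => (1 : ℝ≥0∞)) x := by
  unfold anm2_f
  rw [← Finset.sum_mul]
  change anm2_m ρ z x * (anm2_m ρ z x)⁻¹ = _
  by_cases h : anm2_m ρ z x = 0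
  · rw [Set.indicator_of_notMem (by simpa using h), h, zero_mul]
  · rw [Set.indicator_of_mem (by simpa using h), ENNReal.mul_inv_cancel h (anm2_m_ne_top ρ z x)]

private lemma anm2_f_le {d N : ℕ} (ρ : ℝ) (z : Fin N → Sph d) (i : Fin N) (x : Sph d) :
    anm2_f ρ z i x ≤ (Metric.ball (z i) ρ).indicator (fun _ => (1 : ℝ≥0∞)) x := by
  unfold anm2_f
  by_cases hx : x ∈ Metric.ball (z i) ρ
  · rw [Set.indicator_of_mem hx, one_mul]
    exact ENNReal.inv_le_one.2 (anm2_one_le_m z i hx)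
  · rw [Set.indicator_of_notMem hx, zero_mul]

private lemma anm2_le_f {d N : ℕ} {ρ : ℝ} (hρ : 0 < ρ) (z : Fin N → Sph d)
    (hsep : ∀ i j, i ≠ j → ρ ≤ ‖(z i : V d) - z j‖) (i : Fin N) (x : Sph d) :
    (3 ^ (d + 1) : ℝ≥0∞)⁻¹ * (Metric.ball (z i) ρ).indicator (fun _ => (1 : ℝ≥0∞)) x ≤
      anm2_f ρ z i x := by
  unfold anm2_f
  rw [mul_comm]
  gcongr
  exact anm2_m_le hρ z hsep x

private lemma anm2_rot_meas {d : ℕ} (R : V d ≃ₗᵢ[ℝ] V d) : Measurable (rot R) := by
  apply Continuous.measurable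
  apply Continuous.subtype_mk
  exact R.continuous.comp continuous_subtype_val

private lemma anm2_ball_rot {d N : ℕ} {ρ : ℝ} (z : Fin N → Sph d) (R : V d ≃ₗᵢ[ℝ] V d)
    (σ : Equiv.Perm (Fin N)) (h : ∀ i, z (σ i) = rot R (z i)) (i : Fin N) (x : Sph d) :
    (Metric.ball (z (σ i)) ρ).indicator (fun _ => (1 : ℝ≥0∞)) (rot R x) =
      (Metric.ball (z i) ρ).indicator (fun _ => (1 : ℝ≥0∞)) x := by
  have key : rot R x ∈ Metric.ball (z (σ i)) ρ ↔ x ∈ Metric.ball (z i) ρ := by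
    rw [Metric.mem_ball, Metric.mem_ball, h i, Subtype.dist_eq, Subtype.dist_eq]
    change dist (R (x : V d)) (R (z i : V d)) < ρ ↔ _
    rw [R.dist_map]
  by_cases hx : x ∈ Metric.ball (z i) ρ
  · rw [Set.indicator_of_mem hx, Set.indicator_of_mem (key.2 hx)]
  · rw [Set.indicator_of_notMem hx, Set.indicator_of_notMem (fun h' => hx (key.1 h'))]

private lemma anm2_m_rot {d N : ℕ} {ρ : ℝ} (z : Fin N → Sph d) (R : V d ≃ₗᵢ[ℝ] V d)
    (σ : Equiv.Perm (Fin N)) (h : ∀ i, z (σ i) = rot R (z i)) (x : Sph d) :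
    anm2_m ρ z (rot R x) = anm2_m ρ z x := by
  unfold anm2_m
  rw [← Equiv.sum_comp σ]
  exact Finset.sum_congr rfl fun i _ => anm2_ball_rot z R σ h i x

/-- `mult x = #{i | ‖x - z i‖ < ρ}` (at most `3 ^ (d+1)` by `Helper94.B2.packing` with centre `x` and
`R = ρ`; here the points `z i` are different), `f i x = 1 / mult x` if `‖x - z i‖ < ρ` and `0` otherwise,
`T i = ∫⁻ f i ∂(sig d)`, `t i = (T i).toReal`, `nu i = (T i)⁻¹ • (sig d).withDensity (f i)`,
`nu' = (sig d).restrict {x | mult x = 0}`. `∑ i, f i x = 1` if `mult x ≠ 0`, so the sum is `sig d`.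
Bounds: `sig_ball` of `Helper97/BG/St/V1.lean` gives `v ρ^d / 3^(d+1) ≤ T i ≤ w ρ^d` (`‖x - z‖` is the
distance `dist x z` in `Sph d`). Invariance: if `z (σ i) = rot R (z i)` for all `i` then
`mult (rot R x) = mult x` and `f (σ i) (rot R x) = f i x`, and `(sig d).map (rot R) = sig d`
(`map_rot_sig`, stated again in this file or imported from M1). Measurability: everything is a finite
combination of indicators of open balls. -/
theorem exists_cellmeas (d : ℕ) : ∃ c₁ c₂ : ℝ, 0 < c₁ ∧ 0 < c₂ ∧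
    ∀ (ρ : ℝ), 0 < ρ → ρ ≤ 1 → ∀ (N : ℕ) (z : Fin N → Sph d),
      (∀ i j, i ≠ j → ρ ≤ ‖(z i : V d) - z j‖) →
      ∃ (t : Fin N → ℝ) (nu : Fin N → Measure (Sph d)) (nu' : Measure (Sph d)),
        (∀ i, IsProbabilityMeasure (nu i)) ∧ (∀ i, ∀ᵐ x : Sph d ∂(nu i), ‖(x : V d) - z i‖ < ρ) ∧
        (∀ᵐ x : Sph d ∂nu', ∀ i, ρ ≤ ‖(x : V d) - z i‖) ∧
        (∑ i, ENNReal.ofReal (t i) • nu i) + nu' = sig d ∧
        (∀ i, c₁ * ρ ^ d ≤ t i) ∧ (∀ i, t i ≤ c₂ * ρ ^ d) ∧
        ∀ (R : V d ≃ₗᵢ[ℝ] V d) (σ : Equiv.Perm (Fin N)), (∀ i, z (σ i) = rot R (z i)) →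
          ∀ i, t (σ i) = t i := by
  obtain ⟨v, w, hv, hw, hball⟩ := sig_ball d
  refine ⟨v / 3 ^ (d + 1), w, by positivity, hw, ?_⟩
  intro ρ hρ hρ1 N z hsep
  have hlint : ∀ i, ∫⁻ x, (Metric.ball (z i) ρ).indicator (fun _ => (1 : ℝ≥0∞)) x ∂(sig d) =
      sig d (Metric.ball (z i) ρ) := fun i => by
    rw [lintegral_indicator Metric.isOpen_ball.measurableSet]
    simp
  have hTle : ∀ i, ∫⁻ x, anm2_f ρ z i x ∂(sig d) ≤ ENNReal.ofReal (w * ρ ^ d) := fun i => by
    refine le_trans (lintegral_mono (anm2_f_le ρ z i)) ?_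
    rw [hlint i]
    exact (hball (z i) ρ hρ hρ1).2
  have hTge : ∀ i, ENNReal.ofReal (v / 3 ^ (d + 1) * ρ ^ d) ≤ ∫⁻ x, anm2_f ρ z i x ∂(sig d) :=
    fun i => by
    refine le_trans ?_ (lintegral_mono (anm2_le_f hρ z hsep i))
    rw [lintegral_const_mul _ (measurable_const.indicator Metric.isOpen_ball.measurableSet), hlint i]
    have h1 : ENNReal.ofReal (v / 3 ^ (d + 1) * ρ ^ d) =
        (3 ^ (d + 1) : ℝ≥0∞)⁻¹ * ENNReal.ofReal (v * ρ ^ d) := by
      have h2 : (3 ^ (d + 1) : ℝ≥0∞)⁻¹ = ENNReal.ofReal ((3 ^ (d + 1) : ℝ)⁻¹) := by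
        rw [ENNReal.ofReal_inv_of_pos (by positivity), ENNReal.ofReal_pow (by norm_num)]
        norm_num
      rw [h2, ← ENNReal.ofReal_mul (by positivity)]
      congr 1
      ring
    rw [h1]
    gcongr
    exact (hball (z i) ρ hρ hρ1).1
  have hTtop : ∀ i, ∫⁻ x, anm2_f ρ z i x ∂(sig d) ≠ ⊤ := fun i =>
    ((hTle i).trans_lt ENNReal.ofReal_lt_top).ne
  have hT0 : ∀ i, ∫⁻ x, anm2_f ρ z i x ∂(sig d) ≠ 0 := fun i => by
    have : 0 < ENNReal.ofReal (v / 3 ^ (d + 1) * ρ ^ d) := ENNReal.ofReal_pos.2 (by positivity)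
    exact (this.trans_le (hTge i)).ne'
  refine ⟨fun i => (∫⁻ x, anm2_f ρ z i x ∂(sig d)).toReal,
    fun i => (∫⁻ x, anm2_f ρ z i x ∂(sig d))⁻¹ • (sig d).withDensity (anm2_f ρ z i),
    (sig d).restrict {x | anm2_m ρ z x = 0}, ?_, ?_, ?_, ?_, ?_, ?_, ?_⟩
  · intro i
    constructor
    rw [Measure.smul_apply, smul_eq_mul, withDensity_apply _ MeasurableSet.univ,
      Measure.restrict_univ]
    exact ENNReal.inv_mul_cancel (hT0 i) (hTtop i)
  · intro i
    apply Measure.ae_smul_measure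
    rw [ae_withDensity_iff (anm2_f_meas ρ z i)]
    refine Filter.Eventually.of_forall fun x hx => ?_
    by_contra hcon
    apply hx
    unfold anm2_f
    rw [Set.indicator_of_notMem, zero_mul]
    rw [Metric.mem_ball, Subtype.dist_eq, dist_eq_norm]
    exact hcon
  · have hms : MeasurableSet {x | anm2_m ρ z x = 0} :=
      anm2_m_meas ρ z (measurableSet_singleton 0)
    refine ae_restrict_of_forall_mem hms fun x hx i => ?_
    by_contra hcon
    have h1 := anm2_one_le_m z i (x := x) (ρ := ρ) (by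
      rw [Metric.mem_ball, Subtype.dist_eq, dist_eq_norm]
      exact not_le.1 hcon)
    rw [show anm2_m ρ z x = 0 from hx] at h1
    simp at h1
  · have hms : MeasurableSet {x | anm2_m ρ z x = 0} :=
      anm2_m_meas ρ z (measurableSet_singleton 0)
    have hsm : ∀ i, ENNReal.ofReal (∫⁻ x, anm2_f ρ z i x ∂(sig d)).toReal •
        ((∫⁻ x, anm2_f ρ z i x ∂(sig d))⁻¹ • (sig d).withDensity (anm2_f ρ z i)) =
        (sig d).withDensity (anm2_f ρ z i) := fun i => by
      rw [ENNReal.ofReal_toReal (hTtop i), smul_smul, ENNReal.mul_inv_cancel (hT0 i) (hTtop i),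
        one_smul]
    rw [Finset.sum_congr rfl fun i _ => hsm i]
    ext s hs
    rw [Measure.add_apply, Measure.finsetSum_apply, Measure.restrict_apply hs]
    have h1 : ∑ i, (sig d).withDensity (anm2_f ρ z i) s =
        sig d (s ∩ {x | anm2_m ρ z x = 0}ᶜ) := by
      rw [Finset.sum_congr rfl fun i _ => withDensity_apply _ hs,
        ← lintegral_finsetSum _ fun i _ => anm2_f_meas ρ z i]
      rw [lintegral_congr fun x => anm2_sum ρ z x, lintegral_indicator hms.compl]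
      simp only [lintegral_const, Measure.restrict_apply MeasurableSet.univ, univ_inter, one_mul]
      rw [Measure.restrict_apply hms.compl, Set.inter_comm]
    rw [h1, add_comm, ← Set.sdiff_eq, measure_inter_add_sdiff s hms]
  · intro i
    rw [← ENNReal.ofReal_le_iff_le_toReal (hTtop i)]
    exact hTge i
  · intro i
    exact ENNReal.toReal_le_of_le_ofReal (by positivity) (hTle i)
  · intro R σ hσ i
    have h1 : ∫⁻ x, anm2_f ρ z (σ i) x ∂(sig d) = ∫⁻ x, anm2_f ρ z i x ∂(sig d) := by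
      conv_lhs => rw [← map_rot_sig d R]
      rw [lintegral_map (anm2_f_meas ρ z (σ i)) (anm2_rot_meas R)]
      refine lintegral_congr fun x => ?_
      unfold anm2_f
      rw [anm2_ball_rot z R σ hσ i x, anm2_m_rot z R σ hσ x]
    simp only [h1]

end Pool.Agent.Helper28.AN
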