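import Mathlib
import Pool.Agent.Helper28.AN.Defs
import Pool.Agent.Helper94.B2.St.D6
import Pool.Agent.Helper94.B2.St.D7

/-!
Project AN (MP_8410f8_pr), piece Q1.
-/

open MeasureTheory Set Filter Topology
open scoped ENNReal

namespace Pool.Agent.Helper28.AN

open Pool.Agent.Helper97.BG

private lemma anq1_left {N : ℕ} (w : Fin N → ℕ → ℝ≥0∞) (c : Fin 3) (G : Om N → ℝ≥0∞) :
    ∑' D : Fin N → ℕ, (∏ i, w i (D i)) * G (fun i => if D i = 0 then 0 else c) =
      ∑ σ : Fin N → Bool, (∏ i, ∑' n, (if decide (n ≠ 0) = σ i then w i n else 0)) *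
        G (fun i => if σ i = true then c else 0) := by
  have h : ∀ D : Fin N → ℕ, (∏ i, w i (D i)) * G (fun i => if D i = 0 then 0 else c) =
      ∑ σ : Fin N → Bool, (∏ i, (if decide (D i ≠ 0) = σ i then w i (D i) else 0)) *
        G (fun i => if σ i = true then c else 0) := by
    intro D
    rw [Finset.sum_eq_single (fun i => decide (D i ≠ 0))]
    · congr 1
      · exact Finset.prod_congr rfl (fun i _ => by simp)
      · congr 1
        funext i
        by_cases hD : D i = 0 <;> simp [hD]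
    · intro σ _ hσ
      obtain ⟨i, hi⟩ := Function.ne_iff.1 hσ
      rw [Finset.prod_eq_zero (Finset.mem_univ i), zero_mul]
      exact if_neg fun h => hi h.symm
    · simp
  rw [tsum_congr h, Summable.tsum_finsetSum fun _ _ => ENNReal.summable]
  refine Finset.sum_congr rfl fun σ _ => ?_
  rw [ENNReal.tsum_mul_right]
  congr 1
  exact Helper94.B2.tsum_prod_pi fun i n => if decide (n ≠ 0) = σ i then w i n else 0

private lemma anq1_right {N : ℕ} (w : Fin N → Fin 3 → ℝ≥0∞) (c : Fin 3) (G : Om N → ℝ≥0∞) :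
    ∑ ω : Om N, (∏ i, w i (ω i)) * G (fun i => if ω i = 0 then 0 else c) =
      ∑ σ : Fin N → Bool, (∏ i, ∑ n, (if decide (n ≠ 0) = σ i then w i n else 0)) *
        G (fun i => if σ i = true then c else 0) := by
  have h : ∀ D : Om N, (∏ i, w i (D i)) * G (fun i => if D i = 0 then 0 else c) =
      ∑ σ : Fin N → Bool, (∏ i, (if decide (D i ≠ 0) = σ i then w i (D i) else 0)) *
        G (fun i => if σ i = true then c else 0) := by
    intro D
    rw [Finset.sum_eq_single (fun i => decide (D i ≠ 0))]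
    · congr 1
      · exact Finset.prod_congr rfl (fun i _ => by simp)
      · congr 1
        funext i
        by_cases hD : D i = 0 <;> simp [hD]
    · intro σ _ hσ
      obtain ⟨i, hi⟩ := Function.ne_iff.1 hσ
      rw [Finset.prod_eq_zero (Finset.mem_univ i), zero_mul]
      exact if_neg fun h => hi h.symm
    · simp
  rw [Finset.sum_congr rfl fun ω _ => h ω, Finset.sum_comm]
  refine Finset.sum_congr rfl fun σ _ => ?_
  rw [← Finset.sum_mul]
  congr 1
  have h2 := Finset.prod_univ_sum (fun _ : Fin N => (Finset.univ : Finset (Fin 3)))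
    (fun i n => if decide (n ≠ 0) = σ i then w i n else 0)
  rw [Fintype.piFinset_univ] at h2
  exact h2.symm

private lemma anq1_cell {τ s : ℝ} (hτ : 0 ≤ τ) (hs : 0 ≤ s) (hs1 : s ≤ 1) (b : Bool) :
    ∑' n, (if decide (n ≠ 0) = b then Helper94.B2.po (ENNReal.ofReal τ) n else 0) =
      ∑ n : Fin 3, (if decide (n ≠ 0) = b then ENNReal.ofReal
        ((![Real.exp (-τ), (1 - Real.exp (-τ)) * (1 - s), (1 - Real.exp (-τ)) * s] :
          Fin 3 → ℝ) n) else 0) := by
  have h0 : Helper94.B2.po (ENNReal.ofReal τ) 0 = ENNReal.ofReal (Real.exp (-τ)) := by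
    unfold Helper94.B2.po
    rw [ENNReal.toReal_ofReal hτ]
    simp
  have he : Real.exp (-τ) ≤ 1 := Real.exp_le_one_iff.2 (by linarith)
  cases b with
  | false =>
    rw [tsum_eq_single 0]
    · rw [if_pos (by simp), h0, Fin.sum_univ_three]
      simp
    · intro n hn
      rw [if_neg]
      simp [hn]
  | true =>
    have h1 : ∑' n, Helper94.B2.po (ENNReal.ofReal τ) n = 1 :=
      Helper94.B2.po_tsum _ ENNReal.ofReal_ne_top
    have h2 : Helper94.B2.po (ENNReal.ofReal τ) 0 +
        ∑' n, (if decide (n ≠ 0) = true then Helper94.B2.po (ENNReal.ofReal τ) n else 0) = 1 := by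
      rw [← h1]
      have h3 : ∑' n : ℕ, (if n = 0 then Helper94.B2.po (ENNReal.ofReal τ) n else 0) =
          Helper94.B2.po (ENNReal.ofReal τ) 0 := by
        rw [tsum_eq_single 0]
        · simp
        · intro n hn
          rw [if_neg hn]
      rw [← h3, ← ENNReal.tsum_add]
      refine tsum_congr fun n => ?_
      by_cases hn : n = 0 <;> simp [hn]
    have h4 : ∑' n, (if decide (n ≠ 0) = true then Helper94.B2.po (ENNReal.ofReal τ) n else 0) =
        ENNReal.ofReal (1 - Real.exp (-τ)) := by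
      rw [h0] at h2
      rw [ENNReal.ofReal_sub _ (Real.exp_pos _).le, ENNReal.ofReal_one, ← h2,
        ENNReal.add_sub_cancel_left ENNReal.ofReal_ne_top]
    rw [h4, Fin.sum_univ_three]
    have h5 : ENNReal.ofReal ((1 - Real.exp (-τ)) * (1 - s)) +
        ENNReal.ofReal ((1 - Real.exp (-τ)) * s) = ENNReal.ofReal (1 - Real.exp (-τ)) := by
      rw [← ENNReal.ofReal_add (mul_nonneg (by linarith) (by linarith))
        (mul_nonneg (by linarith) hs)]
      congr 1
      ring
    rw [← h5]
    simp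

/-- Both sides are `∑ S, (∏ i, weight) * G (c on S, 0 outside)` over the subsets `S` of `Fin N`.
Left: group `D` by its support, `∑' D, ∏ i, g i (D i) = ∏ i, ∑' n, g i n`
(`Helper94.B2.tsum_prod_pi`, `Helper94/B2/St/D6.lean`) with `g i n = po .. n` if `(n ≠ 0 ↔ i ∈ S)`, else `0`;
`∑' n, po τ n = 1` (`po_tsum`, `Helper94/B2/St/D7.lean`), `po τ 0 = ofReal (exp (-τ))`, so the factor is
`ofReal (exp (-(l t i)))` for `i ∉ S` and `ofReal (1 - exp (-(l t i)))` for `i ∈ S`. Right: the same with
the finite sums over `Fin 3` (`Finset.prod_univ_sum`, `Fintype.piFinset`): `ws .. 1 + ws .. 2 =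
1 - exp (-(l t i))`. -/
theorem sum_po_supp {N : ℕ} (t : Fin N → ℝ) (ht : ∀ i, 0 ≤ t i) {l s : ℝ} (hl : 0 ≤ l)
    (hs : 0 ≤ s) (hs1 : s ≤ 1) (c : Fin 3) (hc : c ≠ 0) (G : Om N → ℝ≥0∞) :
    ∑' D : Fin N → ℕ, (∏ i, Helper94.B2.po (ENNReal.ofReal (l * t i)) (D i)) *
        G (fun i => if D i = 0 then 0 else c) =
      ∑ ω : Om N, (∏ i, ENNReal.ofReal (ws t l s i (ω i))) *
        G (fun i => if ω i = 0 then 0 else c) := by
  rw [anq1_left (fun i n => Helper94.B2.po (ENNReal.ofReal (l * t i)) n) c G,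
    anq1_right (fun i n => ENNReal.ofReal (ws t l s i n)) c G]
  refine Finset.sum_congr rfl fun σ _ => ?_
  congr 1
  refine Finset.prod_congr rfl fun i _ => ?_
  exact anq1_cell (mul_nonneg hl (ht i)) hs hs1 (σ i)

end Pool.Agent.Helper28.AN
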