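import Mathlib
import Pool.Agent.Helper28.AN.Defs
import Pool.Agent.Helper28.AN.St.Q1
import Pool.Agent.Helper28.AN.St.L1
import Pool.Agent.Helper94.B2.St.J2
import Pool.Agent.Helper94.B2.St.J4
import Pool.Agent.Helper97.BG.St.M1
import Pool.Agent.Helper97.BG.St.V1

/-!
Project AN (MP_8410f8_pr), piece Q2.
-/

open MeasureTheory Set Filter Topology
open scoped ENNReal

namespace Pool.Agent.Helper28.AN

open Pool.Agent.Helper97.BG

/-- Almost every tuple has all its points in `E`. -/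
private lemma anq2_tup {S : Type*} [MeasurableSpace S] (mu : Measure S) [IsFiniteMeasure mu]
    {E : Set S} (hE : ∀ᵐ x ∂mu, x ∈ E) (n : ℕ) {f g : Set S → ℝ≥0∞}
    (h : ∀ A : Set S, A.Finite → A ⊆ E → f A ≤ g A) : tup mu n f ≤ tup mu n g := by
  unfold tup
  apply lintegral_mono_ae
  have h3 : ∀ᵐ X ∂(Measure.pi fun _ : Fin n => mu), ∀ i, X i ∈ E := by
    rw [ae_all_iff]
    intro i
    exact (Measure.tendsto_eval_ae_ae (μ := fun _ : Fin n => mu) (i := i)).eventually hE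
  filter_upwards [h3] with X hX
  apply h _ (Set.finite_range X)
  rintro _ ⟨i, rfl⟩
  exact hX i

private lemma anq2_Poi {S : Type*} [MeasurableSpace S] (mu : Measure S) [IsFiniteMeasure mu]
    {E : Set S} (hE : ∀ᵐ x ∂mu, x ∈ E) {f g : Set S → ℝ≥0∞}
    (h : ∀ A : Set S, A.Finite → A ⊆ E → f A ≤ g A) : Poi mu f ≤ Poi mu g := by
  unfold Poi
  exact mul_le_mul_right
    (ENNReal.tsum_le_tsum fun n => mul_le_mul_right (anq2_tup mu hE n h) _) _

private lemma anq2_J {S : Type*} [MeasurableSpace S] (M : ℕ) (nu : Fin M → Measure S)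
    (hnu : ∀ i, IsProbabilityMeasure (nu i)) (E : Fin M → Set S)
    (hE : ∀ i, ∀ᵐ x ∂(nu i), x ∈ E i) (D : Fin M → ℕ) (f : Set S → ℝ≥0∞) (c : ℝ≥0∞)
    (h : ∀ A : Set S, A.Finite → (∀ x ∈ A, ∃ i, D i ≠ 0 ∧ x ∈ E i) → f A ≤ c) :
    Helper94.B2.J M nu D f ≤ c := by
  induction M generalizing f with
  | zero => exact h ∅ Set.finite_empty (fun x hx => absurd hx (Set.notMem_empty x))
  | succ M ih =>
    have hp := hnu 0
    have hstep : ∀ A' : Set S, A'.Finite → (∀ x ∈ A', ∃ i : Fin (M + 1), D i ≠ 0 ∧ x ∈ E i) →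
        Helper94.B2.J M (fun i => nu i.succ) (fun i => D i.succ) (fun B => f (A' ∪ B)) ≤ c := by
      intro A' hA' hc
      refine ih (fun i => nu i.succ) (fun i => hnu i.succ) (fun i => E i.succ)
        (fun i => hE i.succ) (fun i => D i.succ) (fun B => f (A' ∪ B)) ?_
      intro B hB hBc
      refine h (A' ∪ B) (hA'.union hB) ?_
      rintro x (hx | hx)
      · exact hc x hx
      · obtain ⟨i, hi, hxi⟩ := hBc x hx
        exact ⟨i.succ, hi, hxi⟩
    show tup (nu 0) (D 0) (fun A' => Helper94.B2.J M (fun i => nu i.succ) (fun i => D i.succ)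
      fun B => f (A' ∪ B)) ≤ c
    by_cases h0 : D 0 = 0
    · rw [h0, tup_zero]
      exact hstep ∅ Set.finite_empty (fun x hx => absurd hx (Set.notMem_empty x))
    · refine (anq2_tup (nu 0) (hE 0) (D 0) (g := fun _ => c) ?_).trans ?_
      · intro A' hA' hA'E
        exact hstep A' hA' fun x hx => ⟨0, h0, hA'E hx⟩
      · rw [tup_const, measure_univ, one_pow, mul_one]

private lemma anq2_col {d N k : ℕ} {a₀ a h ρ : ℝ} (z : Fin N → Sph d) (U : Set (Sph d))
    (hh : 0 ≤ h) (haa : a₀ + 2 * ρ ≤ a) (ω : Om N) (A : Set (Sph d))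
    (hA : ∀ x ∈ A, ∃ p ∈ cfg z U ω, ‖(x : V d) - p.1‖ < ρ) (hc : ¬ Col a₀ k A) :
    FF a h k z U ω := by
  classical
  rintro ⟨c, hcc⟩
  apply hc
  have hne : Nonempty (Sph d × Bool) := ⟨((m1_nonempty d).some, true)⟩
  let φ : Sph d → Sph d × Bool := fun x =>
    if hx : ∃ p ∈ cfg z U ω, ‖(x : V d) - p.1‖ < ρ then hx.choose else hne.some
  have hφ : ∀ x ∈ A, φ x ∈ cfg z U ω ∧ ‖(x : V d) - (φ x).1‖ < ρ := by
    intro x hx
    have hx' := hA x hx
    have : φ x = hx'.choose := by simp only [φ, dif_pos hx']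
    rw [this]
    exact hx'.choose_spec
  refine ⟨fun x => c (φ x), ?_⟩
  intro u hu v hv huv
  obtain ⟨hu1, hu2⟩ := hφ u hu
  obtain ⟨hv1, hv2⟩ := hφ v hv
  apply hcc _ hu1 _ hv1
  unfold adjM
  have e : ((φ u).1 : V d) + (φ v).1 =
      ((u : V d) + v) - ((u : V d) - (φ u).1) - ((v : V d) - (φ v).1) := by abel
  have h1 : ‖((φ u).1 : V d) + (φ v).1‖ ≤ ‖(u : V d) + v‖ + ‖(u : V d) - (φ u).1‖ +
      ‖(v : V d) - (φ v).1‖ := by
    rw [e]
    exact (norm_sub_le _ _).trans (by gcongr; exact norm_sub_le _ _)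
  have h2 : 0 ≤ (if (φ u).2 then h else 0) := by split_ifs <;> simp [hh]
  have h3 : 0 ≤ (if (φ v).2 then h else 0) := by split_ifs <;> simp [hh]
  linarith

private lemma anq2_ind_le {p q : Prop} (h : p → q) : ind p ≤ ind q := by
  unfold ind
  by_cases hp : p
  · rw [if_pos hp, if_pos (h hp)]
  · rw [if_neg hp]; exact bot_le

private lemma anq2_ws {N : ℕ} {t : Fin N → ℝ} (ht : ∀ i, 0 ≤ t i) {l s : ℝ} (hl : 0 ≤ l)
    (hs : 0 ≤ s) (hs1 : s ≤ 1) (i : Fin N) (c : Fin 3) : 0 ≤ ws t l s i c := by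
  have h1 : 0 ≤ 1 - Real.exp (-(l * t i)) := by
    rw [sub_nonneg, Real.exp_le_one_iff, neg_nonpos]
    exact mul_nonneg hl (ht i)
  have h2 : 0 ≤ 1 - s := sub_nonneg.2 hs1
  fin_cases c
  · exact (Real.exp_pos _).le
  · exact mul_nonneg h1 h2
  · exact mul_nonneg h1 hs

private lemma anq2_final {N : ℕ} {t : Fin N → ℝ} (ht : ∀ i, 0 ≤ t i) {l s : ℝ} (hl : 0 ≤ l)
    (hs : 0 ≤ s) (hs1 : s ≤ 1) (F : Om N → Prop) :
    ENNReal.ofReal (Ex (ws t l s) fun ω => one (F ω)) =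
      ∑ ω : Om N, (∏ i, ENNReal.ofReal (ws t l s i (ω i))) * ind (F ω) := by
  unfold Ex wt
  have hw := anq2_ws (N := N) ht hl hs hs1
  have hone : ∀ p : Prop, 0 ≤ one p := by
    intro p; unfold one; split_ifs <;> norm_num
  rw [ENNReal.ofReal_sum_of_nonneg]
  · refine Finset.sum_congr rfl fun ω _ => ?_
    rw [ENNReal.ofReal_mul (Finset.prod_nonneg fun i _ => hw i (ω i)),
      ENNReal.ofReal_prod_of_nonneg (fun i _ => hw i (ω i))]
    have hoi : ∀ p : Prop, ENNReal.ofReal (one p) = ind p := by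
      intro p
      unfold one ind
      by_cases hp : p
      · rw [if_pos hp, if_pos hp, ENNReal.ofReal_one]
      · rw [if_neg hp, if_neg hp, ENNReal.ofReal_zero]
    rw [hoi]
  · intro ω _
    exact mul_nonneg (Finset.prod_nonneg fun i _ => hw i (ω i)) (hone _)

/-- `nu'` is finite (`nu' ≤ sig d`). Multiply `hsum` by `ofReal l`; `Poi_add_measure` (`Helper97/BG/St/P3.lean`)
and `Poi_split_cells` (`Helper94/B2/St/J2.lean`) give
`Poi (ofReal l • sig d) f = ∑' D, (∏ i, po (ofReal (l * t i)) (D i)) * J N nu D (fun A => Poi (ofReal l • nu') (fun B => f (A ∪ B)))`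
(or treat the two parts in the other order). For `f A = ind (¬ Col a₀ k A)` (`MS_notCol`), a finite set
`A` of points `x` with `‖x - z i‖ < ρ` for some `i` with `D i ≠ 0`, and a finite set `B` of points at
distance `< ρ` from `U`: `¬ Col a₀ k (A ∪ B)` implies `FF a h k z U ω` for `ω i = if D i = 0 then 0 else 1`
(send `x` to `(z i, false)` or to `(u, true)`: `‖x + y‖ < a₀` gives `‖φ x + φ y‖ < a₀ + 2 ρ ≤ a`). So
`J ≤ ind (FF .. ω)` (induction as in `J_del`, `Helper94/B2/St/J4.lean`: almost every point of `nu i` is in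
`ball (z i) ρ`, `tup_ae_mono`; `J` of a constant is the constant, `J_le_one`). Then `sum_po_supp` with
`c = 1`, and `FF (1 on the support of ω) → FF ω` (`FF_mono`). Finally
`ofReal (Ex w (one ∘ F)) = ∑ ω, (∏ ofReal (w i (ω i))) * ind (F ω)` (all weights are nonnegative). The
facts `sum_po_supp` and `FF_mono` are stated in this file as hypotheses-free theorems of other pieces;
import them. -/
theorem poi_lower {d N k : ℕ} {a₀ a h ρ l s : ℝ} (z : Fin N → Sph d) (U : Set (Sph d))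
    (t : Fin N → ℝ) (nu : Fin N → Measure (Sph d)) (nu' : Measure (Sph d))
    (hnu : ∀ i, IsProbabilityMeasure (nu i)) (h1 : ∀ i, ∀ᵐ x : Sph d ∂(nu i), ‖(x : V d) - z i‖ < ρ)
    (h2 : ∀ᵐ x : Sph d ∂nu', ∃ u ∈ U, ‖(x : V d) - u‖ < ρ) (ht : ∀ i, 0 ≤ t i)
    (hsum : (∑ i, ENNReal.ofReal (t i) • nu i) + nu' = sig d) (hl : 0 ≤ l) (hs : 0 ≤ s)
    (hs1 : s ≤ 1) (hh : 0 ≤ h) (haa : a₀ + 2 * ρ ≤ a) :
    Poi (ENNReal.ofReal l • sig d) (fun A => ind (¬ Col a₀ k A)) ≤
      ENNReal.ofReal (Ex (ws t l s) fun ω => one (FF a h k z U ω)) := by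
  classical
  have hfin' : IsFiniteMeasure nu' := by
    refine ⟨lt_of_le_of_lt ?_ (measure_lt_top (sig d) univ)⟩
    rw [← hsum, Measure.add_apply]
    exact le_add_self
  have hfinl : IsFiniteMeasure (ENNReal.ofReal l • nu') :=
    Measure.smul_finite nu' ENNReal.ofReal_ne_top
  have hfini : ∀ i, IsFiniteMeasure (ENNReal.ofReal (l * t i) • nu i) := fun i =>
    Measure.smul_finite (nu i) ENNReal.ofReal_ne_top
  have hmeas : ENNReal.ofReal l • sig d =
      ENNReal.ofReal l • nu' + ∑ i, ENNReal.ofReal (l * t i) • nu i := by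
    have e1 : ENNReal.ofReal l • (∑ i, ENNReal.ofReal (t i) • nu i) =
        ∑ i, ENNReal.ofReal (l * t i) • nu i := by
      rw [show ENNReal.ofReal l • (∑ i, ENNReal.ofReal (t i) • nu i) =
        ∑ i, ENNReal.ofReal l • (ENNReal.ofReal (t i) • nu i) from Finset.smul_sum]
      refine Finset.sum_congr rfl fun i _ => ?_
      rw [smul_smul, ENNReal.ofReal_mul hl]
    rw [← hsum, smul_add, e1]
    exact add_comm _ _
  have hf : MS (fun A : Set (Sph d) => ind (¬ Col a₀ k A)) := MS_notCol a₀ k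
  set R : ℝ≥0∞ := ∑' D : Fin N → ℕ, (∏ i, Helper94.B2.po (ENNReal.ofReal (l * t i)) (D i)) *
    ind (FF a h k z U (fun i => if D i = 0 then 0 else 1)) with hR
  have hmain : Poi (ENNReal.ofReal l • sig d) (fun A => ind (¬ Col a₀ k A)) ≤ R := by
    rw [hmeas, Poi_add_measure (ENNReal.ofReal l • nu') (∑ i, ENNReal.ofReal (l * t i) • nu i) hf]
    refine (anq2_Poi (ENNReal.ofReal l • nu')
      (E := {x : Sph d | ∃ u ∈ U, ‖(x : V d) - u‖ < ρ})
      (Measure.ae_smul_measure h2 _) (g := fun _ => R) ?_).trans (Poi_const _ _).le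
    intro B hB hBE
    rw [Helper94.B2.Poi_split_cells N (fun i => ENNReal.ofReal (l * t i))
      (fun i => ENNReal.ofReal_ne_top) nu (MS_union_left hf hB)]
    refine ENNReal.tsum_le_tsum fun D => ?_
    refine mul_le_mul_right ?_ _
    refine anq2_J N nu hnu (fun i => {x : Sph d | ‖(x : V d) - z i‖ < ρ}) h1 D _ _ ?_
    intro A _ hA
    refine anq2_ind_le fun hc => anq2_col z U hh haa _ (B ∪ A) ?_ hc
    rintro x (hx | hx)
    · obtain ⟨u, hu, hxu⟩ := hBE hx
      exact ⟨(u, true), Or.inr ⟨hu, rfl⟩, hxu⟩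
    · obtain ⟨i, hi, hxi⟩ := hA x hx
      refine ⟨(z i, false), Or.inl ⟨i, rfl, Or.inl ⟨?_, rfl⟩⟩, hxi⟩
      simp only [if_neg hi]
  refine hmain.trans ?_
  rw [hR, sum_po_supp t ht hl hs hs1 1 (by decide) (fun ω => ind (FF a h k z U ω)),
    anq2_final ht hl hs hs1]
  refine Finset.sum_le_sum fun ω _ => mul_le_mul_right (anq2_ind_le fun hF => ?_) _
  refine FF_mono hh z U ?_ hF
  intro i
  show (if ω i = 0 then 0 else 1) ≤ ω i
  generalize ω i = c
  fin_cases c <;> decide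

end Pool.Agent.Helper28.AN
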