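import Mathlib
import Pool.Agent.Helper28.AN.Defs
import Pool.Agent.Helper28.AN.St.Q1
import Pool.Agent.Helper28.AN.St.L1
import Pool.Agent.Helper94.B2.St.J2
import Pool.Agent.Helper94.B2.St.J4
import Pool.Agent.Helper97.BG.St.M1
import Pool.Agent.Helper97.BG.St.V1

/-!
Project AN (MP_8410f8_pr), piece Q3.
-/

open MeasureTheory Set Filter Topology
open scoped ENNReal

namespace Pool.Agent.Helper28.AN

open Pool.Agent.Helper97.BG

section Abstract

variable {S : Type*} [MeasurableSpace S]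

/-- As `tup_ae_mono`, but the sets may be assumed nonempty when `n ≠ 0`. -/
private lemma anq3_tup (nu : Measure S) [IsProbabilityMeasure nu] {E : Set S}
    (hE : ∀ᵐ x ∂nu, x ∈ E) (n : ℕ) {f g : Set S → ℝ≥0∞}
    (h : ∀ A : Set S, A.Finite → A ⊆ E → (n ≠ 0 → A.Nonempty) → f A ≤ g A) :
    tup nu n f ≤ tup nu n g := by
  unfold tup
  apply lintegral_mono_ae
  have h3 : ∀ᵐ X ∂(Measure.pi fun _ : Fin n => nu), ∀ i, X i ∈ E := by
    rw [ae_all_iff]
    intro i
    exact (Measure.tendsto_eval_ae_ae (μ := fun _ : Fin n => nu) (i := i)).eventually hE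
  filter_upwards [h3] with X hX
  apply h _ (Set.finite_range X)
  · rintro _ ⟨i, rfl⟩
    exact hX i
  · intro hn
    exact ⟨X ⟨0, Nat.pos_of_ne_zero hn⟩, ⟨_, rfl⟩⟩

/-- Lower bound for `J`. -/
private lemma anq3_J (M : ℕ) (nu : Fin M → Measure S) [∀ i, IsProbabilityMeasure (nu i)]
    (Bs : Fin M → Set S) (hBs : ∀ i, ∀ᵐ x ∂(nu i), x ∈ Bs i) (D : Fin M → ℕ) (c : ℝ≥0∞)
    (g : Set S → ℝ≥0∞)
    (h : ∀ A : Set S, A.Finite → (∀ i, D i ≠ 0 → (A ∩ Bs i).Nonempty) → c ≤ g A) :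
    c ≤ Helper94.B2.J M nu D g := by
  induction M generalizing g with
  | zero => exact h ∅ Set.finite_empty fun i => i.elim0
  | succ M ih =>
    show c ≤ tup (nu 0) (D 0) fun A =>
        Helper94.B2.J M (fun i => nu i.succ) (fun i => D i.succ) fun B => g (A ∪ B)
    have hc : tup (nu 0) (D 0) (fun _ => c) = c := by
      rw [tup_const, measure_univ, one_pow, mul_one]
    rw [← hc]
    refine anq3_tup (nu 0) (hBs 0) (D 0) fun A hA hAE hAn => ?_
    refine ih (fun i => nu i.succ) (fun i => Bs i.succ) (fun i => hBs i.succ)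
      (fun i => D i.succ) (fun B => g (A ∪ B)) fun B hB hBn => ?_
    refine h (A ∪ B) (hA.union hB) fun i => ?_
    refine Fin.cases (fun h0 => ?_) (fun j hj => ?_) i
    · obtain ⟨x, hx⟩ := hAn h0
      exact ⟨x, Or.inl hx, hAE hx⟩
    · obtain ⟨x, hx, hx2⟩ := hBn j hj
      exact ⟨x, Or.inr hx, hx2⟩

end Abstract

/-- The deterministic part. -/
private lemma anq3_det {d N k : ℕ} {a₁ a h ρ : ℝ} (z : Fin N → Sph d) (U : Set (Sph d))
    (hh : 0 ≤ h) (hρ : 0 ≤ ρ) (haa : a + 2 * h + 2 * ρ ≤ a₁) (D : Fin N → ℕ) (A : Set (Sph d))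
    (hA : ∀ i, D i ≠ 0 → (A ∩ {x | ‖(x : V d) - z i‖ < ρ}).Nonempty)
    (hF : FF a h k z U (fun i => if D i = 0 then 0 else 2)) : ¬ Col a₁ k (A ∪ U) := by
  rintro ⟨c, hc⟩
  apply hF
  have key : ∀ p : Sph d × Bool, ∃ x : Sph d,
      p ∈ cfg z U (fun i => if D i = 0 then 0 else 2) → x ∈ A ∪ U ∧ ‖(x : V d) - p.1‖ ≤ ρ := by
    intro p
    by_cases hp : p ∈ cfg z U (fun i => if D i = 0 then 0 else 2)
    · rcases hp with ⟨i, hi, hi2⟩ | ⟨hp1, hp2⟩
      · have hD : D i ≠ 0 := by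
          intro h0
          simp [h0] at hi2
        obtain ⟨x, hx1, hx2⟩ := hA i hD
        refine ⟨x, fun _ => ⟨Or.inl hx1, ?_⟩⟩
        rw [hi]
        exact le_of_lt hx2
      · refine ⟨p.1, fun _ => ⟨Or.inr hp1, ?_⟩⟩
        simpa using hρ
    · exact ⟨p.1, fun h => absurd h hp⟩
  choose φ hφ using key
  refine ⟨fun p => c (φ p), fun p hp q hq hpq => ?_⟩
  obtain ⟨hp1, hp2⟩ := hφ p hp
  obtain ⟨hq1, hq2⟩ := hφ q hq
  refine hc _ hp1 _ hq1 ?_
  unfold adjM at hpq
  have e : (φ p : V d) + φ q = ((p.1 : V d) + q.1) + (((φ p : V d) - p.1) + ((φ q : V d) - q.1)) := by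
    abel
  have h1 : ‖(φ p : V d) + φ q‖ ≤ ‖(p.1 : V d) + q.1‖ + (‖(φ p : V d) - p.1‖ + ‖(φ q : V d) - q.1‖) := by
    rw [e]
    refine (norm_add_le _ _).trans ?_
    gcongr
    exact norm_add_le _ _
  have h2 : (if p.2 then h else 0) ≤ h := by
    split_ifs
    · exact le_rfl
    · exact hh
  have h3 : (if q.2 then h else 0) ≤ h := by
    split_ifs
    · exact le_rfl
    · exact hh
  linarith

private lemma anq3_ws {N : ℕ} (t : Fin N → ℝ) (ht : ∀ i, 0 ≤ t i) {l s : ℝ} (hl : 0 ≤ l)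
    (hs : 0 ≤ s) (hs1 : s ≤ 1) (i : Fin N) (c : Fin 3) : 0 ≤ ws t l s i c := by
  have h1 : Real.exp (-(l * t i)) ≤ 1 := by
    rw [Real.exp_le_one_iff]
    have := mul_nonneg hl (ht i)
    linarith
  unfold ws
  fin_cases c
  · exact Real.exp_nonneg _
  · exact mul_nonneg (by linarith) (by linarith)
  · exact mul_nonneg (by linarith) hs

private lemma anq3_one (p : Prop) : ENNReal.ofReal (one p) = ind p := by
  unfold one ind
  by_cases h : p <;> simp [h]

private lemma anq3_Ex {N : ℕ} (w : Fin N → Fin 3 → ℝ) (hw : ∀ i c, 0 ≤ w i c) (F : Om N → Prop) :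
    ENNReal.ofReal (Ex w fun ω => one (F ω)) =
      ∑ ω : Om N, (∏ i, ENNReal.ofReal (w i (ω i))) * ind (F ω) := by
  have h1 : ∀ p : Prop, 0 ≤ one p := by
    intro p
    unfold one
    split_ifs <;> norm_num
  have h2 : ∀ ω : Om N, 0 ≤ wt w ω := fun ω => Finset.prod_nonneg fun i _ => hw _ _
  unfold Ex
  rw [ENNReal.ofReal_sum_of_nonneg fun ω _ => mul_nonneg (h2 ω) (h1 _)]
  refine Finset.sum_congr rfl fun ω _ => ?_
  rw [ENNReal.ofReal_mul (h2 ω), anq3_one]
  congr 1
  unfold wt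
  exact ENNReal.ofReal_prod_of_nonneg fun i _ => hw _ _

private lemma anq3_ind_mono {p q : Prop} (h : p → q) : ind p ≤ ind q := by
  unfold ind
  by_cases hp : p
  · simp [hp, h hp]
  · simp [hp]

/-- As in `poi_lower`, with the inequalities reversed: `FF ω → FF (2 on the support of ω)`
(`FF_mono`), `sum_po_supp` with `c = 2`; if `FF a h k z U ω` for `ω i = if D i = 0 then 0 else 2`, and `A`
is a finite set that contains for every `i` with `D i ≠ 0` a point `x i` with `‖x i - z i‖ < ρ`, then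
`¬ Col a₁ k (A ∪ B ∪ U)` for every `B`: send `(z i, true)` to `x i` and `(u, true)` to `u`:
`‖z i + z j‖ < a + 2 h` gives `‖x i + x j‖ < a + 2 h + 2 ρ ≤ a₁`. So `ind (FF ..) ≤ J ..` (lower bound for
`J` by induction on `N`: the set of the points in cell `i` is the range of a tuple of length `D i` of
points of `ball (z i) ρ`, almost surely). Measurability of `A ↦ ind (¬ Col a₁ k (A ∪ U))`:
`MS_union_left` (finite `U`), `MS_notCol`. -/
theorem poi_upper {d N k : ℕ} {a₁ a h ρ l s : ℝ} (z : Fin N → Sph d) (U : Set (Sph d))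
    (hU : U.Finite) (t : Fin N → ℝ) (nu : Fin N → Measure (Sph d)) (nu' : Measure (Sph d))
    (hnu : ∀ i, IsProbabilityMeasure (nu i)) (h1 : ∀ i, ∀ᵐ x : Sph d ∂(nu i), ‖(x : V d) - z i‖ < ρ)
    (ht : ∀ i, 0 ≤ t i)
    (hsum : (∑ i, ENNReal.ofReal (t i) • nu i) + nu' = sig d) (hl : 0 ≤ l) (hs : 0 ≤ s)
    (hs1 : s ≤ 1) (hh : 0 ≤ h) (hρ : 0 ≤ ρ) (haa : a + 2 * h + 2 * ρ ≤ a₁) :
    ENNReal.ofReal (Ex (ws t l s) fun ω => one (FF a h k z U ω)) ≤
      Poi (ENNReal.ofReal l • sig d) (fun A => ind (¬ Col a₁ k (A ∪ U))) := by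
  have hsig : IsProbabilityMeasure (sig d) := sig_prob d
  have hle : nu' ≤ sig d := by
    rw [← hsum]
    exact Measure.le_add_left le_rfl
  have hfin : IsFiniteMeasure nu' := isFiniteMeasure_of_le (sig d) hle
  have hfin2 : IsFiniteMeasure (ENNReal.ofReal l • nu') := Measure.smul_finite nu' ENNReal.ofReal_ne_top
  have hfin3 : ∀ i, IsFiniteMeasure (ENNReal.ofReal (l * t i) • nu i) := fun i =>
    Measure.smul_finite (nu i) ENNReal.ofReal_ne_top
  have hf : MS (fun A : Set (Sph d) => ind (¬ Col a₁ k (A ∪ U))) := by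
    have h2 := MS_union_left (MS_notCol (d := d) a₁ k) hU
    simpa only [Set.union_comm] using h2
  have hmeas : ENNReal.ofReal l • sig d =
      (∑ i, ENNReal.ofReal (l * t i) • nu i) + ENNReal.ofReal l • nu' := by
    rw [← hsum, smul_add, Finset.smul_sum]
    congr 1
    refine Finset.sum_congr rfl fun i _ => ?_
    rw [smul_smul, ENNReal.ofReal_mul hl]
  rw [hmeas, Poi_add_measure _ _ hf,
    Helper94.B2.Poi_split_cells N (fun i => ENNReal.ofReal (l * t i))
      (fun i => ENNReal.ofReal_ne_top) nu (MS_union_Poi _ hf)]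
  have hJ : ∀ D : Fin N → ℕ, ind (FF a h k z U (fun i => if D i = 0 then 0 else 2)) ≤
      Helper94.B2.J N nu D (fun A => Poi (ENNReal.ofReal l • nu')
        (fun B => ind (¬ Col a₁ k (A ∪ B ∪ U)))) := by
    intro D
    by_cases hF : FF a h k z U (fun i => if D i = 0 then 0 else 2)
    · have e1 : ind (FF a h k z U (fun i => if D i = 0 then 0 else 2)) = 1 := by
        unfold ind
        rw [if_pos hF]
      rw [e1]
      refine anq3_J N nu (fun i => {x | ‖(x : V d) - z i‖ < ρ}) h1 D 1 _ fun A _ hA => ?_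
      rw [← Poi_const (ENNReal.ofReal l • nu') 1]
      refine Poi_mono _ fun B _ => ?_
      have h3 : ¬ Col a₁ k (A ∪ B ∪ U) := by
        refine anq3_det z U hh hρ haa D (A ∪ B) (fun i hi => ?_) hF
        obtain ⟨x, hx1, hx2⟩ := hA i hi
        exact ⟨x, Or.inl hx1, hx2⟩
      unfold ind
      rw [if_pos h3]
    · have e1 : ind (FF a h k z U (fun i => if D i = 0 then 0 else 2)) = 0 := by
        unfold ind
        rw [if_neg hF]
      rw [e1]
      exact zero_le
  calc ENNReal.ofReal (Ex (ws t l s) fun ω => one (FF a h k z U ω))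
      = ∑ ω : Om N, (∏ i, ENNReal.ofReal (ws t l s i (ω i))) * ind (FF a h k z U ω) :=
        anq3_Ex _ (anq3_ws t ht hl hs hs1) _
    _ ≤ ∑ ω : Om N, (∏ i, ENNReal.ofReal (ws t l s i (ω i))) *
          ind (FF a h k z U (fun i => if ω i = 0 then 0 else 2)) := by
        refine Finset.sum_le_sum fun ω _ => mul_le_mul_right (anq3_ind_mono fun hF => ?_) _
        refine FF_mono hh z U (fun i => ?_) hF
        show ω i ≤ if ω i = 0 then 0 else 2
        split_ifs with h0
        · exact h0.le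
        · exact Fin.le_last _
    _ = ∑' D : Fin N → ℕ, (∏ i, Helper94.B2.po (ENNReal.ofReal (l * t i)) (D i)) *
          ind (FF a h k z U (fun i => if D i = 0 then 0 else 2)) :=
        (sum_po_supp t ht hl hs hs1 2 (by decide) fun ω => ind (FF a h k z U ω)).symm
    _ ≤ _ := ENNReal.tsum_le_tsum fun D => mul_le_mul_right (hJ D) _

end Pool.Agent.Helper28.AN
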