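import Mathlib
import Pool.Agent.Helper28.AN.Defs

/-!
Project AN (MP_8410f8_pr), piece R1.
-/

open MeasureTheory Set Filter Topology
open scoped ENNReal

namespace Pool.Agent.Helper28.AN

open Pool.Agent.Helper97.BG

section anr1

variable {d : ℕ}

/-- the pairing of the coordinates -/
private def anr1_sig (i : Fin (d + 1)) : Fin (d + 1) :=
  if i.1 % 2 = 0 then (if h : i.1 + 1 < d + 1 then ⟨i.1 + 1, h⟩ else i)
  else ⟨i.1 - 1, by omega⟩

/-- the signs of the pairing, `0` for an unpaired coordinate -/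
private noncomputable def anr1_eta (i : Fin (d + 1)) : ℝ :=
  if i.1 % 2 = 0 then (if i.1 + 1 < d + 1 then -1 else 0) else 1

private lemma anr1_sig_sig (i : Fin (d + 1)) : anr1_sig (anr1_sig i) = i := by
  unfold anr1_sig
  by_cases h0 : i.1 % 2 = 0
  · by_cases h1 : i.1 + 1 < d + 1
    · have h2 : (i.1 + 1) % 2 ≠ 0 := by omega
      simp [h0, h1, h2]
    · simp [h0, h1]
  · have h2 : (i.1 - 1) % 2 = 0 := by omega
    have h3 : i.1 - 1 + 1 < d + 1 := by omega
    have h4 : i.1 - 1 + 1 = i.1 := by omega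
    simp only [h0, if_false, h2, if_true, h3, dite_true]
    ext
    simp [h4]

private lemma anr1_eta_sig (i : Fin (d + 1)) : anr1_eta (anr1_sig i) = - anr1_eta i := by
  unfold anr1_sig anr1_eta
  by_cases h0 : i.1 % 2 = 0
  · by_cases h1 : i.1 + 1 < d + 1
    · have h2 : (i.1 + 1) % 2 ≠ 0 := by omega
      simp [h0, h1, h2]
    · simp [h0, h1]
  · have h2 : (i.1 - 1) % 2 = 0 := by omega
    have h3 : i.1 - 1 + 1 < d + 1 := by omega
    simp only [h0, if_false, h2, if_true, h3]

private lemma anr1_eta_cases (i : Fin (d + 1)) :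
    anr1_eta i = 0 ∨ anr1_eta i = 1 ∨ anr1_eta i = -1 := by
  unfold anr1_eta
  split_ifs
  · exact Or.inr (Or.inr rfl)
  · exact Or.inl rfl
  · exact Or.inr (Or.inl rfl)

private lemma anr1_sum_sig (f : Fin (d + 1) → ℝ) : ∑ i, f (anr1_sig i) = ∑ i, f i := by
  have hinv : Function.Involutive (anr1_sig : Fin (d + 1) → Fin (d + 1)) := anr1_sig_sig
  exact Equiv.sum_comp hinv.toPerm f

/-- rotation by `t` in all pairs -/
private noncomputable def anr1_L (t : ℝ) : V d →ₗ[ℝ] V d where
  toFun x := WithLp.toLp 2 fun i =>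
    (1 + (Real.cos t - 1) * anr1_eta i ^ 2) * x i + Real.sin t * anr1_eta i * x (anr1_sig i)
  map_add' x y := by
    ext i
    simp only [PiLp.add_apply]
    ring
  map_smul' c x := by
    ext i
    simp only [PiLp.smul_apply, smul_eq_mul, RingHom.id_apply]
    ring

private lemma anr1_L_apply (t : ℝ) (x : V d) (i : Fin (d + 1)) :
    anr1_L t x i =
    (1 + (Real.cos t - 1) * anr1_eta i ^ 2) * x i + Real.sin t * anr1_eta i * x (anr1_sig i) :=
  rfl

private lemma anr1_L_add (s t : ℝ) (x : V d) : anr1_L s (anr1_L t x) = anr1_L (s + t) x := by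
  ext i
  rw [anr1_L_apply, anr1_L_apply, anr1_L_apply, anr1_L_apply, anr1_sig_sig, anr1_eta_sig,
    Real.cos_add, Real.sin_add]
  rcases anr1_eta_cases i with h | h | h <;> rw [h] <;> ring

private lemma anr1_L_zero (x : V d) : anr1_L 0 x = x := by
  ext i
  rw [anr1_L_apply, Real.cos_zero, Real.sin_zero]
  ring

private lemma anr1_L_norm (t : ℝ) (x : V d) : ‖anr1_L t x‖ = ‖x‖ := by
  rw [← sq_eq_sq₀ (norm_nonneg _) (norm_nonneg _), EuclideanSpace.real_norm_sq_eq,
    EuclideanSpace.real_norm_sq_eq]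
  have h1 : ∀ i, (anr1_L t x i) ^ 2 = (1 + (Real.cos t - 1) * anr1_eta i ^ 2) ^ 2 * x i ^ 2 +
      (Real.sin t * anr1_eta i) ^ 2 * x (anr1_sig i) ^ 2 +
      2 * ((1 + (Real.cos t - 1) * anr1_eta i ^ 2) * (Real.sin t * anr1_eta i) *
        (x i * x (anr1_sig i))) := by
    intro i
    rw [anr1_L_apply]
    ring
  rw [Finset.sum_congr rfl fun i _ => h1 i, Finset.sum_add_distrib, Finset.sum_add_distrib,
    ← Finset.mul_sum]
  have h2 : ∑ i, (1 + (Real.cos t - 1) * anr1_eta i ^ 2) * (Real.sin t * anr1_eta i) *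
      (x i * x (anr1_sig i)) = 0 := by
    have h3 := anr1_sum_sig (fun i => (1 + (Real.cos t - 1) * anr1_eta i ^ 2) *
      (Real.sin t * anr1_eta i) * (x i * x (anr1_sig i)))
    have h4 : ∀ i : Fin (d + 1), (1 + (Real.cos t - 1) * anr1_eta (anr1_sig i) ^ 2) *
        (Real.sin t * anr1_eta (anr1_sig i)) * (x (anr1_sig i) * x (anr1_sig (anr1_sig i))) =
        -((1 + (Real.cos t - 1) * anr1_eta i ^ 2) *
      (Real.sin t * anr1_eta i) * (x i * x (anr1_sig i))) := by
      intro i
      rw [anr1_sig_sig, anr1_eta_sig]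
      ring
    simp only at h3
    rw [Finset.sum_congr rfl fun i _ => h4 i, Finset.sum_neg_distrib] at h3
    linarith
  have h5 : ∑ i, (Real.sin t * anr1_eta i) ^ 2 * x (anr1_sig i) ^ 2 =
      ∑ i, (Real.sin t * anr1_eta i) ^ 2 * x i ^ 2 := by
    rw [← anr1_sum_sig (fun i => (Real.sin t * anr1_eta i) ^ 2 * x i ^ 2)]
    refine Finset.sum_congr rfl fun i _ => ?_
    rw [anr1_eta_sig]
    ring
  rw [h2, h5, mul_zero, add_zero, ← Finset.sum_add_distrib]
  refine Finset.sum_congr rfl fun i _ => ?_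
  have h6 := Real.sin_sq_add_cos_sq t
  rcases anr1_eta_cases i with h | h | h <;> rw [h]
  · ring
  · linear_combination (x i ^ 2) * h6
  · linear_combination (x i ^ 2) * h6

private lemma anr1_L_disp (t : ℝ) (x : V d) :
    ‖anr1_L t x - x‖ ^ 2 = 2 * (1 - Real.cos t) * ∑ i, anr1_eta i ^ 2 * x i ^ 2 := by
  rw [EuclideanSpace.real_norm_sq_eq]
  have h1 : ∀ i, ((anr1_L t x - x) i) ^ 2 = ((Real.cos t - 1) * anr1_eta i ^ 2) ^ 2 * x i ^ 2 +
      (Real.sin t * anr1_eta i) ^ 2 * x (anr1_sig i) ^ 2 +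
      2 * (((Real.cos t - 1) * anr1_eta i ^ 2) * (Real.sin t * anr1_eta i) *
        (x i * x (anr1_sig i))) := by
    intro i
    rw [PiLp.sub_apply, anr1_L_apply]
    ring
  rw [Finset.sum_congr rfl fun i _ => h1 i, Finset.sum_add_distrib, Finset.sum_add_distrib,
    ← Finset.mul_sum]
  have h2 : ∑ i, ((Real.cos t - 1) * anr1_eta i ^ 2) * (Real.sin t * anr1_eta i) *
      (x i * x (anr1_sig i)) = 0 := by
    have h3 := anr1_sum_sig (fun i => ((Real.cos t - 1) * anr1_eta i ^ 2) *
      (Real.sin t * anr1_eta i) * (x i * x (anr1_sig i)))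
    have h4 : ∀ i : Fin (d + 1), ((Real.cos t - 1) * anr1_eta (anr1_sig i) ^ 2) *
        (Real.sin t * anr1_eta (anr1_sig i)) * (x (anr1_sig i) * x (anr1_sig (anr1_sig i))) =
        -(((Real.cos t - 1) * anr1_eta i ^ 2) *
      (Real.sin t * anr1_eta i) * (x i * x (anr1_sig i))) := by
      intro i
      rw [anr1_sig_sig, anr1_eta_sig]
      ring
    simp only at h3
    rw [Finset.sum_congr rfl fun i _ => h4 i, Finset.sum_neg_distrib] at h3
    linarith
  have h5 : ∑ i, (Real.sin t * anr1_eta i) ^ 2 * x (anr1_sig i) ^ 2 =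
      ∑ i, (Real.sin t * anr1_eta i) ^ 2 * x i ^ 2 := by
    rw [← anr1_sum_sig (fun i => (Real.sin t * anr1_eta i) ^ 2 * x i ^ 2)]
    refine Finset.sum_congr rfl fun i _ => ?_
    rw [anr1_eta_sig]
    ring
  rw [h2, h5, mul_zero, add_zero, ← Finset.sum_add_distrib, Finset.mul_sum]
  refine Finset.sum_congr rfl fun i _ => ?_
  have h6 := Real.sin_sq_add_cos_sq t
  rcases anr1_eta_cases i with h | h | h <;> rw [h]
  · ring
  · linear_combination (x i ^ 2) * h6
  · linear_combination (x i ^ 2) * h6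

/-- the rotation as a linear isometry equivalence -/
private noncomputable def anr1_E (t : ℝ) : V d ≃ₗᵢ[ℝ] V d where
  toLinearEquiv := LinearEquiv.ofLinear (anr1_L t) (anr1_L (-t))
    (by
      ext1 x
      rw [LinearMap.comp_apply, anr1_L_add, add_neg_cancel, anr1_L_zero]
      rfl)
    (by
      ext1 x
      rw [LinearMap.comp_apply, anr1_L_add, neg_add_cancel, anr1_L_zero]
      rfl)
  norm_map' x := anr1_L_norm t x

private lemma anr1_E_apply (t : ℝ) (x : V d) : anr1_E t x = anr1_L t x := rfl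

private lemma anr1_E_pow (t : ℝ) (j : ℕ) (x : V d) :
    ((anr1_E t : V d ≃ₗᵢ[ℝ] V d) ^ j) x = anr1_L (j * t) x := by
  induction j with
  | zero =>
    rw [pow_zero, Nat.cast_zero, zero_mul, anr1_L_zero]
    rfl
  | succ j ih =>
    rw [pow_succ']
    show anr1_E t (((anr1_E t : V d ≃ₗᵢ[ℝ] V d) ^ j) x) = _
    rw [ih, anr1_E_apply, anr1_L_add]
    have hjt : t + j * t = ((j + 1 : ℕ) : ℝ) * t := by
      push_cast
      ring
    rw [hjt]

private lemma anr1_le_of_sq {a b : ℝ} (hb : 0 ≤ b) (h : a ^ 2 ≤ b ^ 2) : a ≤ b := by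
  by_contra hc
  push Not at hc
  nlinarith

private lemma anr1_min (f : ℕ → ℝ) (M : ℕ) (hf : ∀ j, 0 < j → j < M → 0 < f j) :
    ∃ m, 0 < m ∧ ∀ j, 0 < j → j < M → m ≤ f j := by
  induction M with
  | zero => exact ⟨1, one_pos, fun j _ h => absurd h (Nat.not_lt_zero j)⟩
  | succ M ih =>
    obtain ⟨m, hm, h⟩ := ih fun j h0 h1 => hf j h0 (by omega)
    rcases Nat.eq_zero_or_pos M with hM | hM
    · exact ⟨1, one_pos, fun j h0 h1 => by omega⟩
    · refine ⟨min m (f M), lt_min hm (hf M hM (by omega)), fun j h0 h1 => ?_⟩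
      rcases Nat.lt_succ_iff_lt_or_eq.1 h1 with h2 | h2
      · exact (min_le_left _ _).trans (h j h0 h2)
      · rw [h2]
        exact min_le_right _ _

private lemma anr1_cos (M j : ℕ) (h0 : 0 < j) (h1 : j < M) :
    0 < 1 - Real.cos (j * (2 * Real.pi / M)) := by
  have hM : (0 : ℝ) < M := by exact_mod_cast (by omega : 0 < M)
  have hj : (0 : ℝ) < j := by exact_mod_cast h0
  have hjM : (j : ℝ) < M := by exact_mod_cast h1
  have hp := Real.pi_pos
  have hpos : 0 < (j : ℝ) * (2 * Real.pi / M) := by positivity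
  have hlt : (j : ℝ) * (2 * Real.pi / M) < 2 * Real.pi := by
    rw [mul_div_assoc', div_lt_iff₀ hM]
    nlinarith
  have hne : Real.cos (j * (2 * Real.pi / M)) ≠ 1 := by
    rw [Ne, Real.cos_eq_one_iff_of_lt_of_lt (by linarith) hlt]
    exact hpos.ne'
  have := lt_of_le_of_ne (Real.cos_le_one _) hne
  linarith

private lemma anr1_nrm_le (e x : Sph d) : nrm e x ≤ 2 := by
  unfold nrm
  refine (min_le_left _ _).trans ((norm_sub_le _ _).trans ?_)
  have h1 : ‖(x : V d)‖ = 1 := mem_sphere_zero_iff_norm.1 x.2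
  have h2 : ‖(e : V d)‖ = 1 := mem_sphere_zero_iff_norm.1 e.2
  rw [h1, h2]
  norm_num

private lemma anr1_nrm_nonneg (e x : Sph d) : 0 ≤ nrm e x :=
  le_min (norm_nonneg _) (norm_nonneg _)

end anr1

/-- Pair the coordinates `0,1`, `2,3`, ..: for `i : Fin (d+1)` let `i` be paired with `i+1` if `i` is even
and `i + 1 ≤ d`, with `i - 1` if `i` is odd; if `d` is even the coordinate `d` is unpaired. Rotation by
the angle `θ` in all pairs: `(R_θ x)_i = cos θ x_i + ε_i sin θ x_{σ i}` for paired `i` (`σ` the pairing,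
`ε_i = -1` for even `i`, `+1` for odd `i`), `(R_θ x)_i = x_i` for the unpaired one. `R_θ R_φ = R_{θ+φ}`
(coordinatewise), `‖R_θ x‖ = ‖x‖` (the cross terms cancel under `σ`: `Finset.sum_involution` or
`Equiv.sum_comp`), so `R_θ` is a linear isometry equivalence with inverse `R_{-θ}`; `R = R_{2π/M}`.
`R^j = R_{2πj/M}`, `R^M = id`. `‖R_θ x - x‖ ^ 2 = 2 (1 - cos θ) ‖x'‖ ^ 2`, `x'` the paired coordinates. For
`0 < j < M` `1 - cos (2πj/M) ≥ min over these j =: m > 0` (finitely many, or `cos < 1`).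
Case `d` odd (all paired): `‖R^j x - x‖ ≥ √(2m)` for unit vectors; `e` arbitrary (the sphere is
nonempty), `nrm e x ≤ 2`, `κ = √(2m) / 2`. Case `d` even: `e` = last basis vector, `R e = e`,
`nrm e x ^ 2 ≤ 2 - 2 |x_d| ≤ 2 (1 - x_d ^ 2) = 2 ‖x'‖ ^ 2`. (`nrm`: see `Helper97/BG/Defs.lean`.) -/
theorem exists_rot (d : ℕ) (hd : 1 ≤ d) (M : ℕ) (hM : 0 < M) :
    ∃ (R : V d ≃ₗᵢ[ℝ] V d) (e : Sph d) (κ : ℝ), 0 < κ ∧ (∀ x, (R ^ M) x = x) ∧
      (∀ x : Sph d, ∀ j, 0 < j → j < M → κ * nrm e x ≤ ‖(R ^ j) (x : V d) - x‖) ∧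
      ((R e = e) ∨ ∀ x : Sph d, ∀ j, 0 < j → j < M → κ ≤ ‖(R ^ j) (x : V d) - x‖) := by
  classical
  obtain ⟨m, hm, hmin⟩ := anr1_min (fun j => 1 - Real.cos (j * (2 * Real.pi / M))) M
    fun j h0 h1 => anr1_cos M j h0 h1
  have he : EuclideanSpace.single (Fin.last d) (1 : ℝ) ∈ Metric.sphere (0 : V d) 1 := by
    rw [mem_sphere_zero_iff_norm, EuclideanSpace.norm_single, norm_one]
  have hRM : ∀ x : V d, ((anr1_E (2 * Real.pi / M) : V d ≃ₗᵢ[ℝ] V d) ^ M) x = x := by
    intro x
    have hM0 : (M : ℝ) ≠ 0 := by exact_mod_cast hM.ne'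
    rw [anr1_E_pow, mul_div_cancel₀ _ hM0]
    ext i
    rw [anr1_L_apply, Real.cos_two_pi, Real.sin_two_pi]
    ring
  have hdisp : ∀ (x : V d) (j : ℕ),
      ‖((anr1_E (2 * Real.pi / M) : V d ≃ₗᵢ[ℝ] V d) ^ j) x - x‖ ^ 2 =
      2 * (1 - Real.cos (j * (2 * Real.pi / M))) * ∑ i, anr1_eta i ^ 2 * x i ^ 2 := by
    intro x j
    rw [anr1_E_pow, anr1_L_disp]
  have hx1 : ∀ x : Sph d, ∑ i, (x : V d) i ^ 2 = 1 := by
    intro x
    rw [← EuclideanSpace.real_norm_sq_eq, mem_sphere_zero_iff_norm.1 x.2, one_pow]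
  rcases Nat.even_or_odd d with hd2 | hd2
  · -- the last coordinate is unpaired
    have hd0 : d % 2 = 0 := Nat.even_iff.1 hd2
    have hlast : anr1_eta (Fin.last d) = 0 := by
      unfold anr1_eta
      rw [if_pos (by simpa using hd0), if_neg (by simp)]
    have hother : ∀ i : Fin (d + 1), i ≠ Fin.last d → anr1_eta i ^ 2 = 1 := by
      intro i hi
      have h1 : i.1 < d := by
        have := i.2
        have h2 : i.1 ≠ d := fun h => hi (Fin.ext (by simpa using h))
        omega
      unfold anr1_eta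
      split_ifs
      · norm_num
      · omega
      · norm_num
    refine ⟨anr1_E (2 * Real.pi / M), ⟨_, he⟩, Real.sqrt m, Real.sqrt_pos.2 hm, hRM, ?_,
      Or.inl ?_⟩
    · intro x j h0 h1
      have h2 := hmin j h0 h1
      have hsum : ∑ i, anr1_eta i ^ 2 * (x : V d) i ^ 2 = 1 - (x : V d) (Fin.last d) ^ 2 := by
        have h3 : ∀ i, anr1_eta i ^ 2 * (x : V d) i ^ 2 =
            (x : V d) i ^ 2 - (if i = Fin.last d then (x : V d) i ^ 2 else 0) := by
          intro i
          by_cases hi : i = Fin.last d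
          · rw [if_pos hi, hi, hlast]
            ring
          · rw [if_neg hi, hother i hi]
            ring
        rw [Finset.sum_congr rfl fun i _ => h3 i, Finset.sum_sub_distrib, hx1 x,
          Finset.sum_ite_eq' Finset.univ (Fin.last d) fun i => (x : V d) i ^ 2,
          if_pos (Finset.mem_univ _)]
      have hinner : ∀ c : ℝ, ‖(x : V d) + c • EuclideanSpace.single (Fin.last d) (1 : ℝ)‖ ^ 2 =
          1 + 2 * c * (x : V d) (Fin.last d) + c ^ 2 := by
        intro c
        rw [EuclideanSpace.real_norm_sq_eq]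
        have h3 : ∀ i, ((x : V d) + c • EuclideanSpace.single (Fin.last d) (1 : ℝ) : V d) i ^ 2 =
            (x : V d) i ^ 2 +
            (if i = Fin.last d then 2 * c * (x : V d) i + c ^ 2 else 0) := by
          intro i
          by_cases hi : i = Fin.last d
          · subst hi
            simp
            ring
          · simp [hi]
        rw [Finset.sum_congr rfl fun i _ => h3 i, Finset.sum_add_distrib, hx1 x,
          Finset.sum_ite_eq' Finset.univ (Fin.last d) fun i => 2 * c * (x : V d) i + c ^ 2,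
          if_pos (Finset.mem_univ _)]
        ring
      have hxl : |(x : V d) (Fin.last d)| ≤ 1 := by
        rw [abs_le_one_iff_mul_self_le_one]
        have h3 : (x : V d) (Fin.last d) ^ 2 ≤ ∑ i, (x : V d) i ^ 2 :=
          Finset.single_le_sum (f := fun i => (x : V d) i ^ 2) (fun i _ => sq_nonneg _)
            (Finset.mem_univ _)
        rw [hx1 x] at h3
        nlinarith
      have hn : nrm (⟨_, he⟩ : Sph d) x ^ 2 ≤ 2 * (1 - (x : V d) (Fin.last d) ^ 2) := by
        have h5 : nrm (⟨_, he⟩ : Sph d) x ^ 2 ≤ 2 - 2 * |(x : V d) (Fin.last d)| := by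
          have h0' := anr1_nrm_nonneg (⟨_, he⟩ : Sph d) x
          rcases abs_cases ((x : V d) (Fin.last d)) with ⟨h6, -⟩ | ⟨h6, -⟩
          · rw [h6]
            have h7 := hinner (-1)
            rw [neg_one_smul, ← sub_eq_add_neg] at h7
            have h8 : nrm (⟨_, he⟩ : Sph d) x ≤
                ‖(x : V d) - EuclideanSpace.single (Fin.last d) (1 : ℝ)‖ := min_le_left _ _
            have h9 := pow_le_pow_left₀ h0' h8 2
            linarith
          · rw [h6]
            have h7 := hinner 1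
            rw [one_smul] at h7
            have h8 : nrm (⟨_, he⟩ : Sph d) x ≤
                ‖(x : V d) + EuclideanSpace.single (Fin.last d) (1 : ℝ)‖ := min_le_right _ _
            have h9 := pow_le_pow_left₀ h0' h8 2
            linarith
        have h10 : (x : V d) (Fin.last d) ^ 2 ≤ |(x : V d) (Fin.last d)| := by
          rw [← sq_abs]
          nlinarith [abs_nonneg ((x : V d) (Fin.last d))]
        linarith
      refine anr1_le_of_sq (norm_nonneg _) ?_
      rw [hdisp, hsum, mul_pow, Real.sq_sqrt hm.le]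
      have h11 : 0 ≤ 1 - (x : V d) (Fin.last d) ^ 2 := by
        nlinarith [sq_nonneg (nrm (⟨_, he⟩ : Sph d) x)]
      calc m * nrm (⟨_, he⟩ : Sph d) x ^ 2 ≤ m * (2 * (1 - (x : V d) (Fin.last d) ^ 2)) :=
            mul_le_mul_of_nonneg_left hn hm.le
        _ ≤ 2 * (1 - Real.cos (j * (2 * Real.pi / M))) * (1 - (x : V d) (Fin.last d) ^ 2) := by
            nlinarith [mul_le_mul_of_nonneg_right h2 h11]
    · rw [anr1_E_apply]
      ext i
      rw [anr1_L_apply]
      by_cases hi : i = Fin.last d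
      · rw [hi, hlast]
        ring
      · have h2 : anr1_sig i ≠ Fin.last d := by
          intro h3
          have h4 := anr1_eta_sig i
          rw [h3, hlast] at h4
          have h5 := hother i hi
          have h6 : anr1_eta i = 0 := by linarith
          rw [h6] at h5
          norm_num at h5
        simp [hi, h2]
  · -- all coordinates are paired
    have hd0 : d % 2 = 1 := Nat.odd_iff.1 hd2
    have hall : ∀ i : Fin (d + 1), anr1_eta i ^ 2 = 1 := by
      intro i
      have := i.2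
      unfold anr1_eta
      split_ifs
      · norm_num
      · omega
      · norm_num
    have hsum : ∀ x : Sph d, ∑ i, anr1_eta i ^ 2 * (x : V d) i ^ 2 = 1 := by
      intro x
      rw [← hx1 x]
      exact Finset.sum_congr rfl fun i _ => by rw [hall i, one_mul]
    have hlow : ∀ x : Sph d, ∀ j, 0 < j → j < M → Real.sqrt (2 * m) ≤
        ‖((anr1_E (2 * Real.pi / M) : V d ≃ₗᵢ[ℝ] V d) ^ j) (x : V d) - x‖ := by
      intro x j h0 h1
      apply Real.sqrt_le_iff.2
      refine ⟨norm_nonneg _, ?_⟩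
      rw [hdisp, hsum x, mul_one]
      exact mul_le_mul_of_nonneg_left (hmin j h0 h1) (by norm_num)
    have hs : 0 < Real.sqrt (2 * m) := Real.sqrt_pos.2 (by positivity)
    refine ⟨anr1_E (2 * Real.pi / M), ⟨_, he⟩, Real.sqrt (2 * m) / 2, by positivity, hRM, ?_,
      Or.inr ?_⟩
    · intro x j h0 h1
      refine le_trans ?_ (hlow x j h0 h1)
      have h2 := anr1_nrm_le (⟨_, he⟩ : Sph d) x
      nlinarith
    · intro x j h0 h1
      refine le_trans ?_ (hlow x j h0 h1)
      linarith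

end Pool.Agent.Helper28.AN
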