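import Mathlib
import Pool.Agent.Helper28.AN.Defs
import Pool.Agent.Helper28.AN.St.R1
import Pool.Agent.Helper94.B2.St.G1

/-!
Project AN (MP_8410f8_pr), piece S1.
-/

open MeasureTheory Set Filter Topology
open scoped ENNReal

namespace Pool.Agent.Helper28.AN

open Pool.Agent.Helper97.BG

section ans1

variable {d : ℕ}

private lemma ans1_rot_coe (R : V d ≃ₗᵢ[ℝ] V d) (x : Sph d) : ((rot R x : Sph d) : V d) = R x := rfl

private lemma ans1_pow_succ (R : V d ≃ₗᵢ[ℝ] V d) (j : ℕ) (x : V d) :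
    (R ^ (j + 1)) x = R ((R ^ j) x) := by
  rw [pow_succ']
  rfl

private lemma ans1_pow_add (R : V d ≃ₗᵢ[ℝ] V d) (i j : ℕ) (x : V d) :
    (R ^ (i + j)) x = (R ^ i) ((R ^ j) x) := by
  rw [pow_add]
  rfl

private lemma ans1_pow_zero (R : V d ≃ₗᵢ[ℝ] V d) (x : V d) : (R ^ 0) x = x := by
  rw [pow_zero]
  rfl

private lemma ans1_norm_pow (R : V d ≃ₗᵢ[ℝ] V d) (i : ℕ) (x y : V d) :
    ‖(R ^ i) x - (R ^ i) y‖ = ‖x - y‖ := by
  rw [← map_sub, LinearIsometryEquiv.norm_map]

private lemma ans1_rot_neg (R : V d ≃ₗᵢ[ℝ] V d) (x : Sph d) : rot R (-x) = -rot R x := by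
  apply Subtype.ext
  rw [ans1_rot_coe, coe_neg_sphere, coe_neg_sphere, map_neg, ans1_rot_coe]

private lemma ans1_rot_inj (R : V d ≃ₗᵢ[ℝ] V d) {x y : Sph d} (h : rot R x = rot R y) : x = y := by
  apply Subtype.ext
  apply R.injective
  have := congrArg (fun z : Sph d => (z : V d)) h
  exact this

private lemma ans1_rot_pow_succ (R : V d ≃ₗᵢ[ℝ] V d) (j : ℕ) (x : Sph d) :
    rot R (rot (R ^ j) x) = rot (R ^ (j + 1)) x := by
  apply Subtype.ext
  rw [ans1_rot_coe, ans1_rot_coe, ans1_rot_coe, ans1_pow_succ]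

private lemma ans1_rot_zero (R : V d ≃ₗᵢ[ℝ] V d) (x : Sph d) : rot (R ^ 0) x = x := by
  apply Subtype.ext
  rw [ans1_rot_coe, ans1_pow_zero]

private lemma ans1_rot_M {R : V d ≃ₗᵢ[ℝ] V d} {M : ℕ} (hRM : ∀ x : V d, (R ^ M) x = x) (x : Sph d) :
    rot (R ^ M) x = x := by
  apply Subtype.ext
  rw [ans1_rot_coe, hRM]

private lemma ans1_nrm_rot {R : V d ≃ₗᵢ[ℝ] V d} {e : Sph d} (he : R (e : V d) = e) (j : ℕ)
    (p : Sph d) : nrm e (rot (R ^ j) p) = nrm e p := by
  have hej : ∀ j : ℕ, (R ^ j) (e : V d) = e := by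
    intro j
    induction j with
    | zero => exact ans1_pow_zero R _
    | succ j ih => rw [ans1_pow_succ, ih, he]
  unfold nrm
  rw [ans1_rot_coe]
  congr 1
  · conv_lhs => rw [← hej j]
    rw [← map_sub, LinearIsometryEquiv.norm_map]
  · conv_lhs => rw [← hej j]
    rw [← map_add, LinearIsometryEquiv.norm_map]

private lemma ans1_nrm_neg (e p : Sph d) : nrm e (-p) = nrm e p := by
  unfold nrm
  rw [coe_neg_sphere, min_comm]
  congr 1
  · rw [← norm_neg]
    congr 1
    abel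
  · rw [← norm_neg]
    congr 1
    abel

private lemma ans1_nrm_le (e p x : Sph d) : nrm e p ≤ nrm e x + ‖(x : V d) - p‖ := by
  unfold nrm
  rw [← min_add_add_right]
  refine le_min ?_ ?_
  · refine (min_le_left _ _).trans ?_
    have : (p : V d) - e = ((x : V d) - e) - ((x : V d) - p) := by abel
    rw [this]
    exact norm_sub_le _ _
  · refine (min_le_right _ _).trans ?_
    have : (p : V d) + e = ((x : V d) + e) - ((x : V d) - p) := by abel
    rw [this]
    exact norm_sub_le _ _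

/-- the orbits of the points of `T` are separated -/
private def ans1_Sep (R : V d ≃ₗᵢ[ℝ] V d) (M : ℕ) (ρ : ℝ) (T : Finset (Sph d)) : Prop :=
  ∀ x ∈ T, ∀ y ∈ T, ∀ i < M, ∀ j < M, (x, i) ≠ (y, j) →
    ρ ≤ ‖(R ^ i) (x : V d) - (R ^ j) (y : V d)‖

/-- a maximal system of orbits -/
private lemma ans1_exists_T (R : V d ≃ₗᵢ[ℝ] V d) {M : ℕ} (hM : 0 < M)
    (hRM : ∀ x : V d, (R ^ M) x = x) {ρ : ℝ} (hρ : 0 < ρ) :
    ∃ T : Finset (Sph d), ans1_Sep R M ρ T ∧
      ∀ x : Sph d, (∀ j, 0 < j → j < M → 2 * ρ ≤ ‖(R ^ j) (x : V d) - x‖) →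
        ∃ y ∈ T, ∃ j < M, ‖(x : V d) - (R ^ j) (y : V d)‖ < ρ := by
  classical
  let P : ℕ → Prop := fun n => ∃ t : Finset (Sph d), t.card = n ∧ ans1_Sep R M ρ t
  have hbd : ∀ n, P n → n ≤ ⌈(1 + 2 * 1 / ρ) ^ (d + 1)⌉₊ := by
    rintro n ⟨t, rfl, ht⟩
    have h1 : ((t.image (fun x : Sph d => (x : V d))).card : ℝ) ≤ (1 + 2 * 1 / ρ) ^ (d + 1) := by
      refine Helper94.B2.packing (0 : V d) hρ zero_le_one _ ?_ ?_
      · intro x hx y hy hxy
        obtain ⟨x', hx', rfl⟩ := Finset.mem_image.1 hx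
        obtain ⟨y', hy', rfl⟩ := Finset.mem_image.1 hy
        have := ht x' hx' y' hy' 0 hM 0 hM fun h => hxy (by
            have h2 : x' = y' := (Prod.ext_iff.1 h).1
            rw [h2])
        rwa [ans1_pow_zero, ans1_pow_zero] at this
      · intro x hx
        obtain ⟨x', hx', rfl⟩ := Finset.mem_image.1 hx
        rw [sub_zero]
        exact (mem_sphere_zero_iff_norm.1 x'.2).le
    rw [Finset.card_image_of_injective _ Subtype.val_injective] at h1
    exact_mod_cast h1.trans (Nat.le_ceil _)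
  have hne : {n | P n}.Nonempty := ⟨0, ∅, rfl, fun x hx => absurd hx (Finset.notMem_empty _)⟩
  have hbdd : BddAbove {n | P n} := ⟨_, fun n hn => hbd n hn⟩
  obtain ⟨t, ht, hsep⟩ : P (sSup {n | P n}) := Nat.sSup_mem hne hbdd
  refine ⟨t, hsep, fun x hx => ?_⟩
  by_contra hcon
  push Not at hcon
  have hxy : ∀ y ∈ t, ∀ i < M, ∀ j < M, ρ ≤ ‖(R ^ i) (x : V d) - (R ^ j) (y : V d)‖ := by
    intro y hy i hi j hj
    rcases le_total i j with hij | hij
    · have e1 : j = i + (j - i) := by omega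
      rw [e1, ans1_pow_add, ans1_norm_pow]
      exact hcon y hy _ (by omega)
    · have e1 : (R ^ j) (y : V d) = (R ^ i) ((R ^ (j + M - i)) (y : V d)) := by
        rw [← ans1_pow_add, show i + (j + M - i) = j + M by omega, ans1_pow_add, hRM]
      rcases eq_or_lt_of_le hij with hij2 | hij2
      · subst hij2
        rw [ans1_norm_pow]
        have := hcon y hy 0 hM
        rwa [ans1_pow_zero] at this
      · rw [e1, ans1_norm_pow]
        exact hcon y hy _ (by omega)
  have hxx : ∀ i < M, ∀ j < M, i < j → ρ ≤ ‖(R ^ i) (x : V d) - (R ^ j) (x : V d)‖ := by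
    intro i hi j hj hij
    have e1 : j = i + (j - i) := by omega
    rw [e1, ans1_pow_add, ans1_norm_pow, norm_sub_rev]
    have := hx (j - i) (by omega) (by omega)
    linarith
  have hxt : x ∉ t := by
    intro h
    have := hcon x h 0 hM
    rw [ans1_pow_zero, sub_self, norm_zero] at this
    linarith
  have hP : P (t.card + 1) := by
    refine ⟨insert x t, Finset.card_insert_of_notMem hxt, ?_⟩
    intro u hu v hv i hi j hj huv
    rw [Finset.mem_insert] at hu hv
    rcases hu with rfl | hu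
    · rcases hv with rfl | hv
      · rcases lt_trichotomy i j with h | h | h
        · exact hxx i hi j hj h
        · exact absurd (by rw [h]) huv
        · rw [norm_sub_rev]
          exact hxx j hj i hi h
      · exact hxy v hv i hi j hj
    · rcases hv with rfl | hv
      · rw [norm_sub_rev]
        exact hxy u hu j hj i hi
      · exact hsep u hu v hv i hi j hj huv
  have h1 := le_csSup hbdd hP
  omega

/-- the cyclic shift of the second coordinate -/
private lemma ans1_rotate_val (m : ℕ) (k : Fin (m + 1)) (j : ℕ) :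
    (((finRotate (m + 1)) ^ j) k).val = (k.val + j) % (m + 1) := by
  induction j with
  | zero =>
    rw [pow_zero, Equiv.Perm.one_apply, add_zero, Nat.mod_eq_of_lt k.2]
  | succ j ih =>
    rw [pow_succ', Equiv.Perm.mul_apply, finRotate_apply, Fin.val_add, ih]
    rcases Nat.eq_zero_or_pos m with hm | hm
    · subst hm
      omega
    · have h1 : ((1 : Fin (m + 1)) : ℕ) = 1 := by
        rw [Fin.val_one']
        exact Nat.mod_eq_of_lt (by omega)
      rw [h1, ← add_assoc, Nat.mod_add_mod]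

private lemma ans1_prod_pow {α β : Type*} (τ : Equiv.Perm β) (p : α × β) (j : ℕ) :
    ((Equiv.prodCongr (Equiv.refl α) τ : Equiv.Perm (α × β)) ^ j) p = (p.1, (τ ^ j) p.2) := by
  induction j with
  | zero => rfl
  | succ j ih =>
    rw [pow_succ', Equiv.Perm.mul_apply, ih, pow_succ', Equiv.Perm.mul_apply]
    rfl

private lemma ans1_conj_pow {α β : Type*} (f : α ≃ β) (τ : Equiv.Perm α) (b : β) (j : ℕ) :
    ((f.symm.trans (τ.trans f) : Equiv.Perm β) ^ j) b = f ((τ ^ j) (f.symm b)) := by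
  induction j with
  | zero => simp
  | succ j ih =>
    rw [pow_succ', Equiv.Perm.mul_apply, ih, pow_succ', Equiv.Perm.mul_apply]
    simp

end ans1

/-- Take `R`, `e`, `κ` from `exists_rot d hd M hM`. `ρ₀ = min (κ / 2) 1`, `K = 2 / κ + 1`. Let
`W = {x | ∃ j, 0 < j ∧ j < M ∧ ‖R^j x - x‖ < 2 ρ}`; it is stable under `x ↦ -x` and `rot R`.
Centres: finite sets `T` of points such that `ρ ≤ ‖R^i x - R^j y‖` for all `x, y ∈ T`, `i, j < M` with
`(x, i) ≠ (y, j)`; their cardinality is bounded (`Helper94.B2.packing` in `Helper94/B2/St/G1.lean`, see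
the proof of `exists_centres` there), take one of maximal cardinality. Every `x ∉ W` is at distance
`< ρ` from some `R^j y`, `y ∈ T`, `j < M`: otherwise `insert x T` is larger (`‖R^i x - R^j x‖ =
‖R^(j-i) x - x‖ ≥ 2 ρ` for `i < j < M`, and `‖R^i x - R^j y‖ = ‖x - R^(j-i mod M) y‖`).
`N = card T * M`, `Fin N ≃ T × Fin M` (`Fin M` with addition modulo `M`, `M = m + 1`; or `ZMod M`),
`z (y, j) = R^j y`, `σ (y, j) = (y, j + 1)`, so `σ^j` moves every index for `0 < j < M`.
`U`: if the second alternative of `exists_rot` holds then `W = ∅` (`2 ρ < κ`) and `U = ∅`. Otherwise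
`R e = e`, and every `x ∈ W` has `κ * nrm e x < 2 ρ`. Let `P` be a finite set with every point of the
sphere at distance `< ρ` from `P` (`Helper94.B2.exists_centres`), `P' = {p ∈ P | ∃ x ∈ W, ‖x - p‖ < ρ}`,
`U = {± R^j p | p ∈ P', j < M}`: finite, symmetric, `rot R`-stable (`R^M = id`), covers `W`, and
`nrm e (± R^j p) = nrm e p ≤ nrm e x + ρ < (2 / κ + 1) ρ`. -/
theorem exists_sys (d : ℕ) (hd : 1 ≤ d) (M : ℕ) (hM : 0 < M) : ∃ ρ₀ K : ℝ, 0 < ρ₀ ∧ 0 < K ∧
    ∀ ρ, 0 < ρ → ρ < ρ₀ → ∃ (N : ℕ) (z : Fin N → Sph d) (σ : Equiv.Perm (Fin N))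
      (R : V d ≃ₗᵢ[ℝ] V d) (e : Sph d) (U : Set (Sph d)),
      (∀ i, z (σ i) = rot R (z i)) ∧ (∀ i, ∀ j, 0 < j → j < M → (σ ^ j) i ≠ i) ∧
      (∀ i j, i ≠ j → ρ ≤ ‖(z i : V d) - z j‖) ∧
      U.Finite ∧ (∀ u ∈ U, -u ∈ U) ∧ (∀ u, u ∈ U ↔ rot R u ∈ U) ∧ (∀ u ∈ U, nrm e u < K * ρ) ∧
      (∀ x : Sph d, (∃ u ∈ U, ‖(x : V d) - u‖ < ρ) ∨ ∃ i, ‖(x : V d) - z i‖ < ρ) := by
  classical
  obtain ⟨R, e, κ, hκ, hRM, hlow, halt⟩ := exists_rot d hd M hM
  refine ⟨κ / 2, 2 / κ + 1, by positivity, by positivity, fun ρ hρ hρκ => ?_⟩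
  obtain ⟨T, hT, hcov⟩ := ans1_exists_T R hM hRM hρ
  obtain ⟨m, rfl⟩ : ∃ m, M = m + 1 := ⟨M - 1, by omega⟩
  set f : (T × Fin (m + 1)) ≃ Fin (Fintype.card (T × Fin (m + 1))) := Fintype.equivFin _ with hf
  set τ : Equiv.Perm (T × Fin (m + 1)) := Equiv.prodCongr (Equiv.refl _) (finRotate (m + 1)) with hτ
  -- the set `U`
  obtain ⟨U, hU1, hU2, hU3, hU4, hU5⟩ : ∃ U : Set (Sph d), U.Finite ∧ (∀ u ∈ U, -u ∈ U) ∧
      (∀ u, u ∈ U ↔ rot R u ∈ U) ∧ (∀ u ∈ U, nrm e u < (2 / κ + 1) * ρ) ∧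
      ∀ x : Sph d, (∃ j, 0 < j ∧ j < m + 1 ∧ ‖(R ^ j) (x : V d) - x‖ < 2 * ρ) →
        ∃ u ∈ U, ‖(x : V d) - u‖ < ρ := by
    rcases halt with he | halt
    · obtain ⟨Q, q, -, hq⟩ := Helper94.B2.exists_centres d hρ
      set P' : Set (Sph d) := {p | ∃ i, p = q i ∧ ∃ x : Sph d,
        (∃ j, 0 < j ∧ j < m + 1 ∧ ‖(R ^ j) (x : V d) - x‖ < 2 * ρ) ∧ ‖(x : V d) - p‖ < ρ} with hP'
      have hP'fin : P'.Finite := by
        refine (Set.finite_range q).subset ?_
        rintro p ⟨i, rfl, -⟩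
        exact ⟨i, rfl⟩
      refine ⟨{u | ∃ p ∈ P', ∃ j < m + 1, u = rot (R ^ j) p ∨ u = -rot (R ^ j) p}, ?_, ?_, ?_, ?_, ?_⟩
      · have h1 : ({u | ∃ p ∈ P', ∃ j < m + 1, u = rot (R ^ j) p ∨ u = -rot (R ^ j) p} :
            Set (Sph d)) ⊆
            ((fun w : Sph d × ℕ => rot (R ^ w.2) w.1) '' (P' ×ˢ (Finset.range (m+1) : Set ℕ))) ∪
            ((fun w : Sph d × ℕ => -rot (R ^ w.2) w.1) '' (P' ×ˢ (Finset.range (m+1) : Set ℕ))) := by
          rintro u ⟨p, hp, j, hj, h | h⟩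
          · left
            exact ⟨(p, j), ⟨hp, by simpa using hj⟩, h.symm⟩
          · right
            exact ⟨(p, j), ⟨hp, by simpa using hj⟩, h.symm⟩
        have h2 : (P' ×ˢ (Finset.range (m+1) : Set ℕ)).Finite :=
          hP'fin.prod (Finset.finite_toSet _)
        exact ((h2.image _).union (h2.image _)).subset h1
      · rintro u ⟨p, hp, j, hj, h | h⟩
        · exact ⟨p, hp, j, hj, Or.inr (by rw [h])⟩
        · exact ⟨p, hp, j, hj, Or.inl (by rw [h, neg_neg])⟩
      · intro u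
        constructor
        · rintro ⟨p, hp, j, hj, h⟩
          rcases Nat.lt_or_ge (j + 1) (m + 1) with hj1 | hj1
          · refine ⟨p, hp, j + 1, hj1, ?_⟩
            rcases h with h | h
            · left
              rw [h, ans1_rot_pow_succ]
            · right
              rw [h, ans1_rot_neg, ans1_rot_pow_succ]
          · have hjm : j + 1 = m + 1 := by omega
            refine ⟨p, hp, 0, by omega, ?_⟩
            rcases h with h | h
            · left
              rw [h, ans1_rot_pow_succ, hjm, ans1_rot_M hRM, ans1_rot_zero]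
            · right
              rw [h, ans1_rot_neg, ans1_rot_pow_succ, hjm, ans1_rot_M hRM, ans1_rot_zero]
        · rintro ⟨p, hp, j, hj, h⟩
          rcases Nat.eq_zero_or_pos j with hj0 | hj0
          · subst hj0
            refine ⟨p, hp, m, by omega, ?_⟩
            rw [ans1_rot_zero] at h
            rcases h with h | h
            · left
              apply ans1_rot_inj R
              rw [h, ans1_rot_pow_succ, ans1_rot_M hRM]
            · right
              apply ans1_rot_inj R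
              rw [h, ans1_rot_neg, ans1_rot_pow_succ, ans1_rot_M hRM]
          · obtain ⟨i, rfl⟩ : ∃ i, j = i + 1 := ⟨j - 1, by omega⟩
            refine ⟨p, hp, i, by omega, ?_⟩
            rcases h with h | h
            · left
              apply ans1_rot_inj R
              rw [h, ans1_rot_pow_succ]
            · right
              apply ans1_rot_inj R
              rw [h, ans1_rot_neg, ans1_rot_pow_succ]
      · rintro u ⟨p, ⟨i, rfl, x, ⟨j', hj'0, hj'M, hx⟩, hxp⟩, j, hj, h⟩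
        have h1 : nrm e u = nrm e (q i) := by
          rcases h with h | h
          · rw [h, ans1_nrm_rot he]
          · rw [h, ans1_nrm_neg, ans1_nrm_rot he]
        rw [h1]
        have h2 := ans1_nrm_le e (q i) x
        have h3 := hlow x j' hj'0 hj'M
        have h4 : nrm e x < 2 * ρ / κ := by
          rw [lt_div_iff₀ hκ]
          linarith
        have h5 : (2 / κ + 1) * ρ = 2 * ρ / κ + ρ := by ring
        rw [h5]
        linarith
      · intro x hx
        obtain ⟨i, hi⟩ := hq x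
        refine ⟨q i, ⟨q i, ⟨i, rfl, x, hx, hi⟩, 0, by omega, Or.inl ?_⟩, hi⟩
        rw [ans1_rot_zero]
    · refine ⟨∅, Set.finite_empty, ?_, ?_, ?_, ?_⟩
      · intro u hu
        exact absurd hu (Set.notMem_empty _)
      · intro u
        exact ⟨fun hu => absurd hu (Set.notMem_empty _), fun hu => absurd hu (Set.notMem_empty _)⟩
      · intro u hu
        exact absurd hu (Set.notMem_empty _)
      · rintro x ⟨j, h0, h1, h2⟩
        have h3 := halt x j h0 h1
        exfalso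
        linarith
  refine ⟨_, fun i => rot (R ^ ((f.symm i).2 : ℕ)) ((f.symm i).1 : Sph d),
    f.symm.trans (τ.trans f), R, e, U, ?_, ?_, ?_, hU1, hU2, hU3, hU4, ?_⟩
  · intro i
    have h1 : f.symm ((f.symm.trans (τ.trans f)) i) = τ (f.symm i) := by simp
    simp only [h1]
    have h2 : (τ (f.symm i)).1 = (f.symm i).1 := rfl
    have h3 : (τ (f.symm i)).2 = finRotate (m + 1) (f.symm i).2 := rfl
    rw [h2, h3, ans1_rot_pow_succ]
    have h4 := ans1_rotate_val m (f.symm i).2 1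
    rw [pow_one] at h4
    rw [h4]
    rcases Nat.lt_or_ge (((f.symm i).2 : ℕ) + 1) (m + 1) with h5 | h5
    · rw [Nat.mod_eq_of_lt h5]
    · have h6 : ((f.symm i).2 : ℕ) + 1 = m + 1 := by
        have := (f.symm i).2.2
        omega
      rw [h6, Nat.mod_self, ans1_rot_zero, ans1_rot_M hRM]
  · intro i j h0 h1 h2
    rw [ans1_conj_pow] at h2
    have h3 : (τ ^ j) (f.symm i) = f.symm i := by
      apply f.injective
      rw [h2, Equiv.apply_symm_apply]
    rw [hτ, ans1_prod_pow] at h3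
    have h4 := congrArg (fun w : T × Fin (m + 1) => (w.2 : ℕ)) h3
    simp only at h4
    rw [ans1_rotate_val] at h4
    have h5 := (f.symm i).2.2
    rcases Nat.lt_or_ge (((f.symm i).2 : ℕ) + j) (m + 1) with h6 | h6
    · rw [Nat.mod_eq_of_lt h6] at h4
      omega
    · rw [Nat.mod_eq_sub_mod h6, Nat.mod_eq_of_lt (by omega)] at h4
      omega
  · intro i j hij
    refine hT _ (f.symm i).1.2 _ (f.symm j).1.2 _ (f.symm i).2.2 _ (f.symm j).2.2 ?_
    intro h
    apply hij
    apply f.symm.injective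
    have h1 := (Prod.ext_iff.1 h).1
    have h2 := (Prod.ext_iff.1 h).2
    exact Prod.ext (Subtype.ext h1) (Fin.ext h2)
  · intro x
    by_cases hx : ∃ j, 0 < j ∧ j < m + 1 ∧ ‖(R ^ j) (x : V d) - x‖ < 2 * ρ
    · exact Or.inl (hU5 x hx)
    · push Not at hx
      obtain ⟨y, hy, j, hj, h⟩ := hcov x hx
      refine Or.inr ⟨f (⟨y, hy⟩, ⟨j, hj⟩), ?_⟩
      simp only [Equiv.symm_apply_apply]
      exact h

end Pool.Agent.Helper28.AN
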