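import Mathlib
import Pool.Agent.Helper28.AN.Defs
import Pool.Agent.Helper28.AN.St.A0
import Pool.Agent.Helper28.AN.St.S1
import Pool.Agent.Helper28.AN.St.M2
import Pool.Agent.Helper28.AN.St.Q2
import Pool.Agent.Helper28.AN.St.Q3
import Pool.Agent.Helper28.AN.St.F1
import Pool.Agent.Helper97.BG.Final2

/-!
Project AN (MP_8410f8_pr), piece A1: the sharp threshold for tuples.
-/

open MeasureTheory Set Filter Topology
open scoped ENNReal

namespace Pool.Agent.Helper28.AN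

open Pool.Agent.Helper97.BG

theorem dep1 {d m n k : ℕ} {a η δ : ℝ} (hη : 0 < η) (hη1 : η ≤ 1) (hn : 6 / η ^ 2 ≤ n)
    (hm : (m : ℝ) ≤ (1 + η) * n)
    (hδ : ENNReal.ofReal δ ≤ tup (sig d) m (fun A => ind (¬ Col a k A))) :
    ENNReal.ofReal (δ / 2) ≤
      Poi (ENNReal.ofReal ((1 + 2 * η) * n) • sig d) (fun A => ind (¬ Col a k A)) := by
  have hn0 : (0 : ℝ) < n := lt_of_lt_of_le (by positivity) hn
  set L : ℝ := (1 + 2 * η) * n with hL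
  have hL0 : 0 ≤ L := by positivity
  have hgt : (m : ℝ) < L := by
    rw [hL]
    nlinarith [mul_pos hη hn0]
  have hdiff : η * n ≤ L - m := by
    rw [hL]
    nlinarith
  have e1 : L / (L - m) ^ 2 ≤ 1 / 2 := by
    have h1 : 0 < η * n := by positivity
    have h2 : (η * n) ^ 2 ≤ (L - m) ^ 2 := pow_le_pow_left₀ h1.le hdiff 2
    have h3 : L ≤ 3 * n := by
      rw [hL]
      nlinarith
    calc L / (L - m) ^ 2 ≤ (3 * n) / (η * n) ^ 2 := by gcongr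
      _ = 3 / η ^ 2 / n := by
        field_simp
      _ ≤ 1 / 2 := by
        rw [div_le_iff₀ hn0]
        have h4 : 6 / η ^ 2 = 2 * (3 / η ^ 2) := by ring
        rw [h4] at hn
        linarith
  have e2 := pois_lo (lam := L) (N := m) hgt
  set S := ∑' k, pw L (m + k) with hS
  have hlo := depois_lo d (lam := L) hL0 (MS_notCol (d := d) a k)
    (fun m => tup_notCol_mono d a k m) m
  set T := tup (sig d) m (fun A => ind (¬ Col a k A)) with hT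
  have hT1 : T ≤ 1 := f2_tup_le_one d m fun A => f2_ind_le_one _
  have hTt : T / 2 ≠ ∞ := ENNReal.div_ne_top (ne_top_of_le_ne_top ENNReal.one_ne_top hT1) (by simp)
  have h1 : T ≤ Poi (ENNReal.ofReal L • sig d) (fun A => ind (¬ Col a k A)) + T / 2 := by
    calc T = T * 1 := by rw [mul_one]
      _ ≤ T * (S + ENNReal.ofReal (L / (L - m) ^ 2)) := by gcongr
      _ = T * S + T * ENNReal.ofReal (L / (L - m) ^ 2) := by ring
      _ ≤ Poi (ENNReal.ofReal L • sig d) (fun A => ind (¬ Col a k A)) +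
            T * ENNReal.ofReal (1 / 2) := by gcongr
      _ = _ := by
        congr 1
        rw [ENNReal.ofReal_div_of_pos (by norm_num), ENNReal.ofReal_one, ENNReal.div_eq_inv_mul,
          ENNReal.div_eq_inv_mul, mul_one, mul_comm]
        simp
  have h2 : T / 2 ≤ Poi (ENNReal.ofReal L • sig d) (fun A => ind (¬ Col a k A)) := by
    have h1' : T / 2 + T / 2 ≤
        Poi (ENNReal.ofReal L • sig d) (fun A => ind (¬ Col a k A)) + T / 2 := by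
      rw [ENNReal.add_halves]
      exact h1
    exact (ENNReal.add_le_add_iff_right hTt).1 h1'
  refine le_trans ?_ h2
  rw [ENNReal.ofReal_div_of_pos (by norm_num)]
  have h3 : ENNReal.ofReal (2 : ℝ) = 2 := by simp
  rw [h3]
  exact ENNReal.div_le_div_right hδ 2

theorem dep2 {d n k : ℕ} {a η δ : ℝ} (hη : 0 < η) (hη1 : η ≤ 1) (hδ : 0 < δ)
    (hn : 1 / (η ^ 2 * δ) ≤ n) :
    Poi (ENNReal.ofReal ((1 - η) * n) • sig d) (fun A => ind (¬ Col a k A)) ≤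
      tup (sig d) n (fun A => ind (¬ Col a k A)) + ENNReal.ofReal δ := by
  have hn0 : (0 : ℝ) < n := lt_of_lt_of_le (by positivity) hn
  set L : ℝ := (1 - η) * n with hL
  have hL0 : 0 ≤ L := mul_nonneg (by linarith) hn0.le
  have hhi := depois_hi d (lam := L) hL0 (MS_notCol (d := d) a k)
    (fun m => tup_notCol_mono d a k m) (fun A => f2_ind_le_one _) n
  have hN : L < ((n + 1 : ℕ) : ℝ) := by
    push_cast
    rw [hL]
    nlinarith [mul_pos hη hn0]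
  have e6 := pois_hi (lam := L) hL0 hN
  have e7 : L / (((n + 1 : ℕ) : ℝ) - L) ^ 2 ≤ δ := by
    have h3 : η * n ≤ ((n + 1 : ℕ) : ℝ) - L := by
      push_cast
      rw [hL]
      nlinarith
    have h4 : (η * n) ^ 2 ≤ (((n + 1 : ℕ) : ℝ) - L) ^ 2 :=
      pow_le_pow_left₀ (by positivity) h3 2
    have h5 : L ≤ n := by
      rw [hL]
      nlinarith [mul_pos hη hn0]
    have h6 : 0 < (η * n) ^ 2 := by positivity
    calc L / (((n + 1 : ℕ) : ℝ) - L) ^ 2 ≤ n / (η * n) ^ 2 := by gcongr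
      _ = 1 / (η ^ 2 * δ) * δ / n := by
        field_simp
      _ ≤ n * δ / n := by gcongr
      _ = δ := by field_simp
  refine hhi.trans ?_
  gcongr
  exact e6.trans (ENNReal.ofReal_le_ofReal e7)

theorem col_mono {d k : ℕ} {a b : ℝ} (hab : a ≤ b) {A : Set (Sph d)} (h : Col b k A) :
    Col a k A := by
  obtain ⟨c, hc⟩ := h
  exact ⟨c, fun u hu v hv huv => hc u hu v hv (huv.trans_le hab)⟩

theorem tup_mono_a {d n k : ℕ} {a b : ℝ} (hab : a ≤ b) :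
    tup (sig d) n (fun A => ind (¬ Col a k A)) ≤ tup (sig d) n (fun A => ind (¬ Col b k A)) := by
  refine tup_mono _ _ fun A _ => ?_
  unfold ind
  by_cases h : Col b k A
  · have h' := col_mono hab h
    rw [if_neg (not_not.2 h'), if_neg (not_not.2 h)]
  · rw [if_pos h]
    split_ifs <;> simp

/-- Weights. -/
theorem isW_ws {N : ℕ} {p l s : ℝ} (hp : 0 < p) (t : Fin N → ℝ)
    (h1 : ∀ i, 4 * p ≤ Real.exp (-(l * t i))) (h2 : ∀ i, 4 * p ≤ 1 - Real.exp (-(l * t i)))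
    (hs : 1 / 4 ≤ s) (hs1 : s ≤ 3 / 4) : IsW p (ws t l s) := by
  refine ⟨fun i c => ?_, fun i => ?_⟩
  · have a1 := h1 i
    have a2 := h2 i
    fin_cases c
    · simp only [ws]
      change p ≤ Real.exp (-(l * t i))
      linarith
    · change p ≤ (1 - Real.exp (-(l * t i))) * (1 - s)
      nlinarith
    · change p ≤ (1 - Real.exp (-(l * t i))) * s
      nlinarith
  · rw [Fin.sum_univ_three]
    change Real.exp (-(l * t i)) + (1 - Real.exp (-(l * t i))) * (1 - s) +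
      (1 - Real.exp (-(l * t i))) * s = 1
    ring

/-- The step for one symmetric system. -/
theorem sys_step {d N k b M : ℕ} {a₀ ε η p κ δ C₁ c₁ c₂ c C n : ℝ} (hk : 2 ≤ k)
    (ha0 : 0 < a₀) (hε : 0 < ε) (hε1 : ε ≤ 1) (hn : 0 < n) (hp : 0 < p) (hp4 : p ≤ 1 / 4)
    (hc1 : 0 < c₁) (hc2 : 0 < c₂)
    (hlow : c ≤ n * a₀ ^ d) (hupp : n * a₀ ^ d ≤ C)
    (ha1 : (1 + ε / 32) * a₀ ≤ 1 / 100)
    (hcurv : 128 * ((1 + ε / 32) * a₀) ^ 2 ≤ ε / 64 * a₀)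
    (hκ : κ = 16 * (64 / ε + 2)) (hb : 2 * (1 + 2 * κ) ^ (d + 1) ≤ b)
    (hC1 : C₁ = b * (1 / p) ^ b) (hC1pos : 0 < C₁)
    (hη : 0 < η) (hη8 : η ≤ 1 / 8)
    (hηp : 8 * η * (c₂ * (ε / 64) ^ d * C) * (1 + C₁) ≤ p)
    (hp1 : 4 * p ≤ Real.exp (-(2 * (c₂ * (ε / 64) ^ d * C))))
    (hp2 : 4 * p ≤ 1 - Real.exp (-(1 / 2 * (c₁ * (ε / 64) ^ d * c))))
    (hsharp : ∀ (N : ℕ) (t : Fin N → ℝ) (l₁ l₂ : ℝ) (F : Om N → Prop) (σ : Equiv.Perm (Fin N)),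
      0 < l₂ → l₂ ≤ l₁ → (∀ i, 0 < t i) → (∀ i, 4 * p ≤ Real.exp (-(l₁ * t i))) →
      (∀ i, 4 * p ≤ 1 - Real.exp (-(l₂ * t i))) →
      (∀ i, 2 * (l₁ - l₂) * t i * (1 + C₁) ≤ p) →
      (∀ ω ω' : Om N, ω ≤ ω' → F ω → F ω') →
      (∀ l s, l₂ ≤ l → l ≤ l₁ → 1 / 4 ≤ s → s ≤ 3 / 4 →
        ∑ i, Ex (ws t l s) (fun ω => one (Piv F 0 1 i ω)) ≤
          C₁ * ∑ i, Ex (ws t l s) (fun ω => one (Piv F 1 2 i ω))) →
      (∀ i, t (σ i) = t i) → (∀ ω, F (ω ∘ σ) ↔ F ω) →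
      (∀ i, ∀ j, 0 < j → j < M → (σ ^ j) i ≠ i) →
      δ / 2 ≤ Ex (ws t l₁ (1 / 4)) (fun ω => one (F ω)) →
      1 - δ / 2 ≤ Ex (ws t l₂ (3 / 4)) (fun ω => one (F ω)))
    (hδ : 0 < δ)
    (z : Fin N → Sph d) (σ : Equiv.Perm (Fin N)) (R : V d ≃ₗᵢ[ℝ] V d) (U : Set (Sph d))
    (hz : ∀ i, z (σ i) = rot R (z i)) (hσ : ∀ i, ∀ j, 0 < j → j < M → (σ ^ j) i ≠ i)
    (hsep : ∀ i j, i ≠ j → ε / 64 * a₀ ≤ ‖(z i : V d) - z j‖)
    (hUf : U.Finite) (hU : ∀ u ∈ U, -u ∈ U) (hUR : ∀ u, u ∈ U ↔ rot R u ∈ U)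
    (hcov : ∀ x : Sph d, (∃ u ∈ U, ‖(x : V d) - u‖ < ε / 64 * a₀) ∨
      ∃ i, ‖(x : V d) - z i‖ < ε / 64 * a₀)
    (t : Fin N → ℝ) (nu : Fin N → Measure (Sph d)) (nu' : Measure (Sph d))
    (hnu : ∀ i, IsProbabilityMeasure (nu i))
    (hnu1 : ∀ i, ∀ᵐ x : Sph d ∂(nu i), ‖(x : V d) - z i‖ < ε / 64 * a₀)
    (hnu2 : ∀ᵐ x : Sph d ∂nu', ∀ i, ε / 64 * a₀ ≤ ‖(x : V d) - z i‖)
    (hsum : (∑ i, ENNReal.ofReal (t i) • nu i) + nu' = sig d)
    (ht1 : ∀ i, c₁ * (ε / 64 * a₀) ^ d ≤ t i) (ht2 : ∀ i, t i ≤ c₂ * (ε / 64 * a₀) ^ d)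
    (htσ : ∀ i, t (σ i) = t i)
    (hstart : ENNReal.ofReal (δ / 2) ≤ Poi (ENNReal.ofReal ((1 + 2 * η) * n) • sig d)
      (fun A => ind (¬ Col a₀ k A))) :
    ENNReal.ofReal (1 - δ / 2) ≤ Poi (ENNReal.ofReal ((1 - 2 * η) * n) • sig d)
      (fun A => ind (¬ Col ((1 + 11 / 32 * ε) * a₀ - 2 * (ε / 64 * a₀)) k (A ∪ U))) := by
  set ρ : ℝ := ε / 64 * a₀ with hρ
  have hρ0 : 0 < ρ := by positivity
  set h : ℝ := ε / 8 * a₀ with hh
  have hh0 : 0 < h := by positivity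
  have hεa : ε * a₀ ≤ a₀ := by nlinarith
  set a : ℝ := (1 + ε / 32) * a₀ with ha
  have ha' : 0 < a := by positivity
  have haa : a₀ + 2 * ρ = a := by rw [ha, hρ]; ring
  have hθ : 0 < (ε / 64) ^ d := by positivity
  have hρd : ρ ^ d = (ε / 64) ^ d * a₀ ^ d := by rw [hρ, mul_pow]
  have hnt1 : ∀ i, c₁ * (ε / 64) ^ d * c ≤ n * t i := by
    intro i
    calc c₁ * (ε / 64) ^ d * c ≤ c₁ * (ε / 64) ^ d * (n * a₀ ^ d) := by gcongr
      _ = n * (c₁ * ρ ^ d) := by rw [hρd]; ring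
      _ ≤ n * t i := by gcongr; exact ht1 i
  have hnt2 : ∀ i, n * t i ≤ c₂ * (ε / 64) ^ d * C := by
    intro i
    calc n * t i ≤ n * (c₂ * ρ ^ d) := by gcongr; exact ht2 i
      _ = c₂ * (ε / 64) ^ d * (n * a₀ ^ d) := by rw [hρd]; ring
      _ ≤ c₂ * (ε / 64) ^ d * C := by gcongr
  have htpos : ∀ i, 0 < t i := by
    intro i
    refine lt_of_lt_of_le ?_ (ht1 i)
    positivity
  set l₁ : ℝ := (1 + 2 * η) * n with hl1
  set l₂ : ℝ := (1 - 2 * η) * n with hl2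
  have hl2pos : 0 < l₂ := mul_pos (by linarith) hn
  have hl12 : l₂ ≤ l₁ := by
    rw [hl1, hl2]
    nlinarith [mul_pos hη hn]
  -- bounds for the exponentials, uniform in `l`
  have hE1 : ∀ l, l ≤ l₁ → 0 ≤ l → ∀ i, 4 * p ≤ Real.exp (-(l * t i)) := by
    intro l hl hl0 i
    refine hp1.trans (Real.exp_le_exp.2 ?_)
    have h1 : l * t i ≤ l₁ * t i := mul_le_mul_of_nonneg_right hl (htpos i).le
    have h2 : l₁ * t i = (1 + 2 * η) * (n * t i) := by rw [hl1]; ring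
    have h3 := hnt2 i
    have h4 : 0 < n * t i := mul_pos hn (htpos i)
    nlinarith
  have hE2 : ∀ l, l₂ ≤ l → ∀ i, 4 * p ≤ 1 - Real.exp (-(l * t i)) := by
    intro l hl i
    refine hp2.trans ?_
    have h0 : Real.exp (-(l * t i)) ≤ Real.exp (-(1 / 2 * (c₁ * (ε / 64) ^ d * c))) := by
      refine Real.exp_le_exp.2 ?_
      have h1 : l₂ * t i ≤ l * t i := mul_le_mul_of_nonneg_right hl (htpos i).le
      have h2 : l₂ * t i = (1 - 2 * η) * (n * t i) := by rw [hl2]; ring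
      have h3 := hnt1 i
      have h4 : 0 < n * t i := mul_pos hn (htpos i)
      nlinarith
    linarith
  have hmain := hsharp N t l₁ l₂ (FF a h k z U) σ hl2pos hl12 htpos (hE1 l₁ le_rfl (by positivity))
    (hE2 l₂ le_rfl) ?_ (fun ω ω' hω hF => FF_mono hh0.le z U hω hF) ?_ htσ
    (fun ω => FF_perm z U σ R hz hUR ω) hσ ?_
  · have hq3 := poi_upper (d := d) (k := k) (a₁ := a + 2 * h + 2 * ρ) (a := a) (h := h) (ρ := ρ)
      (l := l₂) (s := 3 / 4) z U hUf t nu nu' hnu hnu1 (fun i => (htpos i).le) hsum hl2pos.le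
      (by norm_num) (by norm_num) hh0.le hρ0.le le_rfl
    have e : (1 + 11 / 32 * ε) * a₀ - 2 * (ε / 64 * a₀) = a + 2 * h + 2 * ρ := by
      rw [ha, hh, hρ]
      ring
    rw [← hρ] at e
    rw [e]
    exact (ENNReal.ofReal_le_ofReal hmain).trans hq3
  · intro i
    have h1 : 2 * (l₁ - l₂) * t i = 8 * η * (n * t i) := by rw [hl1, hl2]; ring
    rw [h1]
    refine le_trans ?_ hηp
    have := hnt2 i
    gcongr
  · intro l s hl1' hl2' hs1 hs2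
    rw [hC1]
    exact infl_cmp hk ha' ha1 (by rw [hh, ha]; nlinarith) hρ0 (by rw [hρ, hh]; nlinarith)
      hcurv z U hU hsep hcov hp (by linarith) (by
        rw [hκ, ha, hρ]
        have : 16 * (64 / ε + 2) * (ε / 64 * a₀) = 16 * ((1 + ε / 32) * a₀) := by
          field_simp
          ring
        rw [this]) hb
      (isW_ws hp t (hE1 l hl2' (hl2pos.le.trans hl1')) (hE2 l hl1') hs1 hs2)
  · have hq2 := poi_lower (d := d) (k := k) (a₀ := a₀) (a := a) (h := h) (ρ := ρ)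
      (l := l₁) (s := 1 / 4) z U t nu nu' hnu hnu1 (by
        filter_upwards [hnu2] with x hx
        rcases hcov x with hu | ⟨i, hi⟩
        · exact hu
        · exact absurd hi (not_lt.2 (hx i))) (fun i => (htpos i).le) hsum
      (by positivity) (by norm_num) (by norm_num) hh0.le haa.le
    have h1 := hstart.trans hq2
    rcases ENNReal.ofReal_le_ofReal_iff'.1 h1 with h2 | h2
    · exact h2
    · linarith

/-- A1. -/
theorem main_tup (d : ℕ) (hd : 1 ≤ d) {k : ℕ} (hk : 2 ≤ k) {c C ε : ℝ} (hc : 0 < c) (hcC : c ≤ C)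
    (hε : 0 < ε) (hε1 : ε ≤ 1) : ∃ η : ℝ, 0 < η ∧ ∀ δ : ℝ, 0 < δ → ∃ n₀ : ℕ, ∀ n m : ℕ, n₀ ≤ n →
      (m : ℝ) ≤ (1 + η) * n → ∀ a : ℝ, 0 < a → c ≤ n * a ^ d → n * a ^ d ≤ C →
      ENNReal.ofReal δ ≤ tup (sig d) m (fun A => ind (¬ Col a k A)) →
      ENNReal.ofReal (1 - δ) ≤ tup (sig d) n (fun A => ind (¬ Col ((1 + ε) * a) k A)) := by
  have hC : 0 < C := hc.trans_le hcC
  obtain ⟨c₁, c₂, hc1, hc2, hcell⟩ := exists_cellmeas d
  have hθ : 0 < (ε / 64) ^ d := by positivity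
  set X : ℝ := c₂ * (ε / 64) ^ d * C with hX
  have hX0 : 0 < X := by positivity
  set Y : ℝ := c₁ * (ε / 64) ^ d * c with hY
  have hY0 : 0 < Y := by positivity
  set p : ℝ := min (Real.exp (-(2 * X)) / 4) ((1 - Real.exp (-(1 / 2 * Y))) / 4) with hp
  have hexpY : Real.exp (-(1 / 2 * Y)) < 1 := by
    rw [Real.exp_lt_one_iff]
    linarith
  have hp0 : 0 < p := by
    rw [hp, lt_min_iff]
    constructor
    · positivity
    · linarith
  have hp1 : 4 * p ≤ Real.exp (-(2 * X)) := by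
    have := min_le_left (Real.exp (-(2 * X)) / 4) ((1 - Real.exp (-(1 / 2 * Y))) / 4)
    rw [← hp] at this
    linarith
  have hp2 : 4 * p ≤ 1 - Real.exp (-(1 / 2 * Y)) := by
    have := min_le_right (Real.exp (-(2 * X)) / 4) ((1 - Real.exp (-(1 / 2 * Y))) / 4)
    rw [← hp] at this
    linarith
  have hp4 : p ≤ 1 / 4 := by
    have := Real.exp_pos (-(1 / 2 * Y))
    linarith
  set κ : ℝ := 16 * (64 / ε + 2) with hκ
  have hκ0 : 0 < κ := by positivity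
  set b : ℕ := ⌈2 * (1 + 2 * κ) ^ (d + 1)⌉₊ with hb
  have hb1 : 2 * (1 + 2 * κ) ^ (d + 1) ≤ b := Nat.le_ceil _
  have hb0 : (0 : ℝ) < b := lt_of_lt_of_le (by positivity) hb1
  set C₁ : ℝ := b * (1 / p) ^ b with hC1
  have hC1pos : 0 < C₁ := by positivity
  set η : ℝ := min (1 / 8) (p / (8 * X * (1 + C₁))) with hη
  have hη0 : 0 < η := by
    rw [hη, lt_min_iff]
    constructor
    · norm_num
    · positivity
  have hη8 : η ≤ 1 / 8 := min_le_left _ _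
  have hηp : 8 * η * X * (1 + C₁) ≤ p := by
    have h1 : η ≤ p / (8 * X * (1 + C₁)) := min_le_right _ _
    rw [le_div_iff₀ (by positivity)] at h1
    linarith
  refine ⟨η, hη0, fun δ hδ => ?_⟩
  by_cases hδ1 : 1 ≤ δ
  · refine ⟨0, fun n m _ _ a _ _ _ _ => ?_⟩
    rw [ENNReal.ofReal_eq_zero.2 (by linarith)]
    exact zero_le
  push Not at hδ1
  obtain ⟨M, hM, hsharp⟩ := abs_sharp hp0 hC1pos (half_pos hδ)
  obtain ⟨ρ₀, K, hρ0, hK, hsys⟩ := exists_sys d hd M hM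
  obtain ⟨ρ₁, hρ1, hfill⟩ := fill d hd hK (c := η * (ε / 64) ^ d * c) (by positivity)
    (δ := δ / 4) (by positivity)
  set A₀ : ℝ := min (min (ε / 16384) (1 / 200)) (min ρ₀ ρ₁) with hA₀
  have hA0 : 0 < A₀ := by
    rw [hA₀]
    exact lt_min (lt_min (by positivity) (by norm_num)) (lt_min hρ0 hρ1)
  have hA1 : A₀ ≤ ε / 16384 := (min_le_left _ _).trans (min_le_left _ _)
  have hA2 : A₀ ≤ 1 / 200 := (min_le_left _ _).trans (min_le_right _ _)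
  have hA3 : A₀ ≤ ρ₀ := (min_le_right _ _).trans (min_le_left _ _)
  have hA4 : A₀ ≤ ρ₁ := (min_le_right _ _).trans (min_le_right _ _)
  refine ⟨⌈C / A₀ ^ d⌉₊ + ⌈6 / η ^ 2⌉₊ + ⌈1 / (η ^ 2 * (δ / 4))⌉₊ + 1, ?_⟩
  intro n m hn hm a₀ ha0 hlow hupp hstart
  have hn' : ((⌈C / A₀ ^ d⌉₊ + ⌈6 / η ^ 2⌉₊ + ⌈1 / (η ^ 2 * (δ / 4))⌉₊ + 1 : ℕ) : ℝ) ≤ n := by
    exact_mod_cast hn
  push_cast at hn'
  have b1 : C / A₀ ^ d ≤ ⌈C / A₀ ^ d⌉₊ := Nat.le_ceil _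
  have b2 : 6 / η ^ 2 ≤ ⌈6 / η ^ 2⌉₊ := Nat.le_ceil _
  have b3 : 1 / (η ^ 2 * (δ / 4)) ≤ ⌈1 / (η ^ 2 * (δ / 4))⌉₊ := Nat.le_ceil _
  have b4 : (0 : ℝ) ≤ ⌈C / A₀ ^ d⌉₊ := Nat.cast_nonneg _
  have b5 : (0 : ℝ) ≤ ⌈6 / η ^ 2⌉₊ := Nat.cast_nonneg _
  have b6 : (0 : ℝ) ≤ ⌈1 / (η ^ 2 * (δ / 4))⌉₊ := Nat.cast_nonneg _
  have hn0 : (0 : ℝ) < n := by linarith
  have hnC : C / A₀ ^ d ≤ n := by linarith
  have hn6 : 6 / η ^ 2 ≤ n := by linarith
  have hnδ : 1 / (η ^ 2 * (δ / 4)) ≤ n := by linarith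
  have haA : a₀ ≤ A₀ := by
    have h1 : a₀ ^ d ≤ A₀ ^ d := by
      have h2 : C ≤ n * A₀ ^ d := by
        rwa [div_le_iff₀ (by positivity)] at hnC
      have h3 : (n : ℝ) * a₀ ^ d ≤ n * A₀ ^ d := hupp.trans h2
      exact le_of_mul_le_mul_left h3 hn0
    exact le_of_pow_le_pow_left₀ (by omega) hA0.le h1
  have hρpos : 0 < ε / 64 * a₀ := by positivity
  have hρsmall : ε / 64 * a₀ < a₀ := by nlinarith
  obtain ⟨N, z, σ, R, e, U, hz, hσ, hsep, hUf, hU, hUR, hUe, hcov⟩ :=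
    hsys (ε / 64 * a₀) hρpos (by linarith)
  obtain ⟨t, nu, nu', hnu, hnu1, hnu2, hsum, ht1, ht2, htσ⟩ :=
    hcell (ε / 64 * a₀) hρpos (by linarith) N z hsep
  have hstep := sys_step (d := d) (N := N) (k := k) (b := b) (M := M) (a₀ := a₀) (ε := ε) (η := η)
    (p := p) (κ := κ) (δ := δ) (C₁ := C₁) (c₁ := c₁) (c₂ := c₂) (c := c) (C := C) (n := n) hk
    ha0 hε hε1 hn0 hp0 hp4 hc1 hc2 hlow hupp (by nlinarith) (by
      have h1 : (1 + ε / 32) ^ 2 ≤ 2 := by nlinarith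
      have h2 : a₀ ≤ ε / 16384 := haA.trans hA1
      have h3 : 128 * ((1 + ε / 32) * a₀) ^ 2 = (128 * (1 + ε / 32) ^ 2 * a₀) * a₀ := by ring
      rw [h3]
      refine mul_le_mul_of_nonneg_right ?_ ha0.le
      nlinarith) hκ hb1 hC1 hC1pos hη0 hη8 hηp hp1 hp2 hsharp hδ z σ R U hz hσ hsep hUf hU hUR
    hcov t nu nu' hnu hnu1 hnu2 hsum ht1 ht2 (htσ R σ hz)
    (dep1 hη0 (by linarith) hn6 hm hstart)
  have hf := hfill (ε / 64 * a₀) hρpos (by linarith) e U hUf hUe ((1 - 2 * η) * n) (η * n)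
    (mul_nonneg (by linarith) hn0.le) (by
      rw [mul_pow]
      calc η * (ε / 64) ^ d * c ≤ η * (ε / 64) ^ d * (n * a₀ ^ d) := by gcongr
        _ = η * n * ((ε / 64) ^ d * a₀ ^ d) := by ring)
    ((1 + 11 / 32 * ε) * a₀ - 2 * (ε / 64 * a₀)) k
  have e1 : (1 + 11 / 32 * ε) * a₀ - 2 * (ε / 64 * a₀) + 2 * (ε / 64 * a₀) =
      (1 + 11 / 32 * ε) * a₀ := by ring
  have e2 : (1 - 2 * η) * n + η * n = (1 - η) * n := by ring
  rw [e1, e2] at hf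
  have hd2 := dep2 (d := d) (k := k) (a := (1 + 11 / 32 * ε) * a₀) hη0 (by linarith)
    (δ := δ / 4) (by positivity) hnδ
  have hchain : ENNReal.ofReal (1 - δ) + ENNReal.ofReal (δ / 4) ≤
      tup (sig d) n (fun A => ind (¬ Col ((1 + 11 / 32 * ε) * a₀) k A)) +
        ENNReal.ofReal (δ / 4) := by
    calc ENNReal.ofReal (1 - δ) + ENNReal.ofReal (δ / 4)
        = ENNReal.ofReal (1 - δ + δ / 4) :=
          (ENNReal.ofReal_add (by linarith) (by linarith)).symm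
      _ ≤ ENNReal.ofReal ((1 - δ / 4) * (1 - δ / 2)) := by
          apply ENNReal.ofReal_le_ofReal
          nlinarith
      _ = ENNReal.ofReal (1 - δ / 4) * ENNReal.ofReal (1 - δ / 2) :=
          ENNReal.ofReal_mul (by linarith)
      _ ≤ _ := by gcongr
      _ ≤ _ := hf
      _ ≤ _ := hd2
  have hfin : ENNReal.ofReal (1 - δ) ≤
      tup (sig d) n (fun A => ind (¬ Col ((1 + 11 / 32 * ε) * a₀) k A)) :=
    (ENNReal.add_le_add_iff_right ENNReal.ofReal_ne_top).1 hchain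
  exact hfin.trans (tup_mono_a (by nlinarith))

end Pool.Agent.Helper28.AN
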